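import Pool.Agent.Lib.MP_4b24a5_an_M1.DFld

set_option autoImplicit false

/-! MP_4b24a5_an, project M1, module Prim. -/

namespace Pool.Agent.MP4b24a5.M1

variable {F : Type*} [Field F]

namespace DF

variable [CharZero F] (S : DF F)

/-- `D ^ n (c ξ ^ n) = n! c` for constants `c`. -/
theorem iter_xi (n : ℕ) {c : F} (hc : S.D c = 0) :
    S.D^[n] (c * S.ξ ^ n) = (n.factorial : F) * c := by
  induction n generalizing c with
  | zero => simp
  | succ n ih =>
    rw [Function.iterate_succ_apply, S.D_const_mul hc, S.D_pow, S.D_ξ, mul_one,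
      Nat.add_sub_cancel]
    have h1 : c * (((n + 1 : ℕ) : F) * S.ξ ^ n) = (((n + 1 : ℕ) : F) * c) * S.ξ ^ n := by ring
    have h2 : S.D (((n + 1 : ℕ) : F) * c) = 0 := by
      rw [S.D_const_mul (S.D_natCast (n + 1)), hc, mul_zero]
    rw [h1, ih h2, Nat.factorial_succ]
    push_cast
    ring

omit [CharZero F] in
private theorem prim_iter_sub (n : ℕ) (x y : F) :
    S.D^[n] (x - y) = S.D^[n] x - S.D^[n] y := by
  induction n generalizing x y with
  | zero => rfl
  | succ n ih => rw [Function.iterate_succ_apply, S.D_sub, ih]; rfl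

/-- Polynomials are small: induction on `n`; `c = D ^ n x` is a constant, and
`x - c ξ ^ n / n!` is killed by `D ^ n`. -/
theorem iter_zero_mem (n : ℕ) : ∀ x : F, S.D^[n] x = 0 → x ∈ S.K := by
  induction n with
  | zero =>
    intro x hx
    rw [Function.iterate_zero_apply] at hx
    rw [hx]
    exact S.K.zero_mem
  | succ n ih =>
    intro x hx
    rw [Function.iterate_succ_apply'] at hx
    have hn : (n.factorial : F) ≠ 0 := Nat.cast_ne_zero.mpr n.factorial_ne_zero
    have hc : S.D^[n] x ∈ S.K := S.const _ hx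
    have h1 : S.D (S.D^[n] x / (n.factorial : F)) = 0 := by
      rw [S.D_div _ hn, hx, S.D_natCast, zero_mul, mul_zero, sub_zero, zero_div]
    have h2 : S.D^[n] (x - S.D^[n] x / (n.factorial : F) * S.ξ ^ n) = 0 := by
      rw [prim_iter_sub, S.iter_xi n h1, mul_div_cancel₀ _ hn, sub_self]
    have h3 := ih _ h2
    have h4 : S.D^[n] x / (n.factorial : F) * S.ξ ^ n ∈ S.K :=
      S.K.mul_mem (S.K.div_mem hc (natCast_mem S.K _)) (pow_mem S.ξ_mem n)
    have h5 := S.K.add_mem h3 h4
    rwa [sub_add_cancel] at h5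

/-- Quadratic equations: if `a = b = 0` then `c = 0`, excluded; if `a = 0` then `x = -c / b`; if
`a ≠ 0` complete the square and use `S.root` with `n = 2`. -/
theorem quad_mem {a b c x : F} (ha : a ∈ S.K) (hb : b ∈ S.K) (hc : c ∈ S.K)
    (h : a * x ^ 2 + b * x + c = 0) (hne : ¬ (a = 0 ∧ b = 0 ∧ c = 0)) : x ∈ S.K := by
  have h2K : (2 : F) ∈ S.K := ofNat_mem S.K 2
  by_cases ha0 : a = 0
  · rw [ha0, zero_mul, zero_add] at h
    by_cases hb0 : b = 0
    · rw [hb0, zero_mul, zero_add] at h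
      exact absurd ⟨ha0, hb0, h⟩ hne
    · have hx : x = -c / b := by
        rw [eq_div_iff hb0]
        linear_combination h
      rw [hx]
      exact S.K.div_mem (S.K.neg_mem hc) hb
  · have h2 : (2 * a * x + b) ^ 2 = b ^ 2 - (2 * 2) * (a * c) := by
      linear_combination (4 * a) * h
    have h3 : (2 * a * x + b) ∈ S.K := by
      refine S.root _ 2 two_ne_zero ?_
      rw [h2]
      exact S.K.sub_mem (pow_mem hb 2) (S.K.mul_mem (S.K.mul_mem h2K h2K) (S.K.mul_mem ha hc))
    have h4 : x = (2 * a * x + b - b) / (2 * a) := by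
      have : (2 : F) * a ≠ 0 := mul_ne_zero two_ne_zero ha0
      rw [eq_div_iff this]
      ring
    rw [h4]
    exact S.K.div_mem (S.K.sub_mem h3 hb) (S.K.mul_mem h2K ha)

/-- If `D Ψ = μ Ψ` with `μ` small and `D Ψ / (Ψ - 1)` is small, then `Ψ` is small:
`q (Ψ - 1) = μ Ψ`, so `Ψ = q / (q - μ)` unless `q = μ`, and then `q = 0`, `D Ψ = 0`. -/
theorem ratio {Ψ μ : F} (hμ : μ ∈ S.K) (h : S.D Ψ = μ * Ψ) (hq : S.D Ψ / (Ψ - 1) ∈ S.K) :
    Ψ ∈ S.K := by
  by_cases h1 : Ψ - 1 = 0
  · rw [sub_eq_zero.mp h1]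
    exact S.K.one_mem
  · set q := S.D Ψ / (Ψ - 1) with hqd
    have h2 : q * (Ψ - 1) = S.D Ψ := div_mul_cancel₀ _ h1
    by_cases h3 : q - μ = 0
    · have h4 : q = μ := sub_eq_zero.mp h3
      have h5 : q = 0 := by
        rw [h, h4] at h2
        rw [h4]
        linear_combination -h2
      apply S.const
      rw [← h2, h5, zero_mul]
    · have h4 : Ψ = q / (q - μ) := by
        rw [eq_div_iff h3]
        rw [h] at h2
        linear_combination h2
      rw [h4]
      exact S.K.div_mem hq (S.K.sub_mem hq hμ)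

end DF

end Pool.Agent.MP4b24a5.M1
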