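import Pool.Agent.Lib.MP_4b24a5_an_M1.CaseB1
import Pool.Agent.Lib.MP_4b24a5_an_M1.Prim

set_option autoImplicit false

/-! MP_4b24a5_an, project M1, module CaseB2. -/

namespace Pool.Agent.MP4b24a5.M1

variable {F : Type*} [Field F]

namespace DF

variable [CharZero F] (S : DF F)

/-- Nondegenerate case: `X, Y` not both `0`; then (as `f, f' ≠ 0`) `f' = μ f` with `μ = -Y / X`
small, and `caseB_star` reads `(μ ^ 2 - B μ + φ) f ^ 2 = -q ≠ 0`, so `f ^ 2` and `f` are small. -/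
theorem caseB_nd {f A φ q X Y B : F} (hX : X ∈ S.K) (hY : Y ∈ S.K) (hB : B ∈ S.K)
    (hφ : φ ∈ S.K) (hq : q ∈ S.K) (hq0 : q ≠ 0) (hf : f ≠ 0) (hf' : S.D f ≠ 0)
    (hl : X * S.D f + Y * f = 0) (hne : ¬ (X = 0 ∧ Y = 0))
    (hs : (S.D f) ^ 2 - B * (f * S.D f) + φ * f ^ 2 = -q) : f ∈ S.K := by
  have hX0 : X ≠ 0 := by
    intro h0
    rw [h0, zero_mul, zero_add] at hl
    rcases mul_eq_zero.mp hl with h1 | h1
    · exact hne ⟨h0, h1⟩
    · exact hf h1
  have hμ : S.D f = (-Y / X) * f := by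
    field_simp
    linear_combination hl
  have hμK : -Y / X ∈ S.K := S.K.div_mem (S.K.neg_mem hY) hX
  generalize -Y / X = μ at hμ hμK
  have hc : (μ ^ 2 - B * μ + φ) * f ^ 2 = -q := by
    rw [← hs, hμ]
    ring
  have hc0 : μ ^ 2 - B * μ + φ ≠ 0 := by
    intro h0
    rw [h0, zero_mul] at hc
    exact hq0 (neg_eq_zero.mp hc.symm)
  refine S.root f 2 (by norm_num) ?_
  have h2 : f ^ 2 = -q / (μ ^ 2 - B * μ + φ) := by
    rw [eq_div_iff hc0, ← hc]
    ring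
  rw [h2]
  exact S.K.div_mem (S.K.neg_mem hq)
    (S.K.add_mem (S.K.sub_mem (S.K.pow_mem hμK 2) (S.K.mul_mem hB hμK)) hφ)

/-- Degenerate case: `φ' = 2 A φ`, `B' = 4 φ + A B - B ^ 2`, `(q G)' = 3 A (q G)`. If `φ ≠ 0`:
`(q G) ^ 2` and `φ ^ 3` have the same logarithmic derivative `6 A` (`const_of_ld`), so `(q G) ^ 2`
is small, and `G` is. If `φ = 0`: `f'` has logarithmic derivative `A`, so `q G = c f' ^ 3`. If
`B = 0`, `f' ^ 2 = -q` and `f'`, `G` are small. If `B ≠ 0`: `(f' / B)' = f'`, so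
`f' = B (f + c3)`, and `f' ^ 2 - B f f' = f' B c3 = -q`; so `c3 ≠ 0`, `f'` is small and `G` is. -/
theorem caseB_dg {f A φ q G B : F} (hB : B ∈ S.K) (hφ : φ ∈ S.K) (hq : q ∈ S.K) (hq0 : q ≠ 0)
    (hG0 : G ≠ 0) (hf' : S.D f ≠ 0) (h2 : S.D (S.D f) = A * S.D f + φ * f)
    (h3 : S.D (q * G) = 3 * A * (q * G)) (h4 : S.D φ = 2 * A * φ)
    (h5 : S.D B = 4 * φ + A * B - B ^ 2)
    (hs : (S.D f) ^ 2 - B * (f * S.D f) + φ * f ^ 2 = -q) : G ∈ S.K := by
  have hqG : q * G ≠ 0 := mul_ne_zero hq0 hG0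
  have hld : S.D (q * G) / (q * G) = 3 * A := by
    rw [h3]
    field_simp
  have hfin : q * G ∈ S.K → G ∈ S.K := by
    intro h
    have h6 := S.K.div_mem h hq
    rwa [mul_div_cancel_left₀ G hq0] at h6
  by_cases hφ0 : φ = 0
  · have hf2 : S.D (S.D f) = A * S.D f := by rw [h2, hφ0, zero_mul, add_zero]
    have hl3 : S.D ((S.D f) ^ 3) / (S.D f) ^ 3 = 3 * A := by
      rw [S.D_pow_div hf' 3, hf2]
      push_cast
      field_simp
    obtain ⟨c, hc0, hc, hqc⟩ := S.const_of_ld hqG (pow_ne_zero 3 hf') (hld.trans hl3.symm)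
    have hf'K : S.D f ∈ S.K := by
      by_cases hB0 : B = 0
      · refine S.root _ 2 (by norm_num) ?_
        rw [hB0, hφ0, zero_mul, zero_mul, sub_zero, add_zero] at hs
        rw [hs]
        exact S.K.neg_mem hq
      · have hDB : S.D B = A * B - B ^ 2 := by
          rw [h5, hφ0]
          ring
        have hc3 : S.D (S.D f / B - f) = 0 := by
          rw [S.D_sub, S.D_div _ hB0, hf2, hDB]
          field_simp
          ring
        have hK3 := S.const _ hc3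
        have hprod : S.D f * (B * (S.D f / B - f)) = -q := by
          rw [← hs, hφ0]
          field_simp
          ring
        have h30 : B * (S.D f / B - f) ≠ 0 := by
          intro h0
          rw [h0, mul_zero] at hprod
          exact hq0 (neg_eq_zero.mp hprod.symm)
        have h7 : S.D f = -q / (B * (S.D f / B - f)) := (eq_div_iff h30).mpr hprod
        rw [h7]
        exact S.K.div_mem (S.K.neg_mem hq) (S.K.mul_mem hB hK3)
    refine hfin ?_
    rw [hqc]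
    exact S.K.mul_mem (S.const c hc) (S.K.pow_mem hf'K 3)
  · have hl1 : S.D ((q * G) ^ 2) / (q * G) ^ 2 = 6 * A := by
      rw [S.D_pow_div hqG 2, hld]
      push_cast
      ring
    have hl2 : S.D (φ ^ 3) / φ ^ 3 = 6 * A := by
      rw [S.D_pow_div hφ0 3, h4]
      push_cast
      field_simp
      ring
    obtain ⟨c, hc0, hc, hqc⟩ := S.const_of_ld (pow_ne_zero 2 hqG) (pow_ne_zero 3 hφ0)
      (hl1.trans hl2.symm)
    refine hfin (S.root _ 2 (by norm_num) ?_)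
    rw [hqc]
    exact S.K.mul_mem (S.const c hc) (S.K.pow_mem hφ 3)

/-- `Ψ = f f'`, `A = Ψ'' / Ψ' / 3`, `φ = (f'' - A f') / f`, `q = Ψ' / (Ψ - 1)`. If `Ψ' = 0`, `Ψ` is
small; otherwise `q ≠ 0`, `Ψ ≠ 1`, `f, f' ≠ 0`, `Ψ' = q G`, `Ψ'' = 3 A Ψ'`, `q' = q (3 A - q)`;
`caseB_star`, `caseB_lin`, `caseB_nd`, `caseB_dg`. -/
theorem caseB {f A φ : F} (hA : A ∈ S.K) (hφ : φ ∈ S.K)
    (hAf : A = S.D (S.D (f * S.D f)) / S.D (f * S.D f) / 3)
    (hφf : φ = (S.D (S.D f) - A * S.D f) / f)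
    (hq : S.D (f * S.D f) / (f * S.D f - 1) ∈ S.K) : f ∈ S.K ∨ f * S.D f ∈ S.K := by
  by_cases hΨ' : S.D (f * S.D f) = 0
  · exact Or.inr (S.const _ hΨ')
  have hG0 : f * S.D f - 1 ≠ 0 := by
    intro h0
    have h1 : f * S.D f = 1 := sub_eq_zero.mp h0
    rw [h1, S.D_one] at hΨ'
    exact hΨ' rfl
  have hf : f ≠ 0 := by
    intro h0
    rw [h0, zero_mul, S.D_zero] at hΨ'
    exact hΨ' rfl
  have hf' : S.D f ≠ 0 := by
    intro h0
    rw [h0, mul_zero, S.D_zero] at hΨ'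
    exact hΨ' rfl
  obtain ⟨q, hqd⟩ : ∃ q, q = S.D (f * S.D f) / (f * S.D f - 1) := ⟨_, rfl⟩
  rw [← hqd] at hq
  have hq0 : q ≠ 0 := by
    rw [hqd]
    exact div_ne_zero hΨ' hG0
  have hqG : S.D (f * S.D f) = q * (f * S.D f - 1) := by
    rw [hqd, div_mul_cancel₀ _ hG0]
  have hG : S.D (f * S.D f - 1) = q * (f * S.D f - 1) := by
    rw [S.D_sub, S.D_one, sub_zero, hqG]
  have h2 : S.D (S.D f) = A * S.D f + φ * f := by
    rw [hφf, div_mul_cancel₀ _ hf]
    ring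
  have h3' : S.D (S.D (f * S.D f)) = 3 * A * S.D (f * S.D f) := by
    have h30 : (3 : F) ≠ 0 := by norm_num
    rw [hAf]
    field_simp
  have h3 : S.D (q * (f * S.D f - 1)) = 3 * A * (q * (f * S.D f - 1)) := by
    rw [← hqG, h3']
  have hq' : S.D q = q * (3 * A - q) := by
    have h6 : S.D (q * (f * S.D f - 1)) = S.D q * (f * S.D f - 1) +
        q * (q * (f * S.D f - 1)) := by rw [S.mul, hG]
    rw [h3] at h6
    have h7 : (S.D q - q * (3 * A - q)) * (f * S.D f - 1) = 0 := by linear_combination -h6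
    rcases mul_eq_zero.mp h7 with h8 | h8
    · exact sub_eq_zero.mp h8
    · exact absurd h8 hG0
  have hs := S.caseB_star hG h2
  have hl := S.caseB_lin hf hG h2 hq'
  have hBK : q - A ∈ S.K := S.K.sub_mem hq hA
  have h4K : (4 : F) ∈ S.K := by
    have := natCast_mem S.K 4
    exact_mod_cast this
  have h2K : (2 : F) ∈ S.K := by
    have := natCast_mem S.K 2
    exact_mod_cast this
  by_cases hne : 4 * φ - S.D (q - A) + A * (q - A) - (q - A) ^ 2 = 0 ∧ S.D φ - 2 * A * φ = 0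
  · right
    have hGK := S.caseB_dg hBK hφ hq hq0 hG0 hf' h2 h3 (sub_eq_zero.mp hne.2)
      (by linear_combination -hne.1) hs
    have h9 := S.K.add_mem hGK S.K.one_mem
    rwa [sub_add_cancel] at h9
  · left
    refine S.caseB_nd (A := A) ?_ ?_ hBK hφ hq hq0 hf hf' hl hne hs
    · exact S.K.sub_mem (S.K.add_mem (S.K.sub_mem (S.K.mul_mem h4K hφ) (S.D_mem _ hBK))
        (S.K.mul_mem hA hBK)) (S.K.pow_mem hBK 2)
    · exact S.K.sub_mem (S.D_mem _ hφ) (S.K.mul_mem (S.K.mul_mem h2K hA) hφ)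

end DF

end Pool.Agent.MP4b24a5.M1
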