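import Pool.Agent.Lib.MP_4b24a5_an_M1.CrA
import Pool.Agent.Lib.MP_4b24a5_an_M1.Prim

set_option autoImplicit false

/-! MP_4b24a5_an, project M1, module CrC. -/

namespace Pool.Agent.MP4b24a5.M1

variable {F : Type*} [Field F]

namespace DF

variable [CharZero F] {S : DF F} {p h a E q : F} {N : ℕ}

/-- If `t1 = t2 = t3 = 0`, there are constants `c1`, `c2` with `α = c1 W`,
`β u = (c2 - 2 c1 h) W`, `p u ^ 2 = (c1 h ^ 2 - c2 h - 1) W`: `D (α / W) = 0`;
`D (β u / W + 2 c1 h) = 0`; `D (p u ^ 2 / W - c1 h ^ 2 + c2 h) = 0`, the last constant is `-1`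
by `rel`. -/
theorem Core.triv_const (c : S.Core p h a E q N) (h1 : S.t1 p a E q N = 0)
    (h2 : S.t2 p a E q N = 0) (h3 : S.t3 p a E q N = 0) :
    ∃ c1 c2 : F, S.D c1 = 0 ∧ S.D c2 = 0 ∧ S.al p a E q N = c1 * S.WW h E q N ∧
      S.be p a E q N * S.D h = (c2 - 2 * c1 * h) * S.WW h E q N ∧
      p * (S.D h) ^ 2 = (c1 * h ^ 2 - c2 * h - 1) * S.WW h E q N := by
  have hW0 : S.WW h E q N ≠ 0 :=
    mul_ne_zero (div_ne_zero c.hq0 c.hE0) (inv_ne_zero (pow_ne_zero N c.hu0))
  have hDW := c.D_WW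
  have hrel := c.rel
  have hu := c.hu
  set W := S.WW h E q N with hW
  set α := S.al p a E q N with hα
  set β := S.be p a E q N with hβ
  set σ := S.sg a E q N with hσ
  set u := S.D h with hu'
  unfold t1 at h1
  unfold t2 at h2
  unfold t3 at h3
  rw [← hα, ← hσ] at h1
  rw [← hα, ← hβ, ← hσ] at h2
  rw [← hβ, ← hσ] at h3
  have hc1 : S.D (α / W) = 0 := by
    rw [S.D_div _ hW0, hDW]
    have : S.D α * W - α * (σ * W) = 0 := by linear_combination W * h1
    rw [this, zero_div]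
  have e1 : α = α / W * W := by field_simp
  have hc2 : S.D (β * u / W + 2 * (α / W) * h) = 0 := by
    rw [S.add, S.D_div _ hW0, hDW, S.mul (2 * (α / W)), S.mul 2, hc1, S.D_two, S.mul β u, hu,
      ← hu']
    field_simp
    linear_combination u * h2
  refine ⟨α / W, β * u / W + 2 * (α / W) * h, hc1, hc2, e1, ?_, ?_⟩
  · field_simp
    ring
  · have hc3 : S.D (p * u ^ 2 / W - (α / W) * h ^ 2 + (β * u / W + 2 * (α / W) * h) * h) = 0 := by
      rw [S.add, S.D_sub, S.D_div _ hW0, hDW, S.mul (α / W), hc1,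
        S.mul (β * u / W + 2 * (α / W) * h) h, hc2, pow_two u, pow_two h, S.mul p, S.mul u u,
        S.mul h h, hu, ← hu']
      field_simp
      linear_combination u ^ 2 * h3
    have e3 : p * u ^ 2 / W - (α / W) * h ^ 2 + (β * u / W + 2 * (α / W) * h) * h = -1 := by
      have : p * u ^ 2 / W - (α / W) * h ^ 2 + (β * u / W + 2 * (α / W) * h) * h =
          (α * h ^ 2 + β * (h * u) + p * u ^ 2) / W := by
        field_simp
        ring
      rw [this, hrel, neg_div, div_self hW0]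
    have e4 : p * u ^ 2 / W = α / W * h ^ 2 - (β * u / W + 2 * (α / W) * h) * h - 1 := by
      linear_combination e3
    rw [← e4]
    field_simp

end DF

end Pool.Agent.MP4b24a5.M1
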