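import Pool.Agent.Lib.MP_4b24a5_an_M1.CrB
import Pool.Agent.Lib.MP_4b24a5_an_M1.CrC

set_option autoImplicit false

/-! MP_4b24a5_an, project M1, module CrD. -/

namespace Pool.Agent.MP4b24a5.M1

variable {F : Type*} [Field F]

namespace DF

variable [CharZero F] {S : DF F} {p h a E q : F} {N : ℕ}

/-- Use `triv_const` and `W = s u ^ (-N)`, `s = q / E`. If `c1 ≠ 0`: `α ≠ 0`,
`u ^ N = c1 s / α` is small, so `u` is small, `W` is small, `h = (c2 - β u / W) / (2 c1)` is
small. If `c1 = 0`, `c2 ≠ 0`: `β u ^ (N + 1) = c2 s`, so `u ^ (N + 1)` and `u`, `W` are small and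
`h = (-1 - p u ^ 2 / W) / c2` is small. If `c1 = c2 = 0`: `p u ^ (N + 2) = -s`, so `u` is small; and
`β = 0` means `λ₀ = -3 p' / p - a`, that is `q` is the logarithmic derivative of
`E u ^ (N + 1) p ^ 3`; it is also that of `Ψ - 1` (not zero, because `q ≠ 0`... if `Ψ = 1`
then `Ψ` is small), so `Ψ - 1` is a constant times `E u ^ (N + 1) p ^ 3` (`const_of_ld`), small. -/
theorem Core.triv (c : S.Core p h a E q N) (h1 : S.t1 p a E q N = 0)
    (h2 : S.t2 p a E q N = 0) (h3 : S.t3 p a E q N = 0) : h ∈ S.K ∨ S.PsC p h E N ∈ S.K := by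
  obtain ⟨c1, c2, hc1, hc2, e1, e2, e3⟩ := c.triv_const h1 h2 h3
  obtain ⟨hl0, hal, hbe, hsg, _, _, _⟩ := c.mem
  have hu0 := c.hu0
  have huN : (S.D h) ^ N ≠ 0 := pow_ne_zero N hu0
  have hs0 : q / E ≠ 0 := div_ne_zero c.hq0 c.hE0
  have hsK : q / E ∈ S.K := S.K.div_mem c.hq c.hE
  have hW0 : S.WW h E q N ≠ 0 := mul_ne_zero hs0 (inv_ne_zero huN)
  have hWu : S.WW h E q N * (S.D h) ^ N = q / E := by
    unfold WW
    rw [mul_assoc, inv_mul_cancel₀ huN, mul_one]
  have hWK : S.D h ∈ S.K → S.WW h E q N ∈ S.K := fun hu =>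
    S.K.mul_mem hsK (S.K.inv_mem (S.K.pow_mem hu N))
  have hK1 := S.const c1 hc1
  have hK2 := S.const c2 hc2
  have h2K : (2 : F) ∈ S.K := by
    have := natCast_mem S.K 2
    exact_mod_cast this
  have h20 : (2 : F) ≠ 0 := by norm_num
  by_cases h10 : c1 = 0
  · by_cases h20' : c2 = 0
    · right
      rw [h10, h20'] at e2 e3
      have hbe0 : S.be p a E q N = 0 := by
        have h5 : S.be p a E q N * S.D h = 0 := by
          rw [e2]
          ring
        rcases mul_eq_zero.mp h5 with h6 | h6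
        · exact h6
        · exact absurd h6 hu0
      have huK : S.D h ∈ S.K := by
        refine S.root _ (N + 2) (by omega) ?_
        have h6 : (S.D h) ^ (N + 2) = -(q / E) / p := by
          rw [eq_div_iff c.hp0]
          linear_combination ((S.D h) ^ N) * e3 - hWu
        rw [h6]
        exact S.K.div_mem (S.K.neg_mem hsK) c.hp
      have hXK : E * (S.D h) ^ (N + 1) * p ^ 3 ∈ S.K :=
        S.K.mul_mem (S.K.mul_mem c.hE (S.K.pow_mem huK (N + 1))) (S.K.pow_mem c.hp 3)
      by_cases hΨ : S.PsC p h E N - 1 = 0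
      · rw [sub_eq_zero.mp hΨ]
        exact S.K.one_mem
      have hX0 : E * (S.D h) ^ (N + 1) * p ^ 3 ≠ 0 :=
        mul_ne_zero (mul_ne_zero c.hE0 (pow_ne_zero _ hu0)) (pow_ne_zero 3 c.hp0)
      have hldX : S.D (E * (S.D h) ^ (N + 1) * p ^ 3) / (E * (S.D h) ^ (N + 1) * p ^ 3) = q := by
        rw [S.D_mul_div (mul_ne_zero c.hE0 (pow_ne_zero _ hu0)) (pow_ne_zero 3 c.hp0),
          S.D_mul_div c.hE0 (pow_ne_zero _ hu0), S.D_pow_div hu0, S.D_pow_div c.hp0, c.hu,
          mul_div_cancel_right₀ a hu0]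
        have h7 : S.l0 a E q N * p + 3 * S.D p + p * a = 0 := hbe0
        unfold l0 at h7
        have hp0 := c.hp0
        have h8 : (S.D E / E + (N : F) * a - q) + 3 * (S.D p / p) + a = 0 := by
          have h9 : ((S.D E / E + (N : F) * a - q) + 3 * (S.D p / p) + a) * p = 0 := by
            rw [add_mul, add_mul, mul_assoc, div_mul_cancel₀ _ hp0]
            linear_combination h7
          rcases mul_eq_zero.mp h9 with h10 | h10
          · exact h10
          · exact absurd h10 hp0
        push_cast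
        linear_combination h8
      have hldΨ : S.D (S.PsC p h E N - 1) / (S.PsC p h E N - 1) = q := by
        rw [S.D_sub, S.D_one, sub_zero, c.hΨ, mul_div_cancel_right₀ q hΨ]
      obtain ⟨d, _, hd, hdX⟩ := S.const_of_ld hΨ hX0 (hldΨ.trans hldX.symm)
      have h11 : S.PsC p h E N = d * (E * (S.D h) ^ (N + 1) * p ^ 3) + 1 := by
        rw [← hdX, sub_add_cancel]
      rw [h11]
      exact S.K.add_mem (S.K.mul_mem (S.const d hd) hXK) S.K.one_mem
    · left
      rw [h10] at e2 e3
      have hbe0 : S.be p a E q N ≠ 0 := by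
        intro h0
        rw [h0, zero_mul] at e2
        have h5 : c2 * S.WW h E q N = 0 := by
          linear_combination -e2
        rcases mul_eq_zero.mp h5 with h6 | h6
        · exact h20' h6
        · exact hW0 h6
      have huK : S.D h ∈ S.K := by
        refine S.root _ (N + 1) (Nat.succ_ne_zero N) ?_
        have h6 : (S.D h) ^ (N + 1) = c2 * (q / E) / S.be p a E q N := by
          rw [eq_div_iff hbe0]
          linear_combination ((S.D h) ^ N) * e2 + c2 * hWu
        rw [h6]
        exact S.K.div_mem (S.K.mul_mem hK2 hsK) hbe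
      have hW := hWK huK
      have h7 : h = (-1 - p * (S.D h) ^ 2 / S.WW h E q N) / c2 := by
        rw [eq_div_iff h20', e3]
        field_simp
        ring
      rw [h7]
      exact S.K.div_mem (S.K.sub_mem (S.K.neg_mem S.K.one_mem)
        (S.K.div_mem (S.K.mul_mem c.hp (S.K.pow_mem huK 2)) hW)) hK2
  · left
    have hW : S.WW h E q N ∈ S.K := by
      have h5 : S.WW h E q N = S.al p a E q N / c1 := by
        rw [e1]
        field_simp
      rw [h5]
      exact S.K.div_mem hal hK1
    have huK : S.D h ∈ S.K := by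
      refine S.root _ N c.hN ?_
      have h6 : (S.D h) ^ N = q / E / S.WW h E q N := by
        rw [eq_div_iff hW0, ← hWu]
        ring
      rw [h6]
      exact S.K.div_mem hsK hW
    have h7 : h = (c2 - S.be p a E q N * S.D h / S.WW h E q N) / (2 * c1) := by
      rw [eq_div_iff (mul_ne_zero h20 h10), e2]
      field_simp
      ring
    rw [h7]
    exact S.K.div_mem (S.K.sub_mem hK2 (S.K.div_mem (S.K.mul_mem hbe huK) hW))
      (S.K.mul_mem h2K hK1)

/-- The conclusion: `nontriv` and `triv`. -/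
theorem Core.main (c : S.Core p h a E q N) : h ∈ S.K ∨ S.PsC p h E N ∈ S.K := by
  by_cases hh : S.t1 p a E q N = 0 ∧ S.t2 p a E q N = 0 ∧ S.t3 p a E q N = 0
  · exact c.triv hh.1 hh.2.1 hh.2.2
  · exact Or.inl (c.nontriv hh)

end DF

end Pool.Agent.MP4b24a5.M1
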