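import Pool.Agent.Lib.MP_4b24a5_an_M1.Dich
import Pool.Agent.Lib.MP_4b24a5_an_M1.CrD

set_option autoImplicit false

/-! MP_4b24a5_an, project M1, module CaseC. -/

namespace Pool.Agent.MP4b24a5.M1

variable {F : Type*} [Field F]

namespace DF

variable [CharZero F] (S : DF F)

/-- If `f' = μ f` with `μ` small: `g = a f` with `a` small (`lin1`), `Ψ = μ Z a ^ N f ^ (N + 2)`, so
`D Ψ` is a small multiple of `Ψ`; `ratio`. -/
theorem caseC_mu {f g Z μ : F} {i N : ℕ} (hμ : μ ∈ S.K) (hf' : S.D f = μ * f)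
    (hg : g = S.D^[i] f) (hZ : Z ∈ S.K)
    (hq : S.D (f * S.D f * (Z * g ^ N)) / (f * S.D f * (Z * g ^ N) - 1) ∈ S.K) :
    f * S.D f * (Z * g ^ N) ∈ S.K := by
  obtain ⟨a, ha, hga⟩ := S.lin1 hμ hf' i
  obtain ⟨c0, hc0d⟩ : ∃ c0, c0 = μ * Z * a ^ N := ⟨_, rfl⟩
  have hc0K : c0 ∈ S.K := by
    rw [hc0d]
    exact S.K.mul_mem (S.K.mul_mem hμ hZ) (S.K.pow_mem ha N)
  have hΨ : f * S.D f * (Z * g ^ N) = c0 * f ^ (N + 2) := by
    rw [hf', hg, hga, hc0d]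
    ring
  rw [hΨ] at hq ⊢
  by_cases hc0 : c0 = 0
  · rw [hc0, zero_mul]
    exact S.K.zero_mem
  have h2K : ((N + 2 : ℕ) : F) ∈ S.K := natCast_mem S.K _
  refine S.ratio (μ := S.D c0 / c0 + ((N + 2 : ℕ) : F) * μ)
    (S.K.add_mem (S.K.div_mem (S.D_mem c0 hc0K) hc0K) (S.K.mul_mem h2K hμ)) ?_ hq
  rw [S.mul, S.D_pow, hf']
  have h3 : N + 2 - 1 = N + 1 := rfl
  rw [h3, pow_succ f (N + 1)]
  field_simp

/-- Let `Ψ = f f' R`, `R = Z g ^ N`, `q = Ψ' / (Ψ - 1)`. If `Ψ' = 0` then `Ψ` is small; so `q ≠ 0`,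
`Ψ ≠ 1` and `f ≠ 0`, `f' ≠ 0`. By definition of `φ`, `f'' = A f' + φ f`. Apply `dich`: if
`f' = μ f` use `caseC_mu`. Otherwise let `h = f / p`, `a = A - 2 l` (`red`); if `D h = 0` then
`h` and `f = p h` are small. Otherwise `f = p h`, `f' = p' h + p h'`, `g = P p h'`, and
`Ψ = PsC p h E N` with `E = Z P ^ N p ^ (N + 1)`; `Core.main`. -/
theorem caseC {f g z Z A φ : F} {i N : ℕ} (hN : N ≠ 0) (hg : g = S.D^[i] f) (hg0 : g ≠ 0)
    (hz : z ∈ S.K) (hgz : S.D g = z * g) (hZ : Z ∈ S.K) (hZ0 : Z ≠ 0) (hA : A ∈ S.K)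
    (hφ : φ ∈ S.K) (hφf : φ = (S.D (S.D f) - A * S.D f) / f)
    (hq : S.D (f * S.D f * (Z * g ^ N)) / (f * S.D f * (Z * g ^ N) - 1) ∈ S.K) :
    f ∈ S.K ∨ f * S.D f * (Z * g ^ N) ∈ S.K := by
  by_cases hΨ' : S.D (f * S.D f * (Z * g ^ N)) = 0
  · exact Or.inr (S.const _ hΨ')
  have hG0 : f * S.D f * (Z * g ^ N) - 1 ≠ 0 := by
    intro h0
    rw [sub_eq_zero.mp h0, S.D_one] at hΨ'
    exact hΨ' rfl
  have hf : f ≠ 0 := by
    intro h0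
    rw [h0, zero_mul, zero_mul, S.D_zero] at hΨ'
    exact hΨ' rfl
  have hq0 : S.D (f * S.D f * (Z * g ^ N)) / (f * S.D f * (Z * g ^ N) - 1) ≠ 0 :=
    div_ne_zero hΨ' hG0
  have h2 : S.D (S.D f) = A * S.D f + φ * f := by
    rw [hφf, div_mul_cancel₀ _ hf]
    ring
  rcases S.dich hA hφ hf h2 hg hg0 hz hgz with ⟨μ, hμ, hf'⟩ |
    ⟨P, hP, p, hp, l, hl, hP0, hp0, hDp, hDl, hgP⟩
  · exact Or.inr (S.caseC_mu hμ hf' hg hZ hq)
  obtain ⟨r1, r2⟩ := S.red hp0 hDp hDl h2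
  have hfh : f = p * (f / p) := by field_simp
  have h2K : (2 : F) ∈ S.K := by
    have := natCast_mem S.K 2
    exact_mod_cast this
  generalize f / p = h at r1 r2 hfh
  by_cases hDh : S.D h = 0
  · left
    rw [hfh]
    exact S.K.mul_mem hp (S.const h hDh)
  have hPs : f * S.D f * (Z * g ^ N) = S.PsC p h (Z * P ^ N * p ^ (N + 1)) N := by
    unfold PsC
    have hDf : S.D f = S.D p * h + p * S.D h := by rw [hfh, S.mul]
    rw [hDf, hgP, r1, hfh]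
    ring
  have hcore : S.Core p h (A - 2 * l) (Z * P ^ N * p ^ (N + 1))
      (S.D (f * S.D f * (Z * g ^ N)) / (f * S.D f * (Z * g ^ N) - 1)) N := by
    refine ⟨hp, hp0, S.K.sub_mem hA (S.K.mul_mem h2K hl), ?_, ?_, hq, hq0, hN, hDh, r2, ?_⟩
    · exact S.K.mul_mem (S.K.mul_mem hZ (S.K.pow_mem hP N)) (S.K.pow_mem hp (N + 1))
    · exact mul_ne_zero (mul_ne_zero hZ0 (pow_ne_zero N hP0)) (pow_ne_zero _ hp0)
    · rw [← hPs, div_mul_cancel₀ _ hG0]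
  rcases hcore.main with h5 | h5
  · left
    rw [hfh]
    exact S.K.mul_mem hp h5
  · right
    rw [hPs]
    exact h5

end DF

end Pool.Agent.MP4b24a5.M1
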