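import Pool.Agent.Lib.MP_4b24a5_an_M1.Itr

set_option autoImplicit false

/-! MP_4b24a5_an, project M1, module Pd. -/

namespace Pool.Agent.MP4b24a5.M1

variable {F : Type*} [Field F]

namespace DF

variable (S : DF F)

/-- The product of the factors with index `≥ i`: each `D ^ j f`, `j ≥ i`, is a small multiple of
`g = D ^ i f` (`lin1` for `g`). -/
theorem prod_form {k : ℕ} (m : Fin (k + 1) → ℕ) (f : F) (i : ℕ) {z : F} (hz : z ∈ S.K)
    (hgz : S.D (S.D^[i] f) = z * S.D^[i] f) : ∃ Z ∈ S.K,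
      (∏ j : Fin (k + 1), if (j : ℕ) < i then 1 else (S.D^[(j : ℕ)] f) ^ m j) =
        Z * (S.D^[i] f) ^ (∑ j : Fin (k + 1), if (j : ℕ) < i then 0 else m j) := by
  choose a ha hag using fun j => S.lin1 hz hgz j
  refine ⟨∏ j : Fin (k + 1), if (j : ℕ) < i then 1 else a ((j : ℕ) - i) ^ m j, ?_, ?_⟩
  · refine prod_mem fun j _ => ?_
    split_ifs
    · exact S.K.one_mem
    · exact pow_mem (ha _) _
  · rw [← Finset.prod_pow_eq_pow_sum, ← Finset.prod_mul_distrib]
    refine Finset.prod_congr rfl fun j _ => ?_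
    split_ifs with h
    · rw [pow_zero, mul_one]
    · have h1 : S.D^[(j : ℕ)] f = a ((j : ℕ) - i) * S.D^[i] f := by
        rw [← hag, ← Function.iterate_add_apply, Nat.sub_add_cancel (not_lt.1 h)]
      rw [h1, mul_pow]

private theorem Pd_prod {ι : Type*} (s : Finset ι) (G : ι → F)
    (hG : ∀ j ∈ s, G j ≠ 0 → S.D (G j) / G j ∈ S.K) (h0 : ∏ j ∈ s, G j ≠ 0) :
    S.D (∏ j ∈ s, G j) / ∏ j ∈ s, G j ∈ S.K := by
  classical
  induction s using Finset.induction_on with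
  | empty =>
    rw [Finset.prod_empty, S.D_one, zero_div]
    exact S.K.zero_mem
  | insert a s ha ih =>
    rw [Finset.prod_insert ha] at h0 ⊢
    have h1 := left_ne_zero_of_mul h0
    have h2 := right_ne_zero_of_mul h0
    rw [S.D_mul_div h1 h2]
    exact S.K.add_mem (hG a (Finset.mem_insert_self a s) h1)
      (ih (fun j hj => hG j (Finset.mem_insert_of_mem hj)) h2)

/-- `A` is small: `Ψ'' / Ψ' = q' / q + q` if `Ψ' ≠ 0` (`Ψ' = q (Ψ - 1)`), and `0` otherwise;
`R' / R` is the sum of `m j (D ^ (j + 1) f / D ^ j f)` over `j ≥ 2` if no factor vanishes, and `0`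
otherwise (factors with `m j = 0` are `1`). -/
theorem Asf_mem {k : ℕ} (m : Fin (k + 1) → ℕ)
    (h2 : ∀ j : Fin (k + 1), 2 ≤ (j : ℕ) → m j ≠ 1) (f : F)
    (hq : S.D (S.Psf m f) / (S.Psf m f - 1) ∈ S.K)
    (hz : ∀ j : Fin (k + 1), 1 ≤ (j : ℕ) → 2 ≤ m j →
      S.D (S.D^[(j : ℕ)] f) / S.D^[(j : ℕ)] f ∈ S.K) : S.Asf m f ∈ S.K := by
  have hA : S.D (S.D (S.Psf m f)) / S.D (S.Psf m f) ∈ S.K := by
    by_cases hd : S.D (S.Psf m f) = 0
    · rw [hd, div_zero]
      exact S.K.zero_mem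
    have h1 : S.Psf m f - 1 ≠ 0 := by
      intro h
      apply hd
      rw [sub_eq_zero.1 h, S.D_one]
    set q := S.D (S.Psf m f) / (S.Psf m f - 1) with hqd
    have h3 : S.D (S.Psf m f) = q * (S.Psf m f - 1) := by
      rw [hqd, div_mul_cancel₀ _ h1]
    have h4 : q ≠ 0 := div_ne_zero hd h1
    have h5 : S.D (S.D (S.Psf m f)) = S.D q * (S.Psf m f - 1) + q * S.D (S.Psf m f) := by
      conv_lhs => rw [h3]
      rw [S.mul, S.D_sub, S.D_one, sub_zero]
    have h6 : S.D (S.D (S.Psf m f)) / S.D (S.Psf m f) = S.D q / q + q := by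
      rw [h5, add_div, mul_div_assoc q, div_self hd, mul_one]
      congr 1
      rw [h3]
      field_simp
    rw [h6]
    exact S.K.add_mem (S.K.div_mem (S.D_mem q hq) hq) hq
  have hR : S.D (S.Rsf m f) / S.Rsf m f ∈ S.K := by
    by_cases h0 : S.Rsf m f = 0
    · rw [h0, div_zero]
      exact S.K.zero_mem
    refine S.Pd_prod Finset.univ _ (fun j _ hj => ?_) h0
    beta_reduce at hj ⊢
    by_cases hj2 : (j : ℕ) < 2
    · rw [if_pos hj2, S.D_one, zero_div]
      exact S.K.zero_mem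
    rw [if_neg hj2] at hj ⊢
    rcases Nat.eq_zero_or_pos (m j) with hm | hm
    · rw [hm, pow_zero, S.D_one, zero_div]
      exact S.K.zero_mem
    have h3 : S.D^[(j : ℕ)] f ≠ 0 := fun h => hj (by rw [h, zero_pow hm.ne'])
    rw [S.D_pow_div h3]
    have h4 := h2 j (by omega)
    exact S.K.mul_mem (natCast_mem _ _) (hz j (by omega) (by omega))
  unfold Asf
  have e2 : (2 : F) ∈ S.K := ofNat_mem S.K 2
  have e3 : (3 : F) ∈ S.K := ofNat_mem S.K 3
  exact S.K.div_mem (S.K.sub_mem hA (S.K.mul_mem e2 hR)) e3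

end DF

end Pool.Agent.MP4b24a5.M1
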