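import Pool.Agent.Lib.MP_4b24a5_an_M1.CaseA
import Pool.Agent.Lib.MP_4b24a5_an_M1.CaseB2
import Pool.Agent.Lib.MP_4b24a5_an_M1.CaseC
import Pool.Agent.Lib.MP_4b24a5_an_M1.Pd

set_option autoImplicit false

/-! MP_4b24a5_an, project M1, module AlgM. -/

namespace Pool.Agent.MP4b24a5.M1

variable {F : Type*} [Field F]

private theorem algM_first {k l : ℕ} (m : Fin (k + 1) → ℕ)
    (h : ∃ j : Fin (k + 1), l ≤ (j : ℕ) ∧ m j ≠ 0)
    (h1 : ∀ j : Fin (k + 1), l ≤ (j : ℕ) → m j ≠ 1) :
    ∃ i : Fin (k + 1), l ≤ (i : ℕ) ∧ 2 ≤ m i ∧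
      ∀ j : Fin (k + 1), l ≤ (j : ℕ) → (j : ℕ) < i → m j = 0 := by
  classical
  obtain ⟨j₀, hj₀⟩ := h
  set s : Finset (Fin (k + 1)) :=
    Finset.univ.filter (fun j : Fin (k + 1) => l ≤ (j : ℕ) ∧ m j ≠ 0) with hs
  have hne : s.Nonempty := ⟨j₀, Finset.mem_filter.2 ⟨Finset.mem_univ _, hj₀⟩⟩
  have hmin := Finset.min'_mem s hne
  have hle := Finset.min'_le s
  set i := s.min' hne with hi
  have h2 := (Finset.mem_filter.1 hmin).2
  refine ⟨i, h2.1, ?_, fun j hj hji => ?_⟩
  · have h3 := h1 i h2.1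
    have h4 := h2.2
    omega
  · by_contra hcon
    have h5 : j ∈ s := Finset.mem_filter.2 ⟨Finset.mem_univ _, hj, hcon⟩
    have h6 := hle j h5
    rw [Fin.le_def] at h6
    omega

private theorem algM_single {k : ℕ} (G : Fin (k + 1) → F) (a : Fin (k + 1)) :
    ∏ j, (if j = a then G j else 1) = G a := by
  rw [Finset.prod_ite_eq' Finset.univ a G, if_pos (Finset.mem_univ a)]

private theorem algM_N {k : ℕ} (m : Fin (k + 1) → ℕ) (i : Fin (k + 1)) (hi : 2 ≤ m i) :
    (∑ j : Fin (k + 1), if (j : ℕ) < (i : ℕ) then 0 else m j) ≠ 0 := by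
  have h := Finset.single_le_sum
    (f := fun j : Fin (k + 1) => if (j : ℕ) < (i : ℕ) then 0 else m j)
    (fun j _ => Nat.zero_le _) (Finset.mem_univ i)
  rw [if_neg (lt_irrefl _)] at h
  omega

namespace DF

variable [CharZero F] (S : DF F)

/-- The algebraic theorem. If `Ψ = 0` it is small, so assume that no factor vanishes. Cases:
(a) no `m j`, `j ≥ 1`, is `1`: let `i ≥ 1` be the first index with `m i ≥ 2`; `Ψ = f Z g ^ N`
(`prod_form`; the factors `1 ≤ j < i` are `1`), `caseA`. (b) `m 1 = 1`, all other `m j = 0` (`j ≥ 2`):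
`Ψ = f f'`, `R = 1`, `caseB`. (c) `m 1 = 1` and some `m j ≥ 2`, `j ≥ 2`: first such index `i`,
`Ψ = f f' (Z g ^ N)`, `caseC`. -/
theorem alg_main {k : ℕ} (m : Fin (k + 1) → ℕ) (h0 : m 0 = 1) (hd : 2 ≤ ∑ j, m j)
    (h2 : ∀ j : Fin (k + 1), 2 ≤ (j : ℕ) → m j ≠ 1) (f : F)
    (hq : S.D (S.Psf m f) / (S.Psf m f - 1) ∈ S.K)
    (hz : ∀ j : Fin (k + 1), 1 ≤ (j : ℕ) → 2 ≤ m j →
      S.D (S.D^[(j : ℕ)] f) / S.D^[(j : ℕ)] f ∈ S.K)
    (hφ : 1 ≤ k → (∀ j : Fin (k + 1), (j : ℕ) = 1 → m j = 1) → S.phsf m f ∈ S.K) :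
    f ∈ S.K ∨ S.Psf m f ∈ S.K := by
  classical
  by_cases hΨ : S.Psf m f = 0
  · right
    rw [hΨ]
    exact S.K.zero_mem
  have hfac : ∀ j : Fin (k + 1), m j ≠ 0 → S.D^[(j : ℕ)] f ≠ 0 := by
    intro j hj h
    apply hΨ
    unfold Psf
    exact Finset.prod_eq_zero (Finset.mem_univ j) (by rw [h, zero_pow hj])
  have hA : S.Asf m f ∈ S.K := S.Asf_mem m h2 f hq hz
  by_cases hone : ∃ j : Fin (k + 1), (j : ℕ) = 1 ∧ m j = 1
  · -- the factor with index `1` is simple
    obtain ⟨j₁, hj₁, hmj₁⟩ := hone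
    have hk : 1 ≤ k := by
      have := j₁.isLt
      omega
    have hφ' : S.phsf m f ∈ S.K := hφ hk fun j hj => by
      have : j = j₁ := Fin.ext (by omega)
      rw [this, hmj₁]
    have hj₁0 : j₁ ≠ 0 := by
      intro h
      rw [h] at hj₁
      simp at hj₁
    have e0 : (S.D^[((0 : Fin (k + 1)) : ℕ)] f) ^ m 0 = f := by
      rw [h0, pow_one]
      rfl
    have e1 : (S.D^[(j₁ : ℕ)] f) ^ m j₁ = S.D f := by
      rw [hmj₁, pow_one, hj₁]
      rfl
    by_cases hex : ∃ j : Fin (k + 1), 2 ≤ (j : ℕ) ∧ m j ≠ 0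
    · -- case (c)
      obtain ⟨i, hi2, hmi, hlt⟩ := algM_first m hex h2
      set g : F := S.D^[(i : ℕ)] f with hg
      have hg0 : g ≠ 0 := hfac i (by omega)
      have hz' := hz i (by omega) hmi
      have hgz : S.D g = (S.D g / g) * g := (div_mul_cancel₀ _ hg0).symm
      obtain ⟨Z, hZ, hZe⟩ := S.prod_form m f i hz' hgz
      have hN := algM_N m i hmi
      set N : ℕ := ∑ j : Fin (k + 1), if (j : ℕ) < (i : ℕ) then 0 else m j with hNdef
      have hprod : S.Psf m f = f * S.D f * (Z * g ^ N) := by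
        rw [← hZe]
        unfold Psf
        have h3 : ∀ j : Fin (k + 1), (S.D^[(j : ℕ)] f) ^ m j =
            ((if j = 0 then (S.D^[(j : ℕ)] f) ^ m j else 1) *
              (if j = j₁ then (S.D^[(j : ℕ)] f) ^ m j else 1)) *
              (if (j : ℕ) < (i : ℕ) then 1 else (S.D^[(j : ℕ)] f) ^ m j) := by
          intro j
          by_cases hj0 : j = 0
          · have hn1 : j ≠ j₁ := by
              rw [hj0]
              exact fun h => hj₁0 h.symm
            have hlt0 : (j : ℕ) < (i : ℕ) := by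
              rw [hj0]
              simp only [Fin.val_zero]
              omega
            rw [if_pos hj0, if_neg hn1, if_pos hlt0, mul_one, mul_one]
          · by_cases hj1 : j = j₁
            · have hlt1 : (j : ℕ) < (i : ℕ) := by
                rw [hj1, hj₁]
                omega
              rw [if_neg hj0, if_pos hj1, if_pos hlt1, one_mul, mul_one]
            · rw [if_neg hj0, if_neg hj1, one_mul, one_mul]
              by_cases hji : (j : ℕ) < (i : ℕ)
              · have hj2 : 2 ≤ (j : ℕ) := by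
                  have h4 : (j : ℕ) ≠ 0 := fun h => hj0 (Fin.ext h)
                  have h5 : (j : ℕ) ≠ 1 := fun h => hj1 (Fin.ext (by omega))
                  omega
                rw [if_pos hji, hlt j hj2 hji, pow_zero]
              · rw [if_neg hji]
        rw [Finset.prod_congr rfl (fun j _ => h3 j), Finset.prod_mul_distrib,
          Finset.prod_mul_distrib, algM_single (fun j => (S.D^[(j : ℕ)] f) ^ m j) 0,
          algM_single (fun j => (S.D^[(j : ℕ)] f) ^ m j) j₁, e0, e1]
      have hZ0 : Z ≠ 0 := by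
        intro h
        apply hΨ
        rw [hprod, h, zero_mul, mul_zero]
      rw [hprod] at hq ⊢
      exact S.caseC hN hg hg0 hz' hgz hZ hZ0 hA hφ' rfl hq
    · -- case (b)
      push Not at hex
      have hprod : S.Psf m f = f * S.D f := by
        unfold Psf
        have h3 : ∀ j : Fin (k + 1), (S.D^[(j : ℕ)] f) ^ m j =
            (if j = 0 then (S.D^[(j : ℕ)] f) ^ m j else 1) *
              (if j = j₁ then (S.D^[(j : ℕ)] f) ^ m j else 1) := by
          intro j
          by_cases hj0 : j = 0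
          · have hn1 : j ≠ j₁ := by
              rw [hj0]
              exact fun h => hj₁0 h.symm
            rw [if_pos hj0, if_neg hn1, mul_one]
          · by_cases hj1 : j = j₁
            · rw [if_neg hj0, if_pos hj1, one_mul]
            · have hj2 : 2 ≤ (j : ℕ) := by
                have h4 : (j : ℕ) ≠ 0 := fun h => hj0 (Fin.ext h)
                have h5 : (j : ℕ) ≠ 1 := fun h => hj1 (Fin.ext (by omega))
                omega
              rw [if_neg hj0, if_neg hj1, one_mul, hex j hj2, pow_zero]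
        rw [Finset.prod_congr rfl (fun j _ => h3 j), Finset.prod_mul_distrib,
          algM_single (fun j => (S.D^[(j : ℕ)] f) ^ m j) 0,
          algM_single (fun j => (S.D^[(j : ℕ)] f) ^ m j) j₁, e0, e1]
      have hR : S.Rsf m f = 1 := by
        unfold Rsf
        refine Finset.prod_eq_one fun j _ => ?_
        by_cases hj : (j : ℕ) < 2
        · rw [if_pos hj]
        · rw [if_neg hj, hex j (by omega), pow_zero]
      have hAe : S.Asf m f = S.D (S.D (f * S.D f)) / S.D (f * S.D f) / 3 := by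
        unfold Asf
        rw [hR, hprod, S.D_one, zero_div, mul_zero, sub_zero]
      rw [hprod] at hq ⊢
      exact S.caseB hA hφ' hAe rfl hq
  · -- case (a)
    push Not at hone
    have h1 : ∀ j : Fin (k + 1), 1 ≤ (j : ℕ) → m j ≠ 1 := by
      intro j hj
      rcases Nat.lt_or_ge (j : ℕ) 2 with h | h
      · exact hone j (by omega)
      · exact h2 j h
    have hex : ∃ j : Fin (k + 1), 1 ≤ (j : ℕ) ∧ m j ≠ 0 := by
      by_contra hcon
      push Not at hcon
      have h3 : ∑ j, m j = m 0 := by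
        refine Finset.sum_eq_single 0 (fun j _ hj => hcon j ?_) ?_
        · have h4 : (j : ℕ) ≠ 0 := fun h => hj (Fin.ext h)
          omega
        · intro h
          exact absurd (Finset.mem_univ _) h
      omega
    obtain ⟨i, hi1, hmi, hlt⟩ := algM_first m hex h1
    set g : F := S.D^[(i : ℕ)] f with hg
    have hg0 : g ≠ 0 := hfac i (by omega)
    have hz' := hz i hi1 hmi
    have hgz : S.D g = (S.D g / g) * g := (div_mul_cancel₀ _ hg0).symm
    obtain ⟨Z, hZ, hZe⟩ := S.prod_form m f i hz' hgz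
    have hN := algM_N m i hmi
    set N : ℕ := ∑ j : Fin (k + 1), if (j : ℕ) < (i : ℕ) then 0 else m j with hNdef
    have hprod : S.Psf m f = f * (Z * g ^ N) := by
      rw [← hZe]
      unfold Psf
      have e0 : (S.D^[((0 : Fin (k + 1)) : ℕ)] f) ^ m 0 = f := by
        rw [h0, pow_one]
        rfl
      have h3 : ∀ j : Fin (k + 1), (S.D^[(j : ℕ)] f) ^ m j =
          (if j = 0 then (S.D^[(j : ℕ)] f) ^ m j else 1) *
            (if (j : ℕ) < (i : ℕ) then 1 else (S.D^[(j : ℕ)] f) ^ m j) := by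
        intro j
        by_cases hj0 : j = 0
        · have hlt0 : (j : ℕ) < (i : ℕ) := by
            rw [hj0]
            simp only [Fin.val_zero]
            omega
          rw [if_pos hj0, if_pos hlt0, mul_one]
        · rw [if_neg hj0, one_mul]
          by_cases hji : (j : ℕ) < (i : ℕ)
          · have hj1 : 1 ≤ (j : ℕ) := by
              have h4 : (j : ℕ) ≠ 0 := fun h => hj0 (Fin.ext h)
              omega
            rw [if_pos hji, hlt j hj1 hji, pow_zero]
          · rw [if_neg hji]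
      rw [Finset.prod_congr rfl (fun j _ => h3 j), Finset.prod_mul_distrib,
        algM_single (fun j => (S.D^[(j : ℕ)] f) ^ m j) 0, e0]
    have hZ0 : Z ≠ 0 := by
      intro h
      apply hΨ
      rw [hprod, h, zero_mul, mul_zero]
    rw [hprod] at hq ⊢
    exact S.caseA hN hg hg0 hz' hgz hZ hZ0 hq

end DF

end Pool.Agent.MP4b24a5.M1
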