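import Pool.Agent.Lib.MP_4b24a5_an_M1.Defs

set_option autoImplicit false

/-! MP_4b24a5_an, project M1, module BdA. -/

noncomputable section

namespace Pool.Agent.MP4b24a5.M1

open Complex Metric Real MeasureTheory Filter Topology

private theorem BdA_ev (b : ℝ) : ∀ᶠ r in 𝓝[<] (1 : ℝ), 0 < r ∧ r < 1 ∧ 0 < L r ∧ b ≤ L r := by
  filter_upwards [Ioo_mem_nhdsLT (by norm_num : (0 : ℝ) < 1),
    L_tendsto.eventually_ge_atTop (max b 1)] with r hr hr2
  have h1 : max b 1 ≤ L r := hr2
  exact ⟨hr.1, hr.2, by linarith [le_max_right b 1], (le_max_left _ _).trans h1⟩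

private theorem BdA_prox (f : ℂ → ℂ) (r : ℝ) : 0 ≤ prox f r := by
  unfold prox
  exact circleAverage_nonneg_of_nonneg (fun z _ => Real.posLog_nonneg)

private theorem BdA_S0 {D : ℂ → ℝ} (h : ∀ u : ℂ, ‖u‖ < 1 → D u = 0) {r : ℝ} (h0 : 0 < r)
    (h1 : r < 1) : S D r = 0 := by
  unfold S
  have : ∀ u : ℂ, D u * log⁺ (r / ‖u‖) = 0 := by
    intro u
    by_cases hu : ‖u‖ < 1
    · rw [h u hu, zero_mul]
    · rw [SC.lg_zero_of_le h0 (by linarith [not_lt.1 hu]), mul_zero]
  simp [this]

/-- `0 ≤ c`: `prox ≥ 0` and `L r > 0` near `1`. -/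
theorem Bd.nonneg {c : ℝ} {h : ℂ → ℂ} (hb : Bd c h) : 0 ≤ c := by
  obtain ⟨r, h1, h2⟩ := (hb.and (BdA_ev 0)).exists
  by_contra hc
  have h3 := BdA_prox h r
  have h4 : c * L r < 0 := mul_neg_of_neg_of_pos (not_le.1 hc) h2.2.2.1
  linarith [h1.1]

theorem Bd.mono {c c' : ℝ} {h : ℂ → ℂ} (hb : Bd c h) (hc : c ≤ c') : Bd c' h := by
  filter_upwards [hb, BdA_ev 0] with r h1 h2
  have h3 : c * L r ≤ c' * L r := mul_le_mul_of_nonneg_right hc h2.2.2.1.le
  exact ⟨h1.1.trans h3, h1.2.trans h3⟩

/-- Constants: `prox` is constant, `Pm = 0`, and `L r → ∞` (`L_tendsto`). -/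
theorem Bd.constF (a : ℂ) {c : ℝ} (hc : 0 < c) : Bd c (fun _ => a) := by
  filter_upwards [BdA_ev (log⁺ ‖a‖ / c)] with r h1
  constructor
  · unfold prox
    rw [circleAverage_const]
    have := (div_le_iff₀ hc).1 h1.2.2.2
    linarith
  · rw [BdA_S0 (fun u _ => ?_) h1.1 h1.2.1]
    · exact mul_nonneg hc.le h1.2.2.1.le
    · have : od (fun _ => a) u = 0 := by
        classical
        unfold od
        rw [meromorphicOrderAt_const]
        split_ifs <;> rfl
      unfold Pm
      rw [this]
      simp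

/-- The identity function: `prox = 0` as `|z| < 1`, `Pm = 0` (analytic). -/
theorem Bd.idF {c : ℝ} (hc : 0 < c) : Bd c (fun z => z) := by
  filter_upwards [BdA_ev 0] with r h1
  constructor
  · have h2 : prox (fun z => z) r = 0 := by
      unfold prox
      have h3 : ∀ z ∈ sphere (0 : ℂ) |r|, log⁺ ‖z‖ = 0 := by
        intro z hz
        rw [mem_sphere_zero_iff_norm, abs_of_pos h1.1] at hz
        rw [hz, Real.posLog_eq_zero_iff, abs_of_pos h1.1]
        exact h1.2.1.le
      rw [circleAverage_congr_sphere h3, circleAverage_const]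
    rw [h2]
    exact mul_nonneg hc.le h1.2.2.1.le
  · rw [BdA_S0 (fun u _ => ?_) h1.1 h1.2.1]
    · exact mul_nonneg hc.le h1.2.2.1.le
    · have h2 : 0 ≤ meromorphicOrderAt (fun z : ℂ => z) u :=
        (analyticAt_id (𝕜 := ℂ) (z := u)).meromorphicOrderAt_nonneg
      have h3 : 0 ≤ od (fun z => z) u := by
        unfold od
        cases h : meromorphicOrderAt (fun z : ℂ => z) u with
        | top => simp
        | coe a =>
          rw [h] at h2
          simpa using h2
      unfold Pm
      have h4 : max (-od (fun z => z) u) 0 = 0 := max_eq_right (by omega)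
      rw [h4]
      simp

/-- If one order is not `⊤` then none is (the disc is connected,
`MeromorphicOn.exists_meromorphicOrderAt_ne_top_iff_forall` or similar). -/
theorem mer_or {h : ℂ → ℂ} (hh : MeromorphicOn h (ball 0 1)) :
    Mer h ∨ ∀ u ∈ ball (0 : ℂ) 1, meromorphicOrderAt h u = ⊤ := by
  by_cases hex : ∃ u ∈ ball (0 : ℂ) 1, meromorphicOrderAt h u ≠ ⊤
  · left
    obtain ⟨u, hu, h1⟩ := hex
    refine ⟨hh, fun z hz => ?_⟩
    exact hh.meromorphicOrderAt_ne_top_of_isPreconnected
      (convex_ball (0 : ℂ) 1).isPreconnected hu hz h1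
  · right
    push Not at hex
    exact hex

/-- Locally finite supports (`lf_od`, `LF.comp` if `Mer h`; otherwise `Pm h = 0` in the disc). -/
theorem lf_Pm {h : ℂ → ℂ} (hh : MeromorphicOn h (ball 0 1)) : LF (Pm h) := by
  rcases mer_or hh with hm | hm
  · have h1 := (lf_od hm).comp (g := fun x => max (-x) 0) (by simp)
    have e : Pm h = fun u => max (-(od h u : ℝ)) 0 := by
      funext u; unfold Pm; push_cast; rfl
    rw [e]; exact h1
  · intro r hr
    refine Set.Finite.subset Set.finite_empty ?_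
    rintro u ⟨h1, h2⟩
    apply h2
    have : od h u = 0 := by
      unfold od
      rw [hm u (by rw [mem_ball_zero_iff]; linarith)]
      rfl
    unfold Pm
    rw [this]
    simp

theorem lf_Zf {h : ℂ → ℂ} (hh : MeromorphicOn h (ball 0 1)) : LF (Zf h) := by
  rcases mer_or hh with hm | hm
  · have h1 := (lf_od hm).comp (g := fun x => max x 0) (by simp)
    have e : Zf h = fun u => max (od h u : ℝ) 0 := by
      funext u; unfold Zf; push_cast; rfl
    rw [e]; exact h1
  · intro r hr
    refine Set.Finite.subset Set.finite_empty ?_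
    rintro u ⟨h1, h2⟩
    apply h2
    have : od h u = 0 := by
      unfold od
      rw [hm u (by rw [mem_ball_zero_iff]; linarith)]
      rfl
    unfold Zf
    rw [this]
    simp

end Pool.Agent.MP4b24a5.M1
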