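import Pool.Agent.Lib.MP_4b24a5_an_M1.BdA

set_option autoImplicit false

/-! MP_4b24a5_an, project M1, module BdAdd. -/

noncomputable section

namespace Pool.Agent.MP4b24a5.M1

open Complex Metric Real MeasureTheory Filter Topology

private theorem BdAdd_pm_nonneg (h : ℂ → ℂ) (u : ℂ) : 0 ≤ Pm h u := by
  unfold Pm
  exact_mod_cast le_max_right _ _

private theorem BdAdd_le {h g : ℂ → ℂ} {u : ℂ} {n : ℤ}
    (hg : meromorphicOrderAt g u = n) (hh : meromorphicOrderAt h u ≤ n) : Pm g u ≤ Pm h u := by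
  have h1 : meromorphicOrderAt h u ≠ ⊤ := ne_top_of_le_ne_top WithTop.coe_ne_top hh
  obtain ⟨k, hk⟩ := WithTop.ne_top_iff_exists.1 h1
  rw [← hk] at hh
  have hkn : k ≤ n := by exact_mod_cast hh
  have e1 : od g u = n := by
    unfold od
    rw [hg]
    rfl
  have e2 : od h u = k := by
    unfold od
    rw [← hk]
    rfl
  unfold Pm
  rw [e1, e2]
  have h2 : max (-n) 0 ≤ max (-k) 0 := max_le_max (by omega) le_rfl
  exact_mod_cast h2

private theorem BdAdd_pm {h g : ℂ → ℂ} {u : ℂ} (hh : MeromorphicAt h u)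
    (hg : MeromorphicAt g u) : Pm (h + g) u ≤ Pm h u + Pm g u := by
  have hp1 := BdAdd_pm_nonneg h u
  have hp2 := BdAdd_pm_nonneg g u
  by_cases ht : meromorphicOrderAt (h + g) u = ⊤
  · have h1 : Pm (h + g) u = 0 := by
      unfold Pm od
      rw [ht]
      simp
    linarith
  · obtain ⟨n, hn⟩ := WithTop.ne_top_iff_exists.1 ht
    rcases le_or_gt 0 n with h0 | h0
    · have h1 : Pm (h + g) u = 0 := by
        unfold Pm od
        rw [← hn]
        have h2 : max (-((n : WithTop ℤ).untop₀)) 0 = 0 := by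
          rw [WithTop.untop₀_coe]
          exact max_eq_right (by omega)
        rw [h2, Int.cast_zero]
      linarith
    · have h1 := meromorphicOrderAt_add hh hg
      rw [← hn, min_le_iff] at h1
      rcases h1 with h1 | h1
      · have h2 := BdAdd_le hn.symm h1
        linarith
      · have h2 := BdAdd_le hn.symm h1
        linarith

/-- Sum: `log⁺ |h + g| ≤ log⁺ |h| + log⁺ |g| + log 2`, `Pm (h + g) ≤ Pm h + Pm g` (in the disc), and
`L r → ∞`. Use `circleAverage_le` (or monotonicity of circle averages) with `ci_pos`, and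
`S_mono`, `S_add`. Note that `h + g` may vanish identically; then `Pm = 0` in the disc. -/
theorem Bd.add {c c' : ℝ} {h g : ℂ → ℂ} (hh : MeromorphicOn h (ball 0 1))
    (hg : MeromorphicOn g (ball 0 1)) (hb : Bd c h) (hb' : Bd c' g) : Bd (c + c' + 1) (h + g) := by
  have hhg : MeromorphicOn (h + g) (ball 0 1) := fun z hz => (hh z hz).add (hg z hz)
  have hIoo : ∀ᶠ r in 𝓝[<] (1 : ℝ), (1 / 2 : ℝ) < r ∧ r < 1 := Ioo_mem_nhdsLT (by norm_num)
  have hL : ∀ᶠ r in 𝓝[<] (1 : ℝ), max (Real.log 2) 0 ≤ L r := L_tendsto.eventually_ge_atTop _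
  unfold Bd at hb hb' ⊢
  filter_upwards [hb, hb', hIoo, hL] with r h1 h2 h3 h4
  have hr0 : 0 < r := by linarith [h3.1]
  have hL2 : Real.log 2 ≤ L r := (le_max_left _ _).trans h4
  have hL0 : 0 ≤ L r := (le_max_right _ _).trans h4
  constructor
  · have c1 := ci_pos hh hr0 h3.2
    have c2 := ci_pos hg hr0 h3.2
    have c3 : CircleIntegrable (fun _ : ℂ => Real.log 2) 0 r := circleIntegrable_const _ _ _
    have h5 : prox (h + g) r ≤ prox h r + prox g r + Real.log 2 := by
      unfold prox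
      have h6 : circleAverage (fun _ : ℂ => Real.log 2) 0 r = Real.log 2 := circleAverage_const _ _ _
      rw [← circleAverage_add c1 c2]
      conv_rhs => rw [← h6]
      rw [← circleAverage_add (c1.add c2) c3]
      refine circleAverage_mono (ci_pos hhg hr0 h3.2) ((c1.add c2).add c3) ?_
      intro z _
      simp only [Pi.add_apply]
      exact posLog_norm_add_le _ _
    nlinarith [h1.1, h2.1]
  · have h5 : S (Pm (h + g)) r ≤ S (Pm h) r + S (Pm g) r := by
      rw [← S_add (lf_Pm hh) (lf_Pm hg) hr0 h3.2]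
      refine S_mono (lf_Pm hhg) ((lf_Pm hh).add (lf_Pm hg)) ?_ hr0 h3.2
      intro u _ hu
      have hu' : u ∈ ball (0 : ℂ) 1 := by rwa [mem_ball_zero_iff]
      exact BdAdd_pm (hh u hu') (hg u hu')
    nlinarith [h1.2, h2.2]

end Pool.Agent.MP4b24a5.M1
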