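import Pool.Agent.Lib.MP_4b24a5_an_M1.BdA

set_option autoImplicit false

/-! MP_4b24a5_an, project M1, module BdAl. -/

noncomputable section

namespace Pool.Agent.MP4b24a5.M1

open Complex Metric Real MeasureTheory Filter Topology

/-- `T f r ≤ prox f r + S (Pm f) r` (as `log r ≤ 0`), so `T f r / L r ≤ 2 c` near `1`. -/
theorem Bd.alph_le {c : ℝ} {f : ℂ → ℂ} (hb : Bd c f) : alph f ≤ ((2 * c : ℝ) : EReal) := by
  unfold alph
  refine Filter.limsup_le_of_le (h := ?_)
  filter_upwards [hb, Ioo_mem_nhdsLT (by norm_num : (0 : ℝ) < 1),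
    L_tendsto.eventually_ge_atTop 1] with r h1 hr hr2
  have hL : 0 < L r := by
    have : 1 ≤ L r := hr2
    linarith
  rw [EReal.coe_le_coe_iff, div_le_iff₀ hL]
  have h2 : cnt f r ≤ S (Pm f) r := by
    unfold cnt
    have h3 : ((max (-od f 0) 0 : ℤ) : ℝ) * Real.log r ≤ 0 := by
      refine mul_nonpos_of_nonneg_of_nonpos ?_ (Real.log_nonpos hr.1.le hr.2.le)
      exact_mod_cast le_max_right _ _
    have h4 : S (fun u => ((max (-od f u) 0 : ℤ) : ℝ)) r = S (Pm f) r := rfl
    linarith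
  unfold T
  linarith [h1.1, h1.2]

end Pool.Agent.MP4b24a5.M1
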