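import Pool.Agent.Lib.MP_4b24a5_an_M1.BdA

set_option autoImplicit false

/-! MP_4b24a5_an, project M1, module BdC. -/

noncomputable section

namespace Pool.Agent.MP4b24a5.M1

open Complex Metric Real MeasureTheory Filter Topology

/-- Identity theorem: functions which are meromorphic in the disc and agree near `0` have the same
orders in the disc (`h - g` has order `⊤` at `0`, hence everywhere, `mer_or`). -/
theorem order_congr {h g : ℂ → ℂ} (hh : MeromorphicOn h (ball 0 1))
    (hg : MeromorphicOn g (ball 0 1)) (he : h =ᶠ[𝓝[≠] (0 : ℂ)] g) {u : ℂ}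
    (hu : u ∈ ball (0 : ℂ) 1) : h =ᶠ[𝓝[≠] u] g := by
  have hd : MeromorphicOn (h - g) (ball 0 1) := fun z hz => (hh z hz).sub (hg z hz)
  have h0 : (0 : ℂ) ∈ ball (0 : ℂ) 1 := mem_ball_self one_pos
  have hcon : IsPreconnected (ball (0 : ℂ) 1) := (convex_ball 0 1).isPreconnected
  have h1 : meromorphicOrderAt (h - g) 0 = ⊤ := by
    rw [meromorphicOrderAt_eq_top_iff]
    filter_upwards [he] with z hz
    rw [Pi.sub_apply, hz, sub_self]
  have h2 : meromorphicOrderAt (h - g) u = ⊤ := by
    by_contra hne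
    exact hd.meromorphicOrderAt_ne_top_of_isPreconnected hcon hu h0 hne h1
  rw [meromorphicOrderAt_eq_top_iff] at h2
  filter_upwards [h2] with z hz
  exact sub_eq_zero.1 hz

private theorem BdC_prox {h g : ℂ → ℂ} (hh : MeromorphicOn h (ball 0 1))
    (hg : MeromorphicOn g (ball 0 1)) (he : h =ᶠ[𝓝[≠] (0 : ℂ)] g) {r : ℝ} (hr : 0 < r)
    (hr1 : r < 1) : prox h r = prox g r := by
  unfold prox
  apply circleAverage_congr_codiscreteWithin _ hr.ne'
  rw [Filter.EventuallyEq, Filter.Eventually, mem_codiscreteWithin_iff_forall_mem_nhdsNE]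
  intro x hx
  have hx1 : x ∈ ball (0 : ℂ) 1 := by
    rw [mem_sphere_zero_iff_norm, abs_of_pos hr] at hx
    rw [mem_ball_zero_iff, hx]
    exact hr1
  filter_upwards [order_congr hh hg he hx1] with z hz
  left
  show log⁺ ‖h z‖ = log⁺ ‖g z‖
  rw [hz]

private theorem BdC_S {h g : ℂ → ℂ} (hh : MeromorphicOn h (ball 0 1))
    (hg : MeromorphicOn g (ball 0 1)) (he : h =ᶠ[𝓝[≠] (0 : ℂ)] g) {r : ℝ} (hr : 0 < r)
    (hr1 : r < 1) : S (Pm h) r = S (Pm g) r := by
  unfold S
  refine finsum_congr fun u => ?_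
  by_cases hu : ‖u‖ < 1
  · have h1 : Pm h u = Pm g u := by
      unfold Pm od
      rw [meromorphicOrderAt_congr (order_congr hh hg he (mem_ball_zero_iff.2 hu))]
    rw [h1]
  · have h1 : log⁺ (r / ‖u‖) = 0 := by
      rw [posLog_eq_zero_iff, abs_of_nonneg (by positivity)]
      have h2 : 0 < ‖u‖ := by linarith [not_lt.1 hu]
      rw [div_le_one h2]
      linarith [not_lt.1 hu]
    rw [h1, mul_zero, mul_zero]

/-- `Bd` depends only on the germ. On the circle `|z| = r` the two functions differ only at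
finitely many points (`order_congr`, compactness), so `prox` is the same; `Pm` is the same at all
points of the disc (`meromorphicOrderAt_congr`), and `S` only involves those. -/
theorem Bd.congr {c : ℝ} {h g : ℂ → ℂ} (hh : MeromorphicOn h (ball 0 1))
    (hg : MeromorphicOn g (ball 0 1)) (he : h =ᶠ[𝓝[≠] (0 : ℂ)] g) (hb : Bd c h) : Bd c g := by
  unfold Bd at hb ⊢
  filter_upwards [hb, Ioo_mem_nhdsLT (zero_lt_one : (0 : ℝ) < 1)] with r h1 h2
  rw [← BdC_prox hh hg he h2.1 h2.2, ← BdC_S hh hg he h2.1 h2.2]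
  exact h1

end Pool.Agent.MP4b24a5.M1
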