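import Pool.Agent.Lib.MP_4b24a5_an_M1.BdC

set_option autoImplicit false

/-! MP_4b24a5_an, project M1, module BdDer. -/

noncomputable section

namespace Pool.Agent.MP4b24a5.M1

open Complex Metric Real MeasureTheory Filter Topology

/-- `Bd` and `Mer` imply `Slow` (`slow_of`). -/
theorem Bd.slow {c : ℝ} {h : ℂ → ℂ} (hm : Mer h) (hb : Bd c h) : Slow h := by
  exact slow_of hm c hb

private theorem bdder_zeros_finite {f : ℂ → ℂ} (hf : Mer f) {r : ℝ} (h1 : r < 1) :
    {z : ℂ | ‖z‖ ≤ r ∧ f z = 0}.Finite := by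
  have hloc : ∀ z ∈ closedBall (0 : ℂ) r, {x | x = z ∨ f x ≠ 0} ∈ 𝓝 z := by
    intro z hz
    have hz1 : z ∈ ball (0 : ℂ) 1 := closedBall_subset_ball h1 hz
    have hc := (meromorphicOrderAt_ne_top_iff_eventually_ne_zero (hf.1 z hz1)).1 (hf.2 z hz1)
    rw [eventually_nhdsWithin_iff] at hc
    filter_upwards [hc] with x hx
    by_cases hxz : x = z
    · exact Or.inl hxz
    · exact Or.inr (hx hxz)
  obtain ⟨t, _, hcov⟩ := (isCompact_closedBall (0 : ℂ) r).elim_nhds_subcover _ hloc
  refine t.finite_toSet.subset ?_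
  rintro z ⟨hz, hz0⟩
  have hzb : z ∈ closedBall (0 : ℂ) r := by
    rw [mem_closedBall, dist_zero_right]
    exact hz
  obtain ⟨y, hy, hzy⟩ := Set.mem_iUnion₂.mp (hcov hzb)
  rcases hzy with h | h
  · rw [h]
    exact hy
  · exact absurd hz0 h

/-- the pole order of the derivative -/
private theorem bdder_order {f : ℂ → ℂ} {u : ℂ} (hf : MeromorphicAt f u)
    (ht : meromorphicOrderAt f u ≠ ⊤) (ht' : meromorphicOrderAt (deriv f) u ≠ ⊤) :
    Pm (deriv f) u ≤ 2 * Pm f u := by
  obtain ⟨n, hn⟩ := WithTop.ne_top_iff_exists.1 ht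
  obtain ⟨n', hn'⟩ := WithTop.ne_top_iff_exists.1 ht'
  have e : od f u = n := by
    unfold od
    rw [← hn]
    rfl
  have e' : od (deriv f) u = n' := by
    unfold od
    rw [← hn']
    rfl
  unfold Pm
  rw [e, e']
  have key : max (-n') 0 ≤ 2 * max (-n) 0 := by
    rcases lt_or_ge n 0 with hneg | hpos
    · have h1 : (n : ℂ) ≠ 0 := by exact_mod_cast hneg.ne
      have h2 := meromorphicOrderAt_deriv_eq_sub_one h1 hn.symm
      rw [← hn'] at h2
      have h3 : n' = n - 1 := by exact_mod_cast h2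
      omega
    · have h1 : (0 : WithTop ℤ) ≤ meromorphicOrderAt f u := by
        rw [← hn]
        exact_mod_cast hpos
      have h2 := hf.meromorphicOrderAt_nonneg_iff_analyticAt_toMeromorphicNFAt.1 h1
      have h3 := hf.eq_nhdsNE_toMeromorphicNFAt.nhdsNE_deriv
      have h4 : (0 : WithTop ℤ) ≤ meromorphicOrderAt (deriv f) u := by
        rw [meromorphicOrderAt_congr h3]
        exact h2.deriv.meromorphicOrderAt_nonneg
      rw [← hn'] at h4
      have h5 : 0 ≤ n' := by exact_mod_cast h4
      omega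
  exact_mod_cast key

/-- Derivative: if `h'` has order `⊤` somewhere (hence everywhere, `mer_or`), compare with the zero
function. Otherwise `Mer h` and `Mer (deriv h)`, `prox h' ≤ prox h + prox (logDeriv h)
≤ (c + 2) L` (`ld1` with `ε = 1`), and `Pm h' ≤ 2 Pm h` (a pole of order `n` becomes one of
order `n + 1 ≤ 2 n`). -/
theorem Bd.deriv {c : ℝ} {h : ℂ → ℂ} (hh : MeromorphicOn h (ball 0 1)) (hb : Bd c h) :
    Bd (2 * c + 2) (deriv h) := by
  have hc : 0 ≤ c := hb.nonneg
  have h0b : (0 : ℂ) ∈ ball (0 : ℂ) 1 := mem_ball_self one_pos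
  rcases mer_or hh.deriv with hd | hd
  · have hmer : Mer h := by
      rcases mer_or hh with h1 | h1
      · exact h1
      · exfalso
        have h2 := h1 0 h0b
        rw [meromorphicOrderAt_eq_top_iff] at h2
        have h3 : h =ᶠ[𝓝[≠] (0 : ℂ)] fun _ => (0 : ℂ) := h2
        have h4 := h3.nhdsNE_deriv
        apply hd.2 0 h0b
        rw [meromorphicOrderAt_eq_top_iff]
        filter_upwards [h4] with z hz
        rw [hz]
        simp
    have hslow : Slow h := Bd.slow hmer hb
    have hld := ld1 hslow one_pos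
    have hmerl : MeromorphicOn (logDeriv h) (ball 0 1) := fun z hz =>
      (hd.1 z hz).div (hmer.1 z hz)
    have hr : ∀ᶠ r : ℝ in 𝓝[<] (1 : ℝ), 0 < r ∧ r < 1 := by
      have h1 : Set.Ioo (0 : ℝ) 1 ∈ 𝓝[<] (1 : ℝ) := Ioo_mem_nhdsLT one_pos
      filter_upwards [h1] with r hr
      exact hr
    filter_upwards [hb, hld, hr] with r hbr hld hr
    obtain ⟨h0, h1⟩ := hr
    have hL : 0 ≤ L r := by
      unfold L
      have := Real.log_nonpos (x := 1 - r) (by linarith) (by linarith)
      linarith
    have hcL : 0 ≤ c * L r := mul_nonneg hc hL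
    constructor
    · have i1 : CircleIntegrable (fun z => log⁺ ‖_root_.deriv h z‖) 0 r := ci_pos hd.1 h0 h1
      have i2 : CircleIntegrable (fun z => log⁺ ‖h z‖) 0 r := ci_pos hmer.1 h0 h1
      have i3 : CircleIntegrable (fun z => log⁺ ‖logDeriv h z‖) 0 r := ci_pos hmerl h0 h1
      have hle : circleAverage (fun z => log⁺ ‖_root_.deriv h z‖) 0 r ≤
          circleAverage (fun z => log⁺ ‖h z‖ + log⁺ ‖logDeriv h z‖) 0 r := by
        refine circleAverage_le h0 i1 (i2.add i3) (bdder_zeros_finite hmer h1) ?_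
        intro z hz hzE
        have hfz : h z ≠ 0 := fun h2 => hzE ⟨hz.le, h2⟩
        have e : _root_.deriv h z = h z * logDeriv h z := by
          rw [logDeriv_apply]
          field_simp
        rw [e, norm_mul]
        exact Real.posLog_mul
      have hadd : circleAverage (fun z => log⁺ ‖h z‖ + log⁺ ‖logDeriv h z‖) 0 r =
          prox h r + prox (logDeriv h) r :=
        circleAverage_add i2 i3
      have hp : prox (_root_.deriv h) r ≤ c * L r + (1 + 1) * L r := by
        unfold prox at hld hbr hadd ⊢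
        rw [hadd] at hle
        linarith [hbr.1]
      have : (2 * c + 2) * L r = c * L r + c * L r + (1 + 1) * L r := by ring
      linarith
    · have hmono : S (Pm (_root_.deriv h)) r ≤ S (fun u => 2 * Pm h u) r := by
        have l1 : LF (Pm (_root_.deriv h)) := lf_Pm hd.1
        have l2 : LF (fun u => 2 * Pm h u) :=
          (lf_Pm hh).comp (g := fun x => 2 * x) (by simp)
        refine S_mono l1 l2 (fun u _ hu => ?_) h0 h1
        have hub : u ∈ ball (0 : ℂ) 1 := by
          rw [mem_ball_zero_iff]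
          exact hu
        exact bdder_order (hmer.1 u hub) (hmer.2 u hub) (hd.2 u hub)
      have hs : S (fun u => 2 * Pm h u) r = 2 * S (Pm h) r := S_smul 2
      rw [hs] at hmono
      have : (2 * c + 2) * L r = 2 * (c * L r) + 2 * L r := by ring
      linarith [hbr.2]
  · have h2 := hd 0 h0b
    rw [meromorphicOrderAt_eq_top_iff] at h2
    have h3 : (fun _ => (0 : ℂ)) =ᶠ[𝓝[≠] (0 : ℂ)] _root_.deriv h := by
      filter_upwards [h2] with z hz
      exact hz.symm
    exact Bd.congr (fun z _ => MeromorphicAt.const 0 z) hh.deriv h3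
      (Bd.constF 0 (by linarith))

end Pool.Agent.MP4b24a5.M1
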