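import Pool.Agent.Lib.MP_4b24a5_an_M1.BdC

set_option autoImplicit false

/-! MP_4b24a5_an, project M1, module BdInv. -/

noncomputable section

namespace Pool.Agent.MP4b24a5.M1

open Complex Metric Real MeasureTheory Filter Topology

/-- Jensen (`jensen`; compare `fin_jensen` in `MP_4b24a5_an/Fin.lean`): `prox h - prox h⁻¹` is the
mean of `log |h|`, which is `S (Zf h) - S (Pm h) + od h 0 * log r + const`; all of `prox h⁻¹`,
`S (Zf h)` are nonnegative, so both are at most `prox h + S (Pm h) + const ≤ (2 c + 1) L`. -/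
theorem Bd.inv' {c : ℝ} {h : ℂ → ℂ} (hm : Mer h) (hb : Bd c h) : ∀ᶠ r in 𝓝[<] (1 : ℝ),
    prox h⁻¹ r ≤ (2 * c + 1) * L r ∧ S (Zf h) r ≤ (2 * c + 1) * L r := by
  obtain ⟨c₀, hc₀⟩ := jensen hm
  have hL : ∀ᶠ r in 𝓝[<] (1 : ℝ), |(od h 0 : ℝ)| * Real.log 2 + |c₀| ≤ L r :=
    L_tendsto.eventually_ge_atTop _
  have hr : ∀ᶠ r in 𝓝[<] (1 : ℝ), r ∈ Set.Ioo (1 / 2 : ℝ) 1 := Ioo_mem_nhdsLT (by norm_num)
  filter_upwards [hb, hL, hr] with r hbr hLr hrr
  obtain ⟨hr1, hr2⟩ := hrr
  have h0 : 0 < r := by linarith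
  have e1 : prox h r - prox h⁻¹ r = circleAverage (fun z => Real.log ‖h z‖) 0 r := by
    unfold prox
    rw [← circleAverage_fun_sub (ci_pos hm.1 h0 hr2)
      (ci_pos (f := h⁻¹) hm.1.inv h0 hr2)]
    congr 1
    funext z
    rw [Pi.inv_apply, norm_inv, Real.posLog_sub_posLog_inv]
  have e2 : S (Zf h) r = S (fun u => (od h u : ℝ)) r + S (Pm h) r := by
    rw [← S_add (lf_od hm) (lf_Pm hm.1) h0 hr2]
    congr 1
    funext u
    unfold Zf Pm
    have h2 : max (od h u) 0 = od h u + max (-od h u) 0 := by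
      rcases le_total (od h u) 0 with h3 | h3
      · rw [max_eq_right h3, max_eq_left (by omega)]; ring
      · rw [max_eq_left h3, max_eq_right (by omega)]; ring
    rw [h2]
    push_cast
    ring
  have e3 := hc₀ r h0 hr2
  have hp : 0 ≤ prox h⁻¹ r := by
    unfold prox
    exact circleAverage_nonneg_of_nonneg fun z _ => posLog_nonneg
  have hZ : 0 ≤ S (Zf h) r := by
    refine S_nonneg (fun u _ _ => ?_) h0 hr2
    unfold Zf
    have : (0 : ℤ) ≤ max (od h u) 0 := le_max_right _ _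
    exact_mod_cast this
  have hlog : |Real.log r| ≤ Real.log 2 := by
    rw [abs_of_nonpos (Real.log_nonpos h0.le hr2.le), ← Real.log_inv]
    apply Real.log_le_log (by positivity)
    rw [inv_le_comm₀ h0 (by norm_num)]
    linarith
  have h5 : -(|(od h 0 : ℝ)| * Real.log 2) ≤ (od h 0 : ℝ) * Real.log r := by
    have h6 : |(od h 0 : ℝ) * Real.log r| ≤ |(od h 0 : ℝ)| * Real.log 2 := by
      rw [abs_mul]
      exact mul_le_mul_of_nonneg_left hlog (abs_nonneg _)
    exact (abs_le.1 h6).1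
  have h7 := neg_abs_le c₀
  have h8 : prox h⁻¹ r + S (Zf h) r ≤ (2 * c + 1) * L r := by
    obtain ⟨h9, h10⟩ := hbr
    have h11 : (2 * c + 1) * L r = c * L r + c * L r + L r := by ring
    rw [h11]
    linarith
  constructor <;> linarith

private theorem bdInv_Pm {h : ℂ → ℂ} : Pm h⁻¹ = Zf h := by
  funext u
  unfold Pm Zf od
  rw [meromorphicOrderAt_inv]
  congr 2
  cases meromorphicOrderAt h u with
  | top => rfl
  | coe n => simp [← WithTop.LinearOrderedAddCommGroup.coe_neg]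

/-- Inverse: `Bd.inv'` and `Pm h⁻¹ = Zf h` if `Mer h`; otherwise `h = 0` near `0`
(`mer_or`), `h⁻¹ = 0` near `0`, and `Bd.congr` with the zero function (`Bd.constF`). -/
theorem Bd.inv {c : ℝ} {h : ℂ → ℂ} (hh : MeromorphicOn h (ball 0 1)) (hb : Bd c h) :
    Bd (2 * c + 1) h⁻¹ := by
  rcases mer_or hh with hm | ht
  · have h1 := hb.inv' hm
    rw [← bdInv_Pm] at h1
    exact h1
  · have h0 := ht 0 (mem_ball_self one_pos)
    rw [meromorphicOrderAt_eq_top_iff] at h0
    have hc := hb.nonneg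
    refine Bd.congr (h := fun _ => (0 : ℂ)) (fun z _ => MeromorphicAt.const 0 z)
      (fun z hz => (hh z hz).inv) ?_ (Bd.constF 0 (by linarith))
    filter_upwards [h0] with z hz
    rw [Pi.inv_apply, hz, inv_zero]

end Pool.Agent.MP4b24a5.M1
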