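import Pool.Agent.Lib.MP_4b24a5_an_M1.BdA

set_option autoImplicit false

/-! MP_4b24a5_an, project M1, module BdMul. -/

noncomputable section

namespace Pool.Agent.MP4b24a5.M1

open Complex Metric Real MeasureTheory Filter Topology

private theorem BdMul_LF {D D' : ℂ → ℝ} (hD : LF D) (hD' : LF D') : LF (fun u => D u + D' u) := by
  intro r hr
  refine ((hD r hr).union (hD' r hr)).subset ?_
  rintro u ⟨h1, h2⟩
  by_cases h3 : D u = 0
  · refine Or.inr ⟨h1, fun h4 => h2 ?_⟩
    show D u + D' u = 0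
    rw [h3, h4, add_zero]
  · exact Or.inl ⟨h1, h3⟩

private theorem BdMul_Pm {h g : ℂ → ℂ} {u : ℂ} (hh : MeromorphicAt h u) (hg : MeromorphicAt g u) :
    Pm (h * g) u ≤ Pm h u + Pm g u := by
  have key : max (-od (h * g) u) 0 ≤ max (-od h u) 0 + max (-od g u) 0 := by
    have hm := meromorphicOrderAt_mul hh hg
    have h1 : 0 ≤ max (-od h u) 0 := le_max_right _ _
    have h2 : 0 ≤ max (-od g u) 0 := le_max_right _ _
    by_cases ht : meromorphicOrderAt h u = ⊤
    · rw [ht, WithTop.top_add] at hm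
      have : od (h * g) u = 0 := by unfold od; rw [hm]; rfl
      rw [this]
      simp only [neg_zero, max_self]
      omega
    by_cases ht' : meromorphicOrderAt g u = ⊤
    · rw [ht', WithTop.add_top] at hm
      have : od (h * g) u = 0 := by unfold od; rw [hm]; rfl
      rw [this]
      simp only [neg_zero, max_self]
      omega
    have h3 : od (h * g) u = od h u + od g u := by
      apply Ord.od_of_eq
      rw [hm, Ord.eq_od ht, Ord.eq_od ht']
      rfl
    rw [h3]
    omega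
  unfold Pm
  exact_mod_cast key

/-- Product: `log⁺ |h g| ≤ log⁺ |h| + log⁺ |g|`, `Pm (h g) ≤ Pm h + Pm g`. -/
theorem Bd.mul {c c' : ℝ} {h g : ℂ → ℂ} (hh : MeromorphicOn h (ball 0 1))
    (hg : MeromorphicOn g (ball 0 1)) (hb : Bd c h) (hb' : Bd c' g) : Bd (c + c') (h * g) := by
  have hhg : MeromorphicOn (h * g) (ball 0 1) := fun z hz => (hh z hz).mul (hg z hz)
  have hI : ∀ᶠ r in 𝓝[<] (1 : ℝ), (1 / 2 : ℝ) < r ∧ r < 1 := Ioo_mem_nhdsLT (by norm_num)
  unfold Bd at *
  filter_upwards [hb, hb', hI] with r h1 h2 h3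
  have h0 : 0 < r := by linarith [h3.1]
  constructor
  · have h4 : prox (h * g) r ≤ prox h r + prox g r := by
      unfold prox
      rw [← circleAverage_fun_add (ci_pos hh h0 h3.2) (ci_pos hg h0 h3.2)]
      refine circleAverage_le h0 (ci_pos hhg h0 h3.2)
        ((ci_pos hh h0 h3.2).add (ci_pos hg h0 h3.2)) (E := ∅) Set.finite_empty fun z _ _ => ?_
      show log⁺ ‖h z * g z‖ ≤ log⁺ ‖h z‖ + log⁺ ‖g z‖
      rw [norm_mul]
      exact Real.posLog_mul
    rw [add_mul]
    linarith [h1.1, h2.1]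
  · have h4 : S (Pm (h * g)) r ≤ S (Pm h) r + S (Pm g) r := by
      rw [← S_add (lf_Pm hh) (lf_Pm hg) h0 h3.2]
      refine S_mono (lf_Pm hhg) (BdMul_LF (lf_Pm hh) (lf_Pm hg)) (fun u _ hu => ?_) h0 h3.2
      have hu' : u ∈ ball (0 : ℂ) 1 := by rwa [mem_ball_zero_iff]
      exact BdMul_Pm (hh u hu') (hg u hu')
    rw [add_mul]
    linarith [h1.2, h2.2]

end Pool.Agent.MP4b24a5.M1
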