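import Pool.Agent.Lib.MP_4b24a5_an_M1.BdA

set_option autoImplicit false

/-! MP_4b24a5_an, project M1, module BdRoot. -/

noncomputable section

namespace Pool.Agent.MP4b24a5.M1

open Complex Metric Real MeasureTheory Filter Topology

private theorem BdRoot_ev : ∀ᶠ r in 𝓝[<] (1 : ℝ), 0 < r ∧ r < 1 ∧ 0 < L r := by
  filter_upwards [Ioo_mem_nhdsLT (by norm_num : (0 : ℝ) < 1),
    L_tendsto.eventually_ge_atTop 1] with r hr hr2
  have h1 : 1 ≤ L r := hr2
  exact ⟨hr.1, hr.2, by linarith⟩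

private theorem BdRoot_prox (f : ℂ → ℂ) (r : ℝ) : 0 ≤ prox f r := by
  unfold prox
  exact circleAverage_nonneg_of_nonneg (fun z _ => Real.posLog_nonneg)

private theorem BdRoot_log (x : ℝ) (hx : 0 ≤ x) (n : ℕ) : log⁺ (x ^ n) = n * log⁺ x := by
  rcases le_total x 1 with h | h
  · have h1 : x ^ n ≤ 1 := pow_le_one₀ hx h
    rw [(Real.posLog_eq_zero_iff _).2, (Real.posLog_eq_zero_iff _).2, mul_zero]
    · rw [abs_of_nonneg hx]; exact h
    · rw [abs_of_nonneg (pow_nonneg hx n)]; exact h1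
  · have h1 : 1 ≤ x ^ n := one_le_pow₀ h
    rw [Real.posLog_eq_log, Real.posLog_eq_log, Real.log_pow]
    · rw [abs_of_nonneg hx]; exact h
    · rw [abs_of_nonneg (pow_nonneg hx n)]; exact h1

/-- Roots: `prox (h ^ n) = n prox h`, `Pm (h ^ n) = n Pm h` in the disc (`S_smul`). -/
theorem Bd.root {c : ℝ} {h : ℂ → ℂ} {n : ℕ} (hn : n ≠ 0) (hh : MeromorphicOn h (ball 0 1))
    (hb : Bd c (h ^ n)) : Bd c h := by
  have hn1 : (1 : ℝ) ≤ n := by exact_mod_cast Nat.one_le_iff_ne_zero.2 hn
  filter_upwards [hb, BdRoot_ev] with r h1 h2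
  have hp : prox (h ^ n) r = n * prox h r := by
    unfold prox
    have e : (fun z => log⁺ ‖(h ^ n) z‖) = fun z => (n : ℝ) • log⁺ ‖h z‖ := by
      funext z
      rw [Pi.pow_apply, norm_pow, BdRoot_log _ (norm_nonneg _), smul_eq_mul]
    rw [e, circleAverage_fun_smul, smul_eq_mul]
  have hS : S (Pm (h ^ n)) r = n * S (Pm h) r := by
    rw [← S_smul]
    unfold S
    refine finsum_congr fun u => ?_
    by_cases hu : ‖u‖ < 1
    · have hu' : u ∈ ball (0 : ℂ) 1 := by rwa [mem_ball_zero_iff]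
      have ho : od (h ^ n) u = n * od h u := by
        unfold od
        rw [meromorphicOrderAt_pow (hh u hu')]
        cases hc : meromorphicOrderAt h u with
        | top =>
          obtain ⟨t, rfl⟩ := Nat.exists_eq_succ_of_ne_zero hn
          simp
        | coe a =>
          rw [Ord.nat_mul_coe]
          simp
      have e : Pm (h ^ n) u = n * Pm h u := by
        unfold Pm
        rw [ho]
        push_cast
        rw [← mul_neg]
        have e0 : (0 : ℝ) = n * 0 := by ring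
        nth_rewrite 1 [e0]
        rw [← mul_max_of_nonneg _ _ (by linarith : (0 : ℝ) ≤ n)]
      rw [e]
    · rw [SC.lg_zero_of_le h2.1 (by linarith [not_lt.1 hu]), mul_zero, mul_zero]
  rw [hp, hS] at h1
  have h3 := BdRoot_prox h r
  have h4 : 0 ≤ S (Pm h) r := S_nonneg (fun u _ _ => by
    unfold Pm; exact_mod_cast le_max_right _ _) h2.1 h2.2.1
  refine ⟨le_trans ?_ h1.1, le_trans ?_ h1.2⟩
  · nlinarith
  · nlinarith

end Pool.Agent.MP4b24a5.M1
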