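import Pool.Agent.Lib.MP_4b24a5_an_M1.Itr
import Pool.Agent.Lib.MP_4b24a5_an_M1.Prim

set_option autoImplicit false

/-! MP_4b24a5_an, project M1, module CaseA. -/

namespace Pool.Agent.MP4b24a5.M1

variable {F : Type*} [Field F]

namespace DF

variable [CharZero F] (S : DF F)

/-- Nondegenerate case. Elimination of `y`: `(a' b - a b') v = (a' - z a) g` with `v, g ≠ 0`, so
both coefficients are `≠ 0`, `g ^ (N + 1) = (a' b - a b') / ((a' - z a) Z)` is small, hence `g` and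
`v` are small, and `y` too (`a` or `a'` is not `0`). -/
theorem caseA_nd {y v g Z z a b a' b' : F} {N : ℕ} (hZ : Z ∈ S.K) (hZ0 : Z ≠ 0) (hz : z ∈ S.K)
    (ha : a ∈ S.K) (hb : b ∈ S.K) (ha' : a' ∈ S.K) (hb' : b' ∈ S.K) (hg0 : g ≠ 0)
    (hv : v = (Z * g ^ N)⁻¹) (h1 : g = a * y + b * v) (h2 : z * g = a' * y + b' * v)
    (hne : ¬ (a' - z * a = 0 ∧ a' * b - a * b' = 0)) : y ∈ S.K ∧ v ∈ S.K := by
  have hM0 : Z * g ^ N ≠ 0 := mul_ne_zero hZ0 (pow_ne_zero N hg0)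
  have hv0 : v ≠ 0 := by
    rw [hv]
    exact inv_ne_zero hM0
  have hel : (a' * b - a * b') * v = (a' - z * a) * g := by linear_combination a * h2 - a' * h1
  have hc1 : a' - z * a ≠ 0 := by
    intro h0
    rw [h0, zero_mul] at hel
    rcases mul_eq_zero.mp hel with h3 | h3
    · exact hne ⟨h0, h3⟩
    · exact hv0 h3
  have hgK : g ∈ S.K := by
    refine S.root g (N + 1) (Nat.succ_ne_zero N) ?_
    have h4 : g ^ (N + 1) = (a' * b - a * b') / ((a' - z * a) * Z) := by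
      rw [eq_div_iff (mul_ne_zero hc1 hZ0)]
      rw [hv, ← div_eq_mul_inv, div_eq_iff hM0] at hel
      rw [hel]
      ring
    rw [h4]
    exact S.K.div_mem (S.K.sub_mem (S.K.mul_mem ha' hb) (S.K.mul_mem ha hb'))
      (S.K.mul_mem (S.K.sub_mem ha' (S.K.mul_mem hz ha)) hZ)
  have hvK : v ∈ S.K := by
    rw [hv]
    exact S.K.inv_mem (S.K.mul_mem hZ (S.K.pow_mem hgK N))
  refine ⟨?_, hvK⟩
  by_cases ha0 : a = 0
  · have ha'0 : a' ≠ 0 := by
      rw [ha0, mul_zero, sub_zero] at hc1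
      exact hc1
    have h5 : y = (z * g - b' * v) / a' := by
      rw [eq_div_iff ha'0]
      linear_combination -h2
    rw [h5]
    exact S.K.div_mem (S.K.sub_mem (S.K.mul_mem hz hgK) (S.K.mul_mem hb' hvK)) ha'
  · have h5 : y = (g - b * v) / a := by
      rw [eq_div_iff ha0]
      linear_combination -h1
    rw [h5]
    exact S.K.div_mem (S.K.sub_mem hgK (S.K.mul_mem hb hvK)) ha

/-- Degenerate case: `a' = z a` and `a' b = a b'` where `D ^ i y = a y`, `D ^ i v = b v` and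
`D ^ (i + 1) y = a' y`, `D ^ (i + 1) v = b' v`. If `a = 0`: `D ^ i y = 0`, `y` is small
(`iter_zero_mem`), `g = b v`, `g ^ (N + 1) = b / Z` is small, so `g`, `v` are. If `a ≠ 0`:
`b' = z b`; `a y` and `g` are solutions of `D x = z x`, so `a y = c g` with a constant `c`, `b v
= (1 - c) g`. If `c ≠ 1`: `g ^ (N + 1) = b / ((1 - c) Z)` is small, so `g`, `v`, `y = c g / a`
are. If `c = 1`: `D ^ i v = 0`, `v` is small, `g ^ N = (Z v)⁻¹`, `g` is small (`N ≠ 0`), `y = g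
/ a`. -/
theorem caseA_dg {y v g Z z a b a' b' : F} {i N : ℕ} (hN : N ≠ 0) (hZ : Z ∈ S.K) (hZ0 : Z ≠ 0)
    (hz : z ∈ S.K) (ha : a ∈ S.K) (hb : b ∈ S.K) (hg0 : g ≠ 0) (hgz : S.D g = z * g)
    (hv : v = (Z * g ^ N)⁻¹) (h1 : g = a * y + b * v)
    (hy1 : S.D^[i] y = a * y) (hv1 : S.D^[i] v = b * v)
    (hy2 : S.D (a * y) = a' * y) (hv2 : S.D (b * v) = b' * v)
    (he1 : a' - z * a = 0) (he2 : a' * b - a * b' = 0) : y ∈ S.K ∧ v ∈ S.K := by
  have _ := hz
  have _ := hv2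
  have hM0 : Z * g ^ N ≠ 0 := mul_ne_zero hZ0 (pow_ne_zero N hg0)
  have hv0 : v ≠ 0 := by
    rw [hv]
    exact inv_ne_zero hM0
  have hvM : v * (Z * g ^ N) = 1 := by
    rw [hv]
    exact inv_mul_cancel₀ hM0
  have hvK : g ∈ S.K → v ∈ S.K := by
    intro hgK
    rw [hv]
    exact S.K.inv_mem (S.K.mul_mem hZ (S.K.pow_mem hgK N))
  by_cases ha0 : a = 0
  · have hyK : y ∈ S.K := S.iter_zero_mem i y (by rw [hy1, ha0, zero_mul])
    have hgb : g = b * v := by rw [h1, ha0, zero_mul, zero_add]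
    refine ⟨hyK, hvK (S.root g (N + 1) (Nat.succ_ne_zero N) ?_)⟩
    have h4 : g ^ (N + 1) = b / Z := by
      rw [eq_div_iff hZ0]
      linear_combination (g ^ N * Z) * hgb + b * hvM
    rw [h4]
    exact S.K.div_mem hb hZ
  · obtain ⟨c, hc⟩ : ∃ c, c = a * y / g := ⟨_, rfl⟩
    have hay : a * y = c * g := by rw [hc, div_mul_cancel₀ _ hg0]
    have hDc : S.D c = 0 := by
      rw [hc, S.D_div _ hg0, hy2, hgz, sub_eq_zero.mp he1]
      ring
    have hcK := S.const c hDc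
    have hbv : b * v = (1 - c) * g := by linear_combination -h1 - hay
    by_cases hc1 : c = 1
    · have hb0 : b * v = 0 := by rw [hbv, hc1, sub_self, zero_mul]
      have hvK' : v ∈ S.K := S.iter_zero_mem i v (by rw [hv1, hb0])
      have hgK : g ∈ S.K := by
        refine S.root g N hN ?_
        have h5 : g ^ N = (Z * v)⁻¹ := by
          refine eq_inv_of_mul_eq_one_left ?_
          linear_combination hvM
        rw [h5]
        exact S.K.inv_mem (S.K.mul_mem hZ hvK')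
      refine ⟨?_, hvK'⟩
      have h6 : y = c * g / a := by
        rw [eq_div_iff ha0]
        linear_combination hay
      rw [h6]
      exact S.K.div_mem (S.K.mul_mem hcK hgK) ha
    · have h1c : 1 - c ≠ 0 := sub_ne_zero.mpr (Ne.symm hc1)
      have hgK : g ∈ S.K := by
        refine S.root g (N + 1) (Nat.succ_ne_zero N) ?_
        have h4 : g ^ (N + 1) = b / ((1 - c) * Z) := by
          rw [eq_div_iff (mul_ne_zero h1c hZ0)]
          linear_combination (-(g ^ N * Z)) * hbv + b * hvM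
        rw [h4]
        exact S.K.div_mem hb (S.K.mul_mem (S.K.sub_mem S.K.one_mem hcK) hZ)
      refine ⟨?_, hvK hgK⟩
      have h6 : y = c * g / a := by
        rw [eq_div_iff ha0]
        linear_combination hay
      rw [h6]
      exact S.K.div_mem (S.K.mul_mem hcK hgK) ha

/-- the iterates are additive -/
theorem iter_add46 (S : DF F) (i : ℕ) (x y : F) : S.D^[i] (x + y) = S.D^[i] x + S.D^[i] y := by
  induction i generalizing x y with
  | zero => rfl
  | succ i ih => rw [Function.iterate_succ_apply, Function.iterate_succ_apply,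
      Function.iterate_succ_apply, S.add, ih]

/-- `M = Z g ^ N`, `Ψ = f M`, `q = Ψ' / (Ψ - 1)`. If `Ψ = 1` it is small. `v = 1 / M`,
`y = f - v`: `Ψ - 1 = M y`, so `D y = (q - M' / M) y`, `D v = - (M' / M) v`,
`M' / M = Z' / Z + N z` is small. `lin1` gives `a, b`; put `a' = D a + a κ`, `b' = D b + b ν`;
`D g = z g = a' y + b' v`; `caseA_nd` or `caseA_dg`; `f = y + v`. -/
theorem caseA {f g z Z : F} {i N : ℕ} (hN : N ≠ 0) (hg : g = S.D^[i] f) (hg0 : g ≠ 0)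
    (hz : z ∈ S.K) (hgz : S.D g = z * g) (hZ : Z ∈ S.K) (hZ0 : Z ≠ 0)
    (hq : S.D (f * (Z * g ^ N)) / (f * (Z * g ^ N) - 1) ∈ S.K) :
    f ∈ S.K ∨ f * (Z * g ^ N) ∈ S.K := by
  have hM0 : Z * g ^ N ≠ 0 := mul_ne_zero hZ0 (pow_ne_zero N hg0)
  by_cases hΨ : f * (Z * g ^ N) - 1 = 0
  · right
    rw [sub_eq_zero.mp hΨ]
    exact S.K.one_mem
  left
  obtain ⟨q, hqd⟩ : ∃ q, q = S.D (f * (Z * g ^ N)) / (f * (Z * g ^ N) - 1) := ⟨_, rfl⟩
  rw [← hqd] at hq
  have hqG : S.D (f * (Z * g ^ N)) = q * (f * (Z * g ^ N) - 1) := by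
    rw [hqd, div_mul_cancel₀ _ hΨ]
  -- the logarithmic derivative of `M`
  have hML : S.D (Z * g ^ N) / (Z * g ^ N) ∈ S.K := by
    rw [S.D_mul_div hZ0 (pow_ne_zero N hg0), S.D_pow_div hg0, hgz, mul_div_cancel_right₀ z hg0]
    exact S.K.add_mem (S.K.div_mem (S.D_mem Z hZ) hZ) (S.K.mul_mem (natCast_mem S.K N) hz)
  have hDM : S.D (Z * g ^ N) = S.D (Z * g ^ N) / (Z * g ^ N) * (Z * g ^ N) := by
    rw [div_mul_cancel₀ _ hM0]
  have hMv : (Z * g ^ N) * (Z * g ^ N)⁻¹ = 1 := mul_inv_cancel₀ hM0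
  have hDv : S.D (Z * g ^ N)⁻¹ = -(S.D (Z * g ^ N) / (Z * g ^ N)) * (Z * g ^ N)⁻¹ := by
    rw [S.D_inv hM0]
    field_simp
  generalize S.D (Z * g ^ N) / (Z * g ^ N) = lam at hML hDM hDv
  have hDy : S.D (f - (Z * g ^ N)⁻¹) = (q - lam) * (f - (Z * g ^ N)⁻¹) := by
    rw [S.D_sub, hDv]
    rw [S.mul, hDM] at hqG
    have h1 : (S.D f + lam * f - q * (f - (Z * g ^ N)⁻¹)) * (Z * g ^ N) = 0 := by
      linear_combination hqG + q * hMv
    rcases mul_eq_zero.mp h1 with h2 | h2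
    · linear_combination h2
    · exact absurd h2 hM0
  have hκ : q - lam ∈ S.K := S.K.sub_mem hq hML
  have hν : -lam ∈ S.K := S.K.neg_mem hML
  obtain ⟨a, ha, hya⟩ := S.lin1 hκ hDy i
  obtain ⟨b, hb, hvb⟩ := S.lin1 hν hDv i
  have hgab : g = a * (f - (Z * g ^ N)⁻¹) + b * (Z * g ^ N)⁻¹ := by
    conv_lhs => rw [hg]
    rw [← hya, ← hvb, ← iter_add46, sub_add_cancel]
  obtain ⟨y, hyd⟩ : ∃ y, y = f - (Z * g ^ N)⁻¹ := ⟨_, rfl⟩
  obtain ⟨v, hvd⟩ : ∃ v, v = (Z * g ^ N)⁻¹ := ⟨_, rfl⟩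
  have hfyv : f = y + v := by
    rw [hyd, hvd]
    ring
  rw [← hyd, ← hvd] at hgab
  rw [← hyd] at hya hDy
  rw [← hvd] at hvb hDv
  have hDay : S.D (a * y) = (S.D a + a * (q - lam)) * y := by
    rw [S.mul, hDy]
    ring
  have hDbv : S.D (b * v) = (S.D b + b * (-lam)) * v := by
    rw [S.mul, hDv]
    ring
  have hzg : z * g = (S.D a + a * (q - lam)) * y + (S.D b + b * (-lam)) * v := by
    rw [← hgz, ← hDay, ← hDbv, ← S.add, ← hgab]
  have ha' : S.D a + a * (q - lam) ∈ S.K := S.K.add_mem (S.D_mem a ha) (S.K.mul_mem ha hκ)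
  have hb' : S.D b + b * (-lam) ∈ S.K := S.K.add_mem (S.D_mem b hb) (S.K.mul_mem hb hν)
  have hyv : y ∈ S.K ∧ v ∈ S.K := by
    by_cases hne : (S.D a + a * (q - lam)) - z * a = 0 ∧
        (S.D a + a * (q - lam)) * b - a * (S.D b + b * (-lam)) = 0
    · exact S.caseA_dg hN hZ hZ0 hz ha hb hg0 hgz hvd hgab hya hvb hDay hDbv hne.1 hne.2
    · exact S.caseA_nd hZ hZ0 hz ha hb ha' hb' hg0 hvd hgab hzg hne
  rw [hfyv]
  exact S.K.add_mem hyv.1 hyv.2

end DF

end Pool.Agent.MP4b24a5.M1
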