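import Pool.Agent.Lib.MP_4b24a5_an_M1.DFld

set_option autoImplicit false

/-! MP_4b24a5_an, project M1, module CaseB1. -/

namespace Pool.Agent.MP4b24a5.M1

variable {F : Type*} [Field F]

namespace DF

variable [CharZero F] (S : DF F)

/-- `G = f f' - 1`, `G' = q G`, `f'' = A f' + φ f`, `q' = q (3 A - q)`, `B = q - A`. Then
`f' ^ 2 - B f f' + φ f ^ 2 = -q`. -/
theorem caseB_star {f A φ q : F} (hG : S.D (f * S.D f - 1) = q * (f * S.D f - 1))
    (h2 : S.D (S.D f) = A * S.D f + φ * f) :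
    (S.D f) ^ 2 - (q - A) * (f * S.D f) + φ * f ^ 2 = -q := by
  rw [S.D_sub, S.D_one, sub_zero, S.mul, h2] at hG
  linear_combination hG

/-- Differentiate `caseB_star`, use `q' = q (3 A - q)` and subtract `(3 A - q)` times the relation:
`X f' + Y f = 0` with `X = 4 φ - B' + A B - B ^ 2`, `Y = φ' - 2 A φ`, `B = q - A`. -/
theorem caseB_lin {f A φ q : F} (hf : f ≠ 0)
    (hG : S.D (f * S.D f - 1) = q * (f * S.D f - 1))
    (h2 : S.D (S.D f) = A * S.D f + φ * f) (hq : S.D q = q * (3 * A - q)) :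
    (4 * φ - S.D (q - A) + A * (q - A) - (q - A) ^ 2) * S.D f +
      (S.D φ - 2 * A * φ) * f = 0 := by
  have hs := S.caseB_star hG h2
  have hd := congrArg S.D hs
  rw [S.add, S.D_sub, S.D_neg, pow_two, pow_two, S.mul, S.mul (q - A), S.mul f (S.D f), S.mul φ,
    S.mul f f, h2, hq] at hd
  have key : f * ((4 * φ - S.D (q - A) + A * (q - A) - (q - A) ^ 2) * S.D f +
      (S.D φ - 2 * A * φ) * f) = 0 := by
    linear_combination hd - (3 * A - q) * hs
  exact (mul_eq_zero.1 key).resolve_left hf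

end DF

end Pool.Agent.MP4b24a5.M1
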