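import Pool.Agent.Lib.MP_4b24a5_an_M1.DFld

set_option autoImplicit false

/-! MP_4b24a5_an, project M1, module Cr. -/

namespace Pool.Agent.MP4b24a5.M1

variable {F : Type*} [Field F]

namespace DF

variable (S : DF F)

/-- the monomial `E u ^ N h (p' h + p u)`, `u = h'` -/
def PsC (p h E : F) (N : ℕ) : F := E * (S.D h) ^ N * (h * (S.D p * h + p * S.D h))

/-- the data of the last case -/
structure Core (p h a E q : F) (N : ℕ) : Prop where
  hp : p ∈ S.K
  hp0 : p ≠ 0
  ha : a ∈ S.K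
  hE : E ∈ S.K
  hE0 : E ≠ 0
  hq : q ∈ S.K
  hq0 : q ≠ 0
  hN : N ≠ 0
  hu0 : S.D h ≠ 0
  hu : S.D (S.D h) = a * S.D h
  hΨ : S.D (S.PsC p h E N) = q * (S.PsC p h E N - 1)

/-- `λ₀ = E' / E + N a - q` -/
def l0 (a E q : F) (N : ℕ) : F := S.D E / E + N * a - q

/-- the coefficient of `h ^ 2` -/
def al (p a E q : F) (N : ℕ) : F := S.l0 a E q N * S.D p + S.D (S.D p)

/-- the coefficient of `h u` -/
def be (p a E q : F) (N : ℕ) : F := S.l0 a E q N * p + 3 * S.D p + p * a

/-- `σ = s' / s - N a` with `s = q / E` -/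
def sg (a E q : F) (N : ℕ) : F := S.D (q / E) / (q / E) - N * a

/-- `W = s u ^ (-N)` -/
def WW (h E q : F) (N : ℕ) : F := q / E * ((S.D h) ^ N)⁻¹

/-- the three coefficients of the differentiated relation -/
def t1 (p a E q : F) (N : ℕ) : F := S.D (S.al p a E q N) - S.sg a E q N * S.al p a E q N

def t2 (p a E q : F) (N : ℕ) : F := 2 * S.al p a E q N + S.D (S.be p a E q N) +
  a * S.be p a E q N - S.sg a E q N * S.be p a E q N

def t3 (p a E q : F) (N : ℕ) : F := S.be p a E q N + S.D p + 2 * a * p - S.sg a E q N * p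

end DF

end Pool.Agent.MP4b24a5.M1
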