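import Pool.Agent.Lib.MP_4b24a5_an_M1.Cr

set_option autoImplicit false

/-! MP_4b24a5_an, project M1, module CrA. -/

namespace Pool.Agent.MP4b24a5.M1

variable {F : Type*} [Field F]

namespace DF

variable {S : DF F} {p h a E q : F} {N : ℕ}

/-- `(u ^ N)' = N a u ^ N` -/
private theorem CrA_D_uN (c : S.Core p h a E q N) :
    S.D ((S.D h) ^ N) = N * a * (S.D h) ^ N := by
  rw [S.D_pow, c.hu]
  obtain ⟨m, rfl⟩ := Nat.exists_eq_succ_of_ne_zero c.hN
  simp only [Nat.succ_eq_add_one, Nat.add_sub_cancel]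
  ring

private theorem CrA_uN_ne (c : S.Core p h a E q N) : (S.D h) ^ N ≠ 0 := pow_ne_zero _ c.hu0

/-- `W' = σ W`. -/
theorem Core.D_WW (c : S.Core p h a E q N) :
    S.D (S.WW h E q N) = S.sg a E q N * S.WW h E q N := by
  have h1 := CrA_D_uN c
  have h2 := CrA_uN_ne c
  have hs : q / E ≠ 0 := div_ne_zero c.hq0 c.hE0
  have h3 : S.D (((S.D h) ^ N)⁻¹) = -(N * a) * ((S.D h) ^ N)⁻¹ := by
    rw [S.D_inv h2, h1]
    field_simp
  unfold WW sg
  rw [S.mul, h3, sub_mul, ← mul_assoc (S.D (q / E) / (q / E)), div_mul_cancel₀ _ hs]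
  ring

/-- The relation `α h ^ 2 + β h u + p u ^ 2 = - W` (`u = h'`): it is `Ψ' - q Ψ = -q` divided by
`E u ^ N`, because `(u ^ N)' = N a u ^ N`. -/
theorem Core.rel (c : S.Core p h a E q N) :
    S.al p a E q N * h ^ 2 + S.be p a E q N * (h * S.D h) + p * (S.D h) ^ 2 = -S.WW h E q N := by
  have h1 := CrA_D_uN c
  have h2 := CrA_uN_ne c
  have h3 := c.hΨ
  have hE0 := c.hE0
  have hY : S.D (h * (S.D p * h + p * S.D h)) =
      S.D (S.D p) * h ^ 2 + (3 * S.D p + p * a) * (h * S.D h) + p * (S.D h) ^ 2 := by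
    rw [S.mul, S.add, S.mul, S.mul, c.hu]
    ring
  unfold PsC at h3
  rw [S.mul, S.mul, hY, h1] at h3
  have h4 : E * (S.D h) ^ N * (S.al p a E q N * h ^ 2 + S.be p a E q N * (h * S.D h) +
      p * (S.D h) ^ 2) = -q := by
    have h5 : E * S.l0 a E q N = S.D E + E * (N * a) - E * q := by
      unfold l0
      field_simp
    unfold al be
    linear_combination h3 + (S.D h) ^ N * (S.D p * h ^ 2 + p * (h * S.D h)) * h5
  have h6 : S.WW h E q N = q / (E * (S.D h) ^ N) := by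
    unfold WW
    field_simp
  rw [h6, ← neg_div, eq_div_iff (mul_ne_zero hE0 h2), ← h4]
  ring

/-- The differentiated relation (use `rel`, `D_WW` and `u' = a u`). -/
theorem Core.rel' (c : S.Core p h a E q N) :
    S.t1 p a E q N * h ^ 2 + S.t2 p a E q N * (h * S.D h) + S.t3 p a E q N * (S.D h) ^ 2 = 0 := by
  have h1 := c.rel
  have h2 := congrArg S.D h1
  rw [S.D_neg, c.D_WW, S.add, S.add, S.mul, S.mul (S.be p a E q N), S.mul h, S.mul p, S.D_pow,
    S.D_pow, c.hu] at h2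
  simp only [Nat.add_one_sub_one, pow_one, Nat.cast_ofNat] at h2
  unfold t1 t2 t3
  linear_combination h2 - S.sg a E q N * h1

end DF

end Pool.Agent.MP4b24a5.M1
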