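import Pool.Agent.Lib.MP_4b24a5_an_M1.CrA
import Pool.Agent.Lib.MP_4b24a5_an_M1.Prim

set_option autoImplicit false

/-! MP_4b24a5_an, project M1, module CrB. -/

namespace Pool.Agent.MP4b24a5.M1

variable {F : Type*} [Field F]

namespace DF

variable [CharZero F] {S : DF F} {p h a E q : F} {N : ℕ}

/-- all coefficients are small -/
theorem Core.mem (c : S.Core p h a E q N) : S.l0 a E q N ∈ S.K ∧ S.al p a E q N ∈ S.K ∧
    S.be p a E q N ∈ S.K ∧ S.sg a E q N ∈ S.K ∧ S.t1 p a E q N ∈ S.K ∧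
    S.t2 p a E q N ∈ S.K ∧ S.t3 p a E q N ∈ S.K := by
  have e2 : (2 : F) ∈ S.K := ofNat_mem S.K 2
  have e3 : (3 : F) ∈ S.K := ofNat_mem S.K 3
  have eN : (N : F) ∈ S.K := natCast_mem S.K N
  have hNa : (N : F) * a ∈ S.K := S.K.mul_mem eN c.ha
  have hDp : S.D p ∈ S.K := S.D_mem p c.hp
  have h1 : S.l0 a E q N ∈ S.K :=
    S.K.sub_mem (S.K.add_mem (S.K.div_mem (S.D_mem E c.hE) c.hE) hNa) c.hq
  have h2 : S.al p a E q N ∈ S.K := S.K.add_mem (S.K.mul_mem h1 hDp) (S.D_mem _ hDp)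
  have h3 : S.be p a E q N ∈ S.K :=
    S.K.add_mem (S.K.add_mem (S.K.mul_mem h1 c.hp) (S.K.mul_mem e3 hDp)) (S.K.mul_mem c.hp c.ha)
  have hs : q / E ∈ S.K := S.K.div_mem c.hq c.hE
  have h4 : S.sg a E q N ∈ S.K := S.K.sub_mem (S.K.div_mem (S.D_mem _ hs) hs) hNa
  refine ⟨h1, h2, h3, h4, ?_, ?_, ?_⟩
  · exact S.K.sub_mem (S.D_mem _ h2) (S.K.mul_mem h4 h2)
  · exact S.K.sub_mem (S.K.add_mem (S.K.add_mem (S.K.mul_mem e2 h2) (S.D_mem _ h3))
      (S.K.mul_mem c.ha h3)) (S.K.mul_mem h4 h3)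
  · exact S.K.sub_mem (S.K.add_mem (S.K.add_mem h3 hDp)
      (S.K.mul_mem (S.K.mul_mem e2 c.ha) c.hp)) (S.K.mul_mem h4 c.hp)

/-- If a coefficient `t1`, `t2`, `t3` is not `0`, then `x = h / u` is small (divide `rel'` by
`u ^ 2`, `quad_mem`); `rel` divided by `u ^ 2` gives `α x ^ 2 + β x + p = - s u ^ (-(N + 2))`, so
`u ^ (N + 2)` is small, `u` is small (`S.root`), `h = x u` is small. -/
theorem Core.nontriv (c : S.Core p h a E q N)
    (hne : ¬ (S.t1 p a E q N = 0 ∧ S.t2 p a E q N = 0 ∧ S.t3 p a E q N = 0)) : h ∈ S.K := by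
  obtain ⟨_, hal, hbe, _, ht1, ht2, ht3⟩ := c.mem
  have hu0 := c.hu0
  have hrel := c.rel
  have hrel' := c.rel'
  unfold WW at hrel
  set u := S.D h with hu
  have hh : h = h / u * u := by rw [div_mul_cancel₀ _ hu0]
  set x := h / u with hx
  have hxK : x ∈ S.K := by
    refine S.quad_mem ht1 ht2 ht3 ?_ hne
    have h1 : (S.t1 p a E q N * x ^ 2 + S.t2 p a E q N * x + S.t3 p a E q N) * u ^ 2 = 0 := by
      rw [← hrel', hh]
      ring
    exact (mul_eq_zero.1 h1).resolve_right (pow_ne_zero 2 hu0)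
  set y := S.al p a E q N * x ^ 2 + S.be p a E q N * x + p with hy
  have hyK : y ∈ S.K := S.K.add_mem (S.K.add_mem (S.K.mul_mem hal (pow_mem hxK 2))
    (S.K.mul_mem hbe hxK)) c.hp
  have hs : q / E ∈ S.K := S.K.div_mem c.hq c.hE
  have hs0 : q / E ≠ 0 := div_ne_zero c.hq0 c.hE0
  have h2 : u ^ (N + 2) * y = -(q / E) := by
    have h3 : y * u ^ 2 = -(q / E * (u ^ N)⁻¹) := by
      rw [← hrel, hy, hh]
      ring
    have h4 : u ^ (N + 2) * y = u ^ N * (y * u ^ 2) := by ring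
    rw [h4, h3]
    have h5 : u ^ N ≠ 0 := pow_ne_zero N hu0
    field_simp
  have hy0 : y ≠ 0 := by
    intro h3
    rw [h3, mul_zero] at h2
    exact hs0 (neg_eq_zero.1 h2.symm)
  have huN : u ^ (N + 2) ∈ S.K := by
    rw [eq_div_of_mul_eq hy0 h2]
    exact S.K.div_mem (S.K.neg_mem hs) hyK
  have huK : u ∈ S.K := S.root u (N + 2) (by omega) huN
  rw [hh]
  exact S.K.mul_mem hxK huK

end DF

end Pool.Agent.MP4b24a5.M1
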