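import Pool.Agent.Lib.MP_4b24a5_an.Defs

set_option autoImplicit false

/-!
# MP_4b24a5_an, project M1: differential fields with a subfield of small elements
-/

namespace Pool.Agent.MP4b24a5.M1

/-- A field `F` with a derivation `D` and a subfield `K` (the small elements), closed under `D` and
under roots, which contains all constants and an element `ξ` with `D ξ = 1`. -/
structure DF (F : Type*) [Field F] where
  D : F → F
  add : ∀ x y, D (x + y) = D x + D y
  mul : ∀ x y, D (x * y) = D x * y + x * D y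
  K : Subfield F
  D_mem : ∀ x ∈ K, D x ∈ K
  root : ∀ (x : F) (n : ℕ), n ≠ 0 → x ^ n ∈ K → x ∈ K
  const : ∀ x, D x = 0 → x ∈ K
  ξ : F
  ξ_mem : ξ ∈ K
  D_ξ : D ξ = 1

namespace DF

variable {F : Type*} [Field F] (S : DF F)

theorem D_zero : S.D 0 = 0 := by
  have h := S.add 0 0
  rw [add_zero] at h
  simpa using h

theorem D_one : S.D 1 = 0 := by
  have h := S.mul 1 1
  rw [mul_one, mul_one, one_mul] at h
  simpa using h

theorem D_neg (x : F) : S.D (-x) = -S.D x := by
  have h := S.add x (-x)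
  rw [add_neg_cancel, S.D_zero] at h
  exact (neg_eq_of_add_eq_zero_right h.symm).symm

theorem D_sub (x y : F) : S.D (x - y) = S.D x - S.D y := by
  rw [sub_eq_add_neg, S.add, S.D_neg, ← sub_eq_add_neg]

theorem D_natCast (n : ℕ) : S.D (n : F) = 0 := by
  induction n with
  | zero => simpa using S.D_zero
  | succ n ih => rw [Nat.cast_succ, S.add, ih, S.D_one, add_zero]

theorem D_two : S.D 2 = 0 := by simpa using S.D_natCast 2

theorem D_three : S.D 3 = 0 := by simpa using S.D_natCast 3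

theorem D_const_mul {c : F} (hc : S.D c = 0) (x : F) : S.D (c * x) = c * S.D x := by
  rw [S.mul, hc, zero_mul, zero_add]

theorem D_pow (x : F) (n : ℕ) : S.D (x ^ n) = (n : F) * x ^ (n - 1) * S.D x := by
  induction n with
  | zero => simpa using S.D_one
  | succ n ih =>
    rw [pow_succ, S.mul, ih]
    rcases Nat.eq_zero_or_pos n with h | h
    · subst h; simp
    · obtain ⟨m, rfl⟩ := Nat.exists_eq_succ_of_ne_zero h.ne'
      simp only [Nat.succ_eq_add_one, Nat.add_sub_cancel]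
      push_cast
      ring

theorem D_inv {x : F} (hx : x ≠ 0) : S.D x⁻¹ = -(S.D x) / x ^ 2 := by
  have h := S.mul x x⁻¹
  rw [mul_inv_cancel₀ hx, S.D_one] at h
  rw [eq_div_iff (pow_ne_zero 2 hx)]
  have h1 : S.D x⁻¹ * x ^ 2 = x * (x * S.D x⁻¹) := by ring
  have h2 : x * S.D x⁻¹ = -(S.D x * x⁻¹) := by linear_combination -h
  rw [h1, h2]
  field_simp

theorem D_div (x : F) {y : F} (hy : y ≠ 0) : S.D (x / y) = (S.D x * y - x * S.D y) / y ^ 2 := by
  rw [div_eq_mul_inv, S.mul, S.D_inv hy]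
  field_simp
  ring

/-- logarithmic derivative of a power -/
theorem D_pow_div {x : F} (hx : x ≠ 0) (n : ℕ) : S.D (x ^ n) / x ^ n = n * (S.D x / x) := by
  rw [S.D_pow]
  rcases Nat.eq_zero_or_pos n with h | h
  · subst h; simp
  · obtain ⟨m, rfl⟩ := Nat.exists_eq_succ_of_ne_zero h.ne'
    simp only [Nat.succ_eq_add_one, Nat.add_sub_cancel]
    field_simp
    ring

/-- logarithmic derivative of a product -/
theorem D_mul_div {x y : F} (hx : x ≠ 0) (hy : y ≠ 0) :
    S.D (x * y) / (x * y) = S.D x / x + S.D y / y := by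
  rw [S.mul]
  field_simp

/-- two elements with the same logarithmic derivative differ by a constant factor -/
theorem const_of_ld {x y : F} (hx : x ≠ 0) (hy : y ≠ 0) (h : S.D x / x = S.D y / y) :
    ∃ c, c ≠ 0 ∧ S.D c = 0 ∧ x = c * y := by
  refine ⟨x / y, div_ne_zero hx hy, ?_, by field_simp⟩
  rw [S.D_div x hy]
  have h1 : S.D x * y - x * S.D y = 0 := by
    rw [div_eq_div_iff hx hy] at h
    linear_combination h
  rw [h1, zero_div]

/-- the product `∏ (D ^ j f) ^ (m j)` -/
def Psf {k : ℕ} (m : Fin (k + 1) → ℕ) (f : F) : F :=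
  ∏ j : Fin (k + 1), (S.D^[(j : ℕ)] f) ^ m j

/-- the product of the factors with `j ≥ 2` -/
def Rsf {k : ℕ} (m : Fin (k + 1) → ℕ) (f : F) : F :=
  ∏ j : Fin (k + 1), if (j : ℕ) < 2 then 1 else (S.D^[(j : ℕ)] f) ^ m j

/-- `A = (Ψ'' / Ψ' - 2 R' / R) / 3` -/
def Asf {k : ℕ} (m : Fin (k + 1) → ℕ) (f : F) : F :=
  (S.D (S.D (S.Psf m f)) / S.D (S.Psf m f) - 2 * (S.D (S.Rsf m f) / S.Rsf m f)) / 3

/-- `φ = (f'' - A f') / f` -/
def phsf {k : ℕ} (m : Fin (k + 1) → ℕ) (f : F) : F :=
  (S.D (S.D f) - S.Asf m f * S.D f) / f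

end DF

end Pool.Agent.MP4b24a5.M1
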