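import Pool.Agent.Lib.MP_4b24a5_an.Fin

set_option autoImplicit false

/-!
# MP_4b24a5_an, project M1 (`m 0 = 1`): definitions
-/

noncomputable section

namespace Pool.Agent.MP4b24a5.M1

open Complex Metric Real MeasureTheory Filter Topology

/-! ### Analysis -/

/-- poles with multiplicity -/
def Pm (h : ℂ → ℂ) (u : ℂ) : ℝ := ((max (-od h u) 0 : ℤ) : ℝ)

/-- the characteristic of `h` is, near the boundary, at most about `c * L` -/
def Bd (c : ℝ) (h : ℂ → ℂ) : Prop :=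
  ∀ᶠ r in 𝓝[<] (1 : ℝ), prox h r ≤ c * L r ∧ S (Pm h) r ≤ c * L r

/-- normalized counterexamples: `f` is analytic and slow, no derivative vanishes identically,
`Ψ_f` is not constant and takes the value `1` only finitely often -/
structure Hy {k : ℕ} (m : Fin (k + 1) → ℕ) (f : ℂ → ℂ) : Prop where
  an : AnalyticOnNhd ℂ f (ball 0 1)
  slow : Slow f
  mer : ∀ j : ℕ, Mer (iteratedDeriv j f)
  merD : Mer (deriv (Psi m f))
  fin : {z | z ∈ ball (0 : ℂ) 1 ∧ Psi m f z = 1}.Finite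

/-- `q = Ψ' / (Ψ - 1)` -/
def qf {k : ℕ} (m : Fin (k + 1) → ℕ) (f : ℂ → ℂ) (z : ℂ) : ℂ :=
  deriv (Psi m f) z / (Psi m f z - 1)

/-- the product of the factors of `Ψ` with `j ≥ 2` -/
def Rf {k : ℕ} (m : Fin (k + 1) → ℕ) (f : ℂ → ℂ) (z : ℂ) : ℂ :=
  ∏ j : Fin (k + 1), if (j : ℕ) < 2 then 1 else iteratedDeriv (j : ℕ) f z ^ m j

/-- `A = (Ψ'' / Ψ' - 2 R' / R) / 3` -/
def Af {k : ℕ} (m : Fin (k + 1) → ℕ) (f : ℂ → ℂ) (z : ℂ) : ℂ :=
  (deriv (deriv (Psi m f)) z / deriv (Psi m f) z - 2 * (deriv (Rf m f) z / Rf m f z)) / 3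

/-- `φ = (f'' - A f') / f` -/
def phf {k : ℕ} (m : Fin (k + 1) → ℕ) (f : ℂ → ℂ) (z : ℂ) : ℂ :=
  (deriv (deriv f) z - Af m f z * deriv f z) / f z

/-! ### The field of germs at `0` of meromorphic functions in the disc -/

/-- germs at `0` (with `0` deleted) -/
abbrev G0 : Type := Germ (𝓝[≠] (0 : ℂ)) ℂ

/-- the germs of the functions which are meromorphic in the unit disc -/
def MF : Subring G0 where
  carrier := {x | ∃ h : ℂ → ℂ, MeromorphicOn h (ball 0 1) ∧ (h : G0) = x}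
  mul_mem' := by
    rintro _ _ ⟨h, hh, rfl⟩ ⟨g, hg, rfl⟩
    exact ⟨h * g, fun z hz => (hh z hz).mul (hg z hz), rfl⟩
  one_mem' := ⟨fun _ => 1, fun z _ => MeromorphicAt.const 1 z, rfl⟩
  add_mem' := by
    rintro _ _ ⟨h, hh, rfl⟩ ⟨g, hg, rfl⟩
    exact ⟨h + g, fun z hz => (hh z hz).add (hg z hz), rfl⟩
  zero_mem' := ⟨fun _ => 0, fun z _ => MeromorphicAt.const 0 z, rfl⟩
  neg_mem' := by
    rintro _ ⟨h, hh, rfl⟩
    exact ⟨-h, fun z hz => (hh z hz).neg, rfl⟩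

/-- the field of germs of meromorphic functions -/
abbrev F0 : Type := MF

theorem MF_inv {x : G0} (hx : x ∈ MF) : x⁻¹ ∈ MF := by
  obtain ⟨h, hh, rfl⟩ := hx
  exact ⟨h⁻¹, fun z hz => (hh z hz).inv, rfl⟩

theorem MF_mul_inv {x : G0} (hx : x ∈ MF) (h0 : x ≠ 0) : x * x⁻¹ = 1 := by
  obtain ⟨h, hh, rfl⟩ := hx
  have h1 : MeromorphicAt h 0 := hh 0 (mem_ball_self one_pos)
  rcases h1.eventually_eq_zero_or_eventually_ne_zero with h2 | h2
  · exfalso
    apply h0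
    exact Germ.coe_eq.2 h2
  · rw [← Germ.coe_inv, ← Germ.coe_mul]
    refine Germ.coe_eq.2 ?_
    filter_upwards [h2] with z hz
    exact mul_inv_cancel₀ hz

instance : Field F0 :=
  { (inferInstance : CommRing F0) with
    inv := fun x => ⟨x.1⁻¹, MF_inv x.2⟩
    exists_pair_ne := ⟨0, 1, fun h => by
      have h1 : (0 : G0) = 1 := congrArg Subtype.val h
      exact zero_ne_one h1⟩
    mul_inv_cancel := fun x hx => Subtype.ext (MF_mul_inv x.2 (fun h => hx (Subtype.ext h)))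
    inv_zero := Subtype.ext (by
      change ((fun _ : ℂ => (0 : ℂ) : ℂ → ℂ) : G0)⁻¹ = ((fun _ : ℂ => (0 : ℂ) : ℂ → ℂ) : G0)
      rw [← Germ.coe_inv]
      refine Germ.coe_eq.2 (Eventually.of_forall fun z => ?_)
      simp)
    nnqsmul := _
    nnqsmul_def := fun _ _ => rfl
    qsmul := _
    qsmul_def := fun _ _ => rfl }

/-- the germ of a function which is meromorphic in the disc -/
def mk (h : ℂ → ℂ) (hh : MeromorphicOn h (ball 0 1)) : F0 := ⟨(h : G0), h, hh, rfl⟩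

theorem exists_mk (x : F0) : ∃ h hh, mk h hh = x := by
  obtain ⟨x, h, hh, rfl⟩ := x
  exact ⟨h, hh, rfl⟩

theorem mk_eq {h g : ℂ → ℂ} {hh : MeromorphicOn h (ball 0 1)} {hg : MeromorphicOn g (ball 0 1)} :
    mk h hh = mk g hg ↔ h =ᶠ[𝓝[≠] (0 : ℂ)] g := by
  rw [mk, mk, Subtype.mk.injEq, Germ.coe_eq]

end Pool.Agent.MP4b24a5.M1
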