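import Pool.Agent.Lib.MP_4b24a5_an_M1.Defs
import Pool.Agent.Lib.MP_4b24a5_an_M1.DFld

set_option autoImplicit false

/-!
# MP_4b24a5_an, project M1: the derivation on the field of germs, the ultrapower
-/

noncomputable section

namespace Pool.Agent.MP4b24a5.M1

open Complex Metric Real MeasureTheory Filter Topology

private theorem der_congr {h g : ℂ → ℂ} (he : h =ᶠ[𝓝[≠] (0 : ℂ)] g) :
    deriv h =ᶠ[𝓝[≠] (0 : ℂ)] deriv g := by
  have h1 : ∀ᶠ z in 𝓝[≠] (0 : ℂ), ∀ᶠ y in 𝓝[≠] (0 : ℂ), True := by simp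
  rw [Filter.EventuallyEq, eventually_nhdsWithin_iff] at he
  have h2 := eventually_eventually_nhds.2 he
  rw [Filter.EventuallyEq, eventually_nhdsWithin_iff]
  filter_upwards [h2] with z hz hz0
  have h3 : h =ᶠ[𝓝 z] g := by
    have h4 : ∀ᶠ y in 𝓝 z, y ∈ ({0}ᶜ : Set ℂ) := isOpen_compl_singleton.mem_nhds hz0
    filter_upwards [hz, h4] with y hy hy0 using hy hy0
  exact h3.deriv_eq

/-- the derivation on `F0` -/
def D0 (x : F0) : F0 := mk (deriv (exists_mk x).choose)
  (MeromorphicOn.deriv (exists_mk x).choose_spec.choose)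

theorem D0_mk (h : ℂ → ℂ) (hh : MeromorphicOn h (ball 0 1)) :
    D0 (mk h hh) = mk (deriv h) hh.deriv := by
  rw [D0, mk_eq]
  exact der_congr (mk_eq.1 (exists_mk (mk h hh)).choose_spec.choose_spec)

theorem mk_add {h g : ℂ → ℂ} (hh : MeromorphicOn h (ball 0 1)) (hg : MeromorphicOn g (ball 0 1)) :
    mk h hh + mk g hg = mk (h + g) (fun z hz => (hh z hz).add (hg z hz)) := rfl

theorem mk_mul {h g : ℂ → ℂ} (hh : MeromorphicOn h (ball 0 1)) (hg : MeromorphicOn g (ball 0 1)) :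
    mk h hh * mk g hg = mk (h * g) (fun z hz => (hh z hz).mul (hg z hz)) := rfl

theorem mk_sub {h g : ℂ → ℂ} (hh : MeromorphicOn h (ball 0 1)) (hg : MeromorphicOn g (ball 0 1)) :
    mk h hh - mk g hg = mk (h - g) (fun z hz => (hh z hz).sub (hg z hz)) := rfl

theorem mk_inv {h : ℂ → ℂ} (hh : MeromorphicOn h (ball 0 1)) :
    (mk h hh)⁻¹ = mk h⁻¹ (fun z hz => (hh z hz).inv) := rfl

theorem mk_div {h g : ℂ → ℂ} (hh : MeromorphicOn h (ball 0 1)) (hg : MeromorphicOn g (ball 0 1)) :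
    mk h hh / mk g hg = mk (h / g) (fun z hz => (hh z hz).div (hg z hz)) := by
  rw [div_eq_mul_inv, mk_inv, mk_mul, mk_eq]
  refine Eventually.of_forall fun z => ?_
  simp [div_eq_mul_inv]

theorem mk_one : mk (fun _ => 1) (fun z _ => MeromorphicAt.const 1 z) = 1 := rfl

theorem mk_zero : mk (fun _ => 0) (fun z _ => MeromorphicAt.const 0 z) = 0 := rfl

private theorem ev_diff {h : ℂ → ℂ} (hh : MeromorphicOn h (ball 0 1)) :
    ∀ᶠ z in 𝓝[≠] (0 : ℂ), DifferentiableAt ℂ h z := by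
  have h1 : MeromorphicAt h 0 := hh 0 (mem_ball_self one_pos)
  filter_upwards [h1.eventually_analyticAt] with z hz using hz.differentiableAt

theorem D0_add (x y : F0) : D0 (x + y) = D0 x + D0 y := by
  obtain ⟨h, hh, rfl⟩ := exists_mk x
  obtain ⟨g, hg, rfl⟩ := exists_mk y
  rw [mk_add, D0_mk, D0_mk, D0_mk, mk_add, mk_eq]
  filter_upwards [ev_diff hh, ev_diff hg] with z h1 h2
  exact deriv_add h1 h2

theorem D0_mul (x y : F0) : D0 (x * y) = D0 x * y + x * D0 y := by
  obtain ⟨h, hh, rfl⟩ := exists_mk x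
  obtain ⟨g, hg, rfl⟩ := exists_mk y
  rw [mk_mul, D0_mk, D0_mk, D0_mk, mk_mul, mk_mul, mk_add, mk_eq]
  filter_upwards [ev_diff hh, ev_diff hg] with z h1 h2
  exact deriv_mul h1 h2

/-- the ultrapower of the field of germs -/
abbrev Fs : Type := Germ ((hyperfilter ℕ : Ultrafilter ℕ) : Filter ℕ) F0

/-- the derivation of the ultrapower -/
def Ds : Fs → Fs := Germ.map D0

theorem Ds_coe (x : ℕ → F0) : Ds (x : Fs) = ((fun n => D0 (x n) : ℕ → F0) : Fs) := rfl

theorem Ds_add (x y : Fs) : Ds (x + y) = Ds x + Ds y := by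
  induction x using Germ.inductionOn with
  | _ f =>
    induction y using Germ.inductionOn with
    | _ g =>
      rw [← Germ.coe_add, Ds_coe, Ds_coe, Ds_coe, ← Germ.coe_add, Germ.coe_eq]
      exact Eventually.of_forall fun n => D0_add _ _

theorem Ds_mul (x y : Fs) : Ds (x * y) = Ds x * y + x * Ds y := by
  induction x using Germ.inductionOn with
  | _ f =>
    induction y using Germ.inductionOn with
    | _ g =>
      rw [← Germ.coe_mul, Ds_coe, Ds_coe, Ds_coe, ← Germ.coe_mul, ← Germ.coe_mul,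
        ← Germ.coe_add, Germ.coe_eq]
      exact Eventually.of_forall fun n => D0_mul _ _

/-- bounded germs -/
def BF (c : ℝ) (x : F0) : Prop := ∃ h hh, mk h hh = x ∧ Bd c h

/-- uniformly bounded families -/
def KsP (x : Fs) : Prop := ∃ c : ℝ, x.LiftPred (BF c)

theorem KsP_coe {x : ℕ → F0} : KsP (x : Fs) ↔
    ∃ c : ℝ, ∀ᶠ n in ((hyperfilter ℕ : Ultrafilter ℕ) : Filter ℕ), BF c (x n) := Iff.rfl

instance : CharZero F0 := by
  refine ⟨fun a b h => ?_⟩
  have h1 : ∀ n : ℕ, ((n : F0) : G0) = ((fun _ => (n : ℂ) : ℂ → ℂ) : G0) := by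
    intro n
    induction n with
    | zero => simp; rfl
    | succ n ih =>
      rw [Nat.cast_succ]
      change ((n : F0) : G0) + 1 = _
      rw [ih]
      change ((((fun _ => (n : ℂ)) + 1 : ℂ → ℂ)) : G0) = _
      refine Germ.coe_eq.2 (Eventually.of_forall fun z => ?_)
      simp
  have h2 : ((fun _ => (a : ℂ) : ℂ → ℂ) : G0) = ((fun _ => (b : ℂ) : ℂ → ℂ) : G0) := by
    rw [← h1, ← h1, h]
  rw [Germ.coe_eq] at h2
  obtain ⟨z, hz⟩ := h2.exists
  simp only [Nat.cast_inj] at hz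
  exact hz

instance : CharZero Fs := by
  refine ⟨fun a b h => ?_⟩
  have h1 : ∀ n : ℕ, (n : Fs) = ((fun _ => (n : F0) : ℕ → F0) : Fs) := by
    intro n
    induction n with
    | zero => simp; rfl
    | succ n ih =>
      push_cast
      rw [ih]
      rfl
  rw [h1, h1, Germ.coe_eq] at h
  obtain ⟨z, hz⟩ := h.exists
  simp only [Nat.cast_inj] at hz
  exact hz

end Pool.Agent.MP4b24a5.M1
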