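import Pool.Agent.Lib.MP_4b24a5_an_M1.Itr

set_option autoImplicit false

/-! MP_4b24a5_an, project M1, module Dich. -/

namespace Pool.Agent.MP4b24a5.M1

variable {F : Type*} [Field F]

namespace DF

variable (S : DF F)

/-- Write `g = P f' + Q f`, `D g = P⁺ f' + Q⁺ f` (`PQ`, `PQ_iter`), so
`(P⁺ - z P) f' + (Q⁺ - z Q) f = 0`. If a coefficient is not `0`, then `f' = μ f` with `μ` small
(`f ≠ 0`; if the first coefficient is `0` then so is the second). If both are `0`: `P ≠ 0`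
(if `P = 0`, then `P⁺ = Q`, so `Q = z P = 0` and `g = 0`); `l = -Q / P` satisfies
`l' + l ^ 2 = A l + φ` and `lamS l i = P l + Q = 0` (`lamS_eq`), so `exists_p` applies, and
`g = P (f' - l f)`. -/
theorem dich {f A φ g z : F} {i : ℕ} (hA : A ∈ S.K) (hφ : φ ∈ S.K) (hf : f ≠ 0)
    (h2 : S.D (S.D f) = A * S.D f + φ * f) (hg : g = S.D^[i] f) (hg0 : g ≠ 0) (hz : z ∈ S.K)
    (hgz : S.D g = z * g) : (∃ μ ∈ S.K, S.D f = μ * f) ∨
      ∃ P ∈ S.K, ∃ p ∈ S.K, ∃ l ∈ S.K, P ≠ 0 ∧ p ≠ 0 ∧ S.D p = l * p ∧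
        S.D l + l ^ 2 = A * l + φ ∧ g = P * (S.D f - l * f) := by
  obtain ⟨hPm, hQm⟩ := S.PQ_mem hA hφ i
  have hg1 := S.PQ_iter h2 i
  have hg2 := S.PQ_iter h2 (i + 1)
  rw [Function.iterate_succ_apply', ← hg, hgz] at hg2
  rw [← hg] at hg1
  have hlam := fun l h => S.lamS_eq (A := A) (φ := φ) (l := l) h i
  simp only [PQ] at hg2
  set P := (S.PQ A φ i).1 with hP
  set Q := (S.PQ A φ i).2 with hQ
  have rel : (S.D P + P * A + Q - z * P) * S.D f + (S.D Q + P * φ - z * Q) * f = 0 := by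
    rw [hg1] at hg2
    linear_combination -hg2
  by_cases h1 : S.D P + P * A + Q - z * P = 0
  · right
    have h3 : S.D Q + P * φ - z * Q = 0 := by
      rw [h1, zero_mul, zero_add] at rel
      exact (mul_eq_zero.1 rel).resolve_right hf
    have hP0 : P ≠ 0 := by
      intro h
      rw [h, S.D_zero] at h1
      have hQ0 : Q = 0 := by linear_combination h1
      apply hg0
      rw [hg1, h, hQ0]
      ring
    have hl : S.D (-Q / P) + (-Q / P) ^ 2 = A * (-Q / P) + φ := by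
      rw [S.D_div _ hP0, S.D_neg]
      have e1 : S.D P = z * P - P * A - Q := by linear_combination h1
      have e2 : S.D Q = z * Q - P * φ := by linear_combination h3
      rw [e1, e2]
      field_simp
      ring
    have hlm : -Q / P ∈ S.K := S.K.div_mem (S.K.neg_mem hQm) hPm
    have hl0 : S.lamS (-Q / P) i = 0 := by
      rw [hlam _ hl]
      field_simp
      ring
    obtain ⟨p, hp, hp0, hpl⟩ := S.exists_p hlm hl0
    refine ⟨P, hPm, p, hp, -Q / P, hlm, hP0, hp0, hpl, hl, ?_⟩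
    rw [hg1]
    field_simp
    ring
  · left
    refine ⟨-(S.D Q + P * φ - z * Q) / (S.D P + P * A + Q - z * P), ?_, ?_⟩
    · refine S.K.div_mem (S.K.neg_mem ?_) ?_
      · exact S.K.sub_mem (S.K.add_mem (S.D_mem _ hQm) (S.K.mul_mem hPm hφ)) (S.K.mul_mem hz hQm)
      · exact S.K.sub_mem (S.K.add_mem (S.K.add_mem (S.D_mem _ hPm) (S.K.mul_mem hPm hA)) hQm)
          (S.K.mul_mem hz hPm)
    · rw [div_mul_eq_mul_div, eq_div_iff h1]
      linear_combination rel

/-- With `h = f / p`: `D f - l f = p D h` and `D (D h) = (A - 2 l) D h`. -/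
theorem red {f A φ p l : F} (hp0 : p ≠ 0) (hp : S.D p = l * p)
    (hl : S.D l + l ^ 2 = A * l + φ) (h2 : S.D (S.D f) = A * S.D f + φ * f) :
    S.D f - l * f = p * S.D (f / p) ∧ S.D (S.D (f / p)) = (A - 2 * l) * S.D (f / p) := by
  have e1 : S.D (f / p) = (S.D f - l * f) / p := by
    rw [S.D_div _ hp0, hp]
    field_simp
  refine ⟨?_, ?_⟩
  · rw [e1]
    field_simp
  · rw [e1, S.D_div _ hp0, S.D_sub, S.mul, h2, hp]
    have e2 : S.D l = A * l + φ - l ^ 2 := by linear_combination hl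
    rw [e2]
    field_simp
    ring

end DF

end Pool.Agent.MP4b24a5.M1
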