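import Pool.Agent.Lib.MP_4b24a5_an_M1.EQ

set_option autoImplicit false

/-! MP_4b24a5_an, project M1, module EPhA. -/

noncomputable section

namespace Pool.Agent.MP4b24a5.M1

open Complex Metric Real MeasureTheory Filter Topology

variable {k : ℕ} {m : Fin (k + 1) → ℕ} {f : ℂ → ℂ}

private theorem EPhA_Psi (h0 : m 0 = 1) (h1 : ∀ j : Fin (k + 1), (j : ℕ) = 1 → m j = 1)
    (hk : 1 ≤ k) : Psi m f = fun z => f z * deriv f z * Rf m f z := by
  obtain ⟨k, rfl⟩ : ∃ k', k = k' + 1 := ⟨k - 1, by omega⟩
  have h1' : m (Fin.succ 0) = 1 := h1 _ (by simp)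
  funext z
  unfold Psi Rf
  rw [Fin.prod_univ_succ, Fin.prod_univ_succ, Fin.prod_univ_succ, Fin.prod_univ_succ, h0, h1']
  simp [iteratedDeriv_one]
  ring

private theorem EPhA_iter {f : ℂ → ℂ} {s : Set ℂ} (hf : AnalyticOnNhd ℂ f s) (j : ℕ) :
    AnalyticOnNhd ℂ (iteratedDeriv j f) s := by
  induction j with
  | zero => simpa using hf
  | succ j ih =>
    rw [iteratedDeriv_succ]
    exact ih.deriv

private theorem EPhA_R (hf : AnalyticOnNhd ℂ f (ball 0 1)) :
    AnalyticOnNhd ℂ (Rf m f) (ball 0 1) := by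
  intro z hz
  unfold Rf
  refine Finset.analyticAt_fun_prod _ ?_
  intro j _
  by_cases h : (j : ℕ) < 2
  · simp only [h, if_true]
    exact analyticAt_const
  · simp only [h, if_false]
    exact (EPhA_iter hf j z hz).pow _

private theorem EPhA_dsl {n : ℂ → ℂ} {u : ℂ} (hn : AnalyticAt ℂ n u) :
    AnalyticAt ℂ (dslope n u) u := by
  obtain ⟨p, hp⟩ := hn
  exact ⟨_, hp.has_fpower_series_dslope_fslope⟩

/-- At a simple zero `u` of `f` where `R ≠ 0` the function `φ` is regular. Near `u`
`Ψ = f f' R` (`m 0 = m 1 = 1`) with `R` analytic, `R u ≠ 0`, `f' u ≠ 0`, so `Ψ' u = f' u ^ 2 R u ≠ 0`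
and `Ψ'' u = 3 f' u f'' u R u + 2 f' u ^ 2 R' u`. Hence `A` is analytic at `u` and
`A u = f'' u / f' u`; so `f'' - A f'` is analytic and vanishes at `u`, and the quotient by `f`
(simple zero) has order `≥ 0`. -/
theorem phi_good (hf : Hy m f) (h0 : m 0 = 1) (h1 : ∀ j : Fin (k + 1), (j : ℕ) = 1 → m j = 1)
    (hk : 1 ≤ k) {u : ℂ} (hu : u ∈ ball (0 : ℂ) 1) (hfu : f u = 0) (hfu' : deriv f u ≠ 0)
    (hR : Rf m f u ≠ 0) : Pm (phf m f) u = 0 := by
  have hΨ := EPhA_Psi (f := f) h0 h1 hk
  have aR := EPhA_R (m := m) hf.an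
  have af := hf.an
  have af' := af.deriv
  have af'' := af'.deriv
  have aR' := aR.deriv
  have hd : ∀ z ∈ ball (0 : ℂ) 1, deriv (Psi m f) z =
      deriv f z * deriv f z * Rf m f z + f z * deriv (deriv f) z * Rf m f z +
        f z * deriv f z * deriv (Rf m f) z := by
    intro z hz
    rw [hΨ]
    have d1 := (af z hz).differentiableAt
    have d2 := (af' z hz).differentiableAt
    have d3 := (aR z hz).differentiableAt
    have e1 : HasDerivAt (fun z => f z * deriv f z * Rf m f z)
        ((deriv f z * deriv f z + f z * deriv (deriv f) z) * Rf m f z +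
          (f z * deriv f z) * deriv (Rf m f) z) z :=
      (d1.hasDerivAt.mul d2.hasDerivAt).mul d3.hasDerivAt
    rw [e1.deriv]
    ring
  have hu1 : deriv (Psi m f) u = deriv f u ^ 2 * Rf m f u := by
    rw [hd u hu, hfu]; ring
  have hu1' : deriv (Psi m f) u ≠ 0 := by
    rw [hu1]; exact mul_ne_zero (pow_ne_zero 2 hfu') hR
  have hev : deriv (Psi m f) =ᶠ[𝓝 u] fun z =>
      deriv f z * deriv f z * Rf m f z + f z * deriv (deriv f) z * Rf m f z +
        f z * deriv f z * deriv (Rf m f) z := by
    filter_upwards [isOpen_ball.mem_nhds hu] with z hz using hd z hz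
  have hu2 : deriv (deriv (Psi m f)) u =
      3 * deriv f u * deriv (deriv f) u * Rf m f u + 2 * deriv f u ^ 2 * deriv (Rf m f) u := by
    rw [hev.deriv_eq]
    have d1 := (af u hu).differentiableAt.hasDerivAt
    have d2 := (af' u hu).differentiableAt.hasDerivAt
    have d3 := (aR u hu).differentiableAt.hasDerivAt
    have d4 := (af'' u hu).differentiableAt.hasDerivAt
    have d5 := (aR' u hu).differentiableAt.hasDerivAt
    have e1 := (((d2.mul d2).mul d3).add ((d1.mul d4).mul d3)).add ((d1.mul d2).mul d5)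
    have e2 : HasDerivAt (fun z =>
      deriv f z * deriv f z * Rf m f z + f z * deriv (deriv f) z * Rf m f z +
        f z * deriv f z * deriv (Rf m f) z) _ u := e1
    rw [e2.deriv]
    simp only [Pi.mul_apply, hfu]
    ring
  have aΨ := an_Psi hf
  have aA : AnalyticAt ℂ (Af m f) u := by
    unfold Af
    have e1 := ((aΨ.deriv.deriv u hu).div (aΨ.deriv u hu) hu1')
    have e2 := ((aR' u hu).div (aR u hu) hR)
    exact ((e1.sub ((analyticAt_const (v := (2 : ℂ))).mul e2)).div
      (analyticAt_const (v := (3 : ℂ))) (by norm_num))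
  have hAu : Af m f u * deriv f u = deriv (deriv f) u := by
    unfold Af
    rw [hu1, hu2]
    field_simp
    ring
  set n : ℂ → ℂ := fun z => deriv (deriv f) z - Af m f z * deriv f z with hn
  have an : AnalyticAt ℂ n u := (af'' u hu).sub (aA.mul (af' u hu))
  have hnu : n u = 0 := by
    simp only [hn]
    rw [hAu, sub_self]
  have dn := EPhA_dsl an
  have df := EPhA_dsl (af u hu)
  have df0 : dslope f u u ≠ 0 := by
    rw [dslope_same]; exact hfu'
  have hq : AnalyticAt ℂ (fun z => dslope n u z / dslope f u z) u := dn.div df df0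
  have he : phf m f =ᶠ[𝓝[≠] u] fun z => dslope n u z / dslope f u z := by
    filter_upwards [self_mem_nhdsWithin] with z hz
    have hz' : z - u ≠ 0 := sub_ne_zero.2 hz
    have s1 : n z = (z - u) * dslope n u z := by
      have := sub_smul_dslope n u z
      rw [hnu, sub_zero, smul_eq_mul] at this
      exact this.symm
    have s2 : f z = (z - u) * dslope f u z := by
      have := sub_smul_dslope f u z
      rw [hfu, sub_zero, smul_eq_mul] at this
      exact this.symm
    have s3 : phf m f z = n z / f z := rfl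
    rw [s3, s1, s2, mul_div_mul_left _ _ hz']
  have ho : 0 ≤ meromorphicOrderAt (phf m f) u := by
    rw [meromorphicOrderAt_congr he]
    exact hq.meromorphicOrderAt_nonneg
  have ho' : 0 ≤ od (phf m f) u := by
    unfold od
    cases h : meromorphicOrderAt (phf m f) u with
    | top => simp
    | coe a =>
      rw [h] at ho
      simpa using ho
  unfold Pm
  have : max (-od (phf m f) u) 0 = 0 := max_eq_right (by omega)
  rw [this]
  simp

end Pool.Agent.MP4b24a5.M1
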