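import Pool.Agent.Lib.MP_4b24a5_an_M1.EPhA

set_option autoImplicit false

/-! MP_4b24a5_an, project M1, module EPhB. -/

noncomputable section

namespace Pool.Agent.MP4b24a5.M1

open Complex Metric Real MeasureTheory Filter Topology

variable {k : ℕ} {m : Fin (k + 1) → ℕ} {f : ℂ → ℂ}

private theorem EPhB_add {g h : ℂ → ℂ} {u : ℂ} {c : ℤ} (hg : MeromorphicAt g u)
    (hh : MeromorphicAt h u) (h1 : (c : WithTop ℤ) ≤ meromorphicOrderAt g u)
    (h2 : (c : WithTop ℤ) ≤ meromorphicOrderAt h u) :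
    (c : WithTop ℤ) ≤ meromorphicOrderAt (g + h) u :=
  (le_min h1 h2).trans (meromorphicOrderAt_add hg hh)

private theorem EPhB_sub {g h : ℂ → ℂ} {u : ℂ} {c : ℤ} (hg : MeromorphicAt g u)
    (hh : MeromorphicAt h u) (h1 : (c : WithTop ℤ) ≤ meromorphicOrderAt g u)
    (h2 : (c : WithTop ℤ) ≤ meromorphicOrderAt h u) :
    (c : WithTop ℤ) ≤ meromorphicOrderAt (g - h) u := by
  rw [sub_eq_add_neg]
  refine EPhB_add hg hh.neg h1 ?_
  rwa [← meromorphicOrderAt_neg]

private theorem EPhB_mul {g h : ℂ → ℂ} {u : ℂ} {a b : ℤ} (hg : MeromorphicAt g u)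
    (hh : MeromorphicAt h u) (h1 : (a : WithTop ℤ) ≤ meromorphicOrderAt g u)
    (h2 : (b : WithTop ℤ) ≤ meromorphicOrderAt h u) :
    ((a + b : ℤ) : WithTop ℤ) ≤ meromorphicOrderAt (g * h) u := by
  rw [meromorphicOrderAt_mul hg hh, WithTop.coe_add]
  exact add_le_add h1 h2

private theorem EPhB_div {g h : ℂ → ℂ} {u : ℂ} {a b : ℤ} (hg : MeromorphicAt g u)
    (hh : MeromorphicAt h u) (h1 : (a : WithTop ℤ) ≤ meromorphicOrderAt g u)
    (h2 : meromorphicOrderAt h u = (b : WithTop ℤ)) :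
    ((a - b : ℤ) : WithTop ℤ) ≤ meromorphicOrderAt (g / h) u := by
  rw [div_eq_mul_inv, sub_eq_add_neg]
  refine EPhB_mul hg hh.inv h1 ?_
  rw [meromorphicOrderAt_inv, h2]
  exact le_refl _

private theorem EPhB_pm {h : ℂ → ℂ} {u : ℂ} {c : ℤ}
    (h1 : (c : WithTop ℤ) ≤ meromorphicOrderAt h u) : Pm h u ≤ ((max (-c) 0 : ℤ) : ℝ) := by
  unfold Pm
  by_cases ht : meromorphicOrderAt h u = ⊤
  · have : od h u = 0 := by unfold od; rw [ht]; rfl
    rw [this]
    exact_mod_cast (by simp : max (-(0 : ℤ)) 0 ≤ max (-c) 0)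
  · rw [Ord.eq_od ht] at h1
    have h2 : c ≤ od h u := by exact_mod_cast h1
    exact_mod_cast (max_le_max (by omega) (le_refl 0) : max (-od h u) 0 ≤ max (-c) 0)

private theorem EPhB_dv {g : ℂ → ℂ} {u : ℂ} {a : ℤ} (hg : AnalyticAt ℂ g u)
    (h : meromorphicOrderAt g u = (a : WithTop ℤ)) :
    ((a - 1 : ℤ) : WithTop ℤ) ≤ meromorphicOrderAt (deriv g) u := by
  by_cases ha : a = 0
  · subst ha
    refine le_trans ?_ hg.deriv.meromorphicOrderAt_nonneg
    exact_mod_cast (by norm_num : (0 - 1 : ℤ) ≤ 0)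
  · rw [meromorphicOrderAt_deriv_eq_sub_one (by exact_mod_cast ha) h]

private theorem EPhB_ld {g : ℂ → ℂ} {u : ℂ} {a : ℤ} (hg : AnalyticAt ℂ g u)
    (h : meromorphicOrderAt g u = (a : WithTop ℤ)) :
    ((-1 : ℤ) : WithTop ℤ) ≤ meromorphicOrderAt (deriv g / g) u := by
  have h1 := EPhB_div hg.deriv.meromorphicAt hg.meromorphicAt (EPhB_dv hg h) h
  have h2 : a - 1 - a = -1 := by ring
  rwa [h2] at h1

private theorem EPhB_it (hf : Hy m f) {u : ℂ} (hu : u ∈ ball (0 : ℂ) 1) (j : ℕ) :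
    AnalyticAt ℂ (iteratedDeriv j f) u := by
  rw [iteratedDeriv_eq_iterate]
  exact (hf.an u hu).iterated_deriv j

private theorem EPhB_R (z : ℂ) :
    Rf m f z = Psi (fun j : Fin (k + 1) => if (j : ℕ) < 2 then 0 else m j) f z := by
  unfold Rf Psi
  refine Finset.prod_congr rfl fun j _ => ?_
  by_cases h : (j : ℕ) < 2
  · simp only [if_pos h, pow_zero]
  · simp only [if_neg h]

private theorem EPhB_anPsi (hf : Hy m f) (m' : Fin (k + 1) → ℕ) {u : ℂ}
    (hu : u ∈ ball (0 : ℂ) 1) : AnalyticAt ℂ (Psi m' f) u := by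
  have : Psi m' f = fun z => ∏ j : Fin (k + 1), (iteratedDeriv (j : ℕ) f z) ^ m' j := rfl
  rw [this]
  exact Finset.analyticAt_fun_prod _ fun j _ => (EPhB_it hf hu j).pow _

/-- Poles of `φ` (all orders are in the disc). If `f u ≠ 0`: `f'' / f` and `f' / f` are analytic
at `u`, so the pole order of `φ` is at most that of `A`. If `u` is a simple zero of `f` with
`R u ≠ 0`: `phi_good`. Otherwise `f u = 0` and (`f' u = 0` or `R u = 0`): then `φ` has order
`≥ -2` (`A` has order `≥ -1`, being `1/3` of a combination of logarithmic derivatives of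
analytic functions; `f' / f` order `≥ -1`; `f'' / f` order `≥ -2`), and `Ψ` has a zero of order `≥ 3`
at `u` (a zero of order `p ≥ 2` of `f` gives `p + (p - 1)`; a zero of `R` gives at least
`1 + 2`, because all exponents `m j`, `j ≥ 2`, are `0` or `≥ 2`), so
`q = Ψ' / (Ψ - 1)` has a zero of order `≥ 2` (`Ψ u = 0`). -/
theorem pole_phi (hf : Hy m f) (h0 : m 0 = 1) (h1 : ∀ j : Fin (k + 1), (j : ℕ) = 1 → m j = 1)
    (hk : 1 ≤ k) (h2 : ∀ j : Fin (k + 1), 2 ≤ (j : ℕ) → m j ≠ 1) {u : ℂ}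
    (hu : u ∈ ball (0 : ℂ) 1) : Pm (phf m f) u ≤ Zf (qf m f) u + Pm (Af m f) u := by
  have hZ : 0 ≤ Zf (qf m f) u := by
    unfold Zf
    exact_mod_cast le_max_right _ _
  have hP : 0 ≤ Pm (Af m f) u := by
    unfold Pm
    exact_mod_cast le_max_right _ _
  have hfa : AnalyticAt ℂ f u := hf.an u hu
  have hΨa : AnalyticAt ℂ (Psi m f) u := EPhB_anPsi hf m hu
  have hRe : Rf m f = Psi (fun j : Fin (k + 1) => if (j : ℕ) < 2 then 0 else m j) f :=
    funext EPhB_R
  have hRa : AnalyticAt ℂ (Rf m f) u := by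
    rw [hRe]
    exact EPhB_anPsi hf _ hu
  have ho : ∀ j : Fin (k + 1), meromorphicOrderAt (iteratedDeriv (j : ℕ) f) u =
      ((od (iteratedDeriv (j : ℕ) f) u : ℤ) : WithTop ℤ) := fun j =>
    Ord.eq_od ((hf.mer j).2 u hu)
  have hM : ∀ j : Fin (k + 1), MeromorphicAt (iteratedDeriv (j : ℕ) f) u := fun j =>
    (hf.mer j).1 u hu
  have hon : ∀ j : ℕ, 0 ≤ od (iteratedDeriv j f) u := by
    intro j
    have h3 := (EPhB_it hf hu j).meromorphicOrderAt_nonneg
    rw [Ord.eq_od ((hf.mer j).2 u hu)] at h3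
    exact_mod_cast h3
  have hΨo := (Ord.order_Psi m (fun j => od (iteratedDeriv (j : ℕ) f) u) hM ho).2
  have hRo := (Ord.order_Psi (fun j : Fin (k + 1) => if (j : ℕ) < 2 then 0 else m j)
    (fun j => od (iteratedDeriv (j : ℕ) f) u) hM ho).2
  rw [← hRe] at hRo
  have hΨ'o := Ord.eq_od (hf.merD.2 u hu)
  have hAe : Af m f = (fun _ => (3 : ℂ)⁻¹) * (deriv (deriv (Psi m f)) / deriv (Psi m f) -
      (fun _ => (2 : ℂ)) * (deriv (Rf m f) / Rf m f)) := by
    funext z
    simp only [Af, Pi.mul_apply, Pi.sub_apply, Pi.div_apply]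
    ring
  have hAm1 : MeromorphicAt (deriv (deriv (Psi m f)) / deriv (Psi m f)) u :=
    hΨa.deriv.deriv.meromorphicAt.div hΨa.deriv.meromorphicAt
  have hAm2 : MeromorphicAt (deriv (Rf m f) / Rf m f) u :=
    hRa.deriv.meromorphicAt.div hRa.meromorphicAt
  have hc2 : MeromorphicAt (fun _ : ℂ => (2 : ℂ)) u := MeromorphicAt.const 2 u
  have hc3 : MeromorphicAt (fun _ : ℂ => (3 : ℂ)⁻¹) u := MeromorphicAt.const _ u
  have hAm : MeromorphicAt (Af m f) u := by
    rw [hAe]
    exact hc3.mul (hAm1.sub (hc2.mul hAm2))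
  have hφe : phf m f = (deriv (deriv f) - Af m f * deriv f) / f := rfl
  have hfo : meromorphicOrderAt f u = ((od f u : ℤ) : WithTop ℤ) := by
    have := ho 0
    simpa using this
  by_cases hfu : f u = 0
  swap
  · -- `f u ≠ 0`
    have hf0 : meromorphicOrderAt f u = ((0 : ℤ) : WithTop ℤ) :=
      (hfa.meromorphicNFAt.meromorphicOrderAt_eq_zero_iff).2 hfu
    have hcA : ((min (od (Af m f) u) 0 : ℤ) : WithTop ℤ) ≤ meromorphicOrderAt (Af m f) u := by
      by_cases ht : meromorphicOrderAt (Af m f) u = ⊤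
      · rw [ht]
        exact le_top
      · rw [Ord.eq_od ht]
        exact_mod_cast min_le_left _ _
    have hc0 : ((min (od (Af m f) u) 0 : ℤ) : WithTop ℤ) ≤
        meromorphicOrderAt (deriv (deriv f)) u := by
      refine le_trans ?_ hfa.deriv.deriv.meromorphicOrderAt_nonneg
      exact_mod_cast min_le_right _ _
    have hc1 : ((min (od (Af m f) u) 0 : ℤ) : WithTop ℤ) ≤
        meromorphicOrderAt (Af m f * deriv f) u := by
      have h3 : ((0 : ℤ) : WithTop ℤ) ≤ meromorphicOrderAt (deriv f) u :=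
        hfa.deriv.meromorphicOrderAt_nonneg
      have h4 := EPhB_mul hAm hfa.deriv.meromorphicAt hcA h3
      rwa [add_zero] at h4
    have h5 := EPhB_div (hfa.deriv.deriv.meromorphicAt.sub (hAm.mul hfa.deriv.meromorphicAt))
      hfa.meromorphicAt (EPhB_sub hfa.deriv.deriv.meromorphicAt
        (hAm.mul hfa.deriv.meromorphicAt) hc0 hc1) hf0
    rw [sub_zero, ← hφe] at h5
    have h6 := EPhB_pm h5
    have h7 : ((max (-min (od (Af m f) u) 0) 0 : ℤ) : ℝ) = Pm (Af m f) u := by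
      unfold Pm
      congr 1
      omega
    rw [h7] at h6
    linarith
  by_cases hgood : deriv f u ≠ 0 ∧ Rf m f u ≠ 0
  · rw [phi_good hf h0 h1 hk hu hfu hgood.1 hgood.2]
    linarith
  -- the remaining points
  have hp1 : 1 ≤ od f u := by
    have h3 := hon 0
    rw [iteratedDeriv_zero] at h3
    rcases h3.lt_or_eq with h4 | h4
    · omega
    · exfalso
      rw [← h4] at hfo
      exact (hfa.meromorphicNFAt.meromorphicOrderAt_eq_zero_iff).1 hfo hfu
  have hdo : meromorphicOrderAt (deriv f) u = ((od f u - 1 : ℤ) : WithTop ℤ) :=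
    meromorphicOrderAt_deriv_eq_sub_one (by exact_mod_cast (by omega : od f u ≠ 0)) hfo
  -- the order of `Ψ`
  have hs : 3 ≤ ∑ j : Fin (k + 1), (m j : ℤ) * od (iteratedDeriv (j : ℕ) f) u := by
    have hnn : ∀ j : Fin (k + 1), 0 ≤ (m j : ℤ) * od (iteratedDeriv (j : ℕ) f) u := fun j =>
      mul_nonneg (by positivity) (hon j)
    have hpair : ∀ j : Fin (k + 1), j ≠ 0 → od f u + (m j : ℤ) * od (iteratedDeriv (j : ℕ) f) u ≤
        ∑ j : Fin (k + 1), (m j : ℤ) * od (iteratedDeriv (j : ℕ) f) u := by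
      intro j hj
      have h3 := Finset.sum_le_sum_of_subset_of_nonneg (Finset.subset_univ ({0, j} :
        Finset (Fin (k + 1)))) (f := fun j : Fin (k + 1) =>
          (m j : ℤ) * od (iteratedDeriv (j : ℕ) f) u) (fun i _ _ => hnn i)
      rw [Finset.sum_pair hj.symm] at h3
      simpa [h0] using h3
    by_cases hp2 : 2 ≤ od f u
    · have h3 := hpair ⟨1, by omega⟩ (by
        intro h
        have := congrArg Fin.val h
        simp at this)
      have h4 : od (iteratedDeriv 1 f) u = od f u - 1 := by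
        rw [iteratedDeriv_one]
        exact Ord.od_of_eq hdo
      have h5 : m ⟨1, by omega⟩ = 1 := h1 _ rfl
      rw [h5, h4] at h3
      push_cast at h3
      omega
    · have hp : od f u = 1 := by omega
      have hd0 : deriv f u ≠ 0 := by
        rw [hp] at hdo
        exact (hfa.deriv.meromorphicNFAt.meromorphicOrderAt_eq_zero_iff).1 (by simpa using hdo)
      have hR0 : Rf m f u = 0 := by
        by_contra hR
        exact hgood ⟨hd0, hR⟩
      unfold Rf at hR0
      obtain ⟨j, -, hj⟩ := Finset.prod_eq_zero_iff.1 hR0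
      by_cases hj2 : (j : ℕ) < 2
      · rw [if_pos hj2] at hj
        exact absurd hj one_ne_zero
      · rw [if_neg hj2, pow_eq_zero_iff'] at hj
        have h3 := hpair j (by
          rintro rfl
          simp at hj2)
        have h4 : 1 ≤ od (iteratedDeriv (j : ℕ) f) u := by
          rcases (hon j).lt_or_eq with h5 | h5
          · omega
          · exfalso
            have h6 := ho j
            rw [← h5] at h6
            exact ((EPhB_it hf hu j).meromorphicNFAt.meromorphicOrderAt_eq_zero_iff).1 h6 hj.1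
        have h5 : 2 ≤ m j := by
          have := h2 j (by omega)
          omega
        have h6 : (2 : ℤ) ≤ m j := by exact_mod_cast h5
        nlinarith
  have hΨ0 : Psi m f u = 0 := by
    unfold Psi
    refine Finset.prod_eq_zero (Finset.mem_univ 0) ?_
    simp [h0, hfu]
  have hq2 : 2 ≤ Zf (qf m f) u := by
    have hG : AnalyticAt ℂ (fun z => Psi m f z - 1) u := hΨa.fun_sub analyticAt_const
    have hG0 : meromorphicOrderAt (fun z => Psi m f z - 1) u = ((0 : ℤ) : WithTop ℤ) :=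
      (hG.meromorphicNFAt.meromorphicOrderAt_eq_zero_iff).2 (by
        rw [hΨ0]
        norm_num)
    have hqe : qf m f = deriv (Psi m f) / (fun z => Psi m f z - 1) := rfl
    have hqo : meromorphicOrderAt (qf m f) u =
        (((∑ j : Fin (k + 1), (m j : ℤ) * od (iteratedDeriv (j : ℕ) f) u) - 1 : ℤ) :
          WithTop ℤ) := by
      rw [hqe, meromorphicOrderAt_div hΨa.deriv.meromorphicAt hG.meromorphicAt, hG0,
        meromorphicOrderAt_deriv_eq_sub_one (by exact_mod_cast (by omega :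
          (∑ j : Fin (k + 1), (m j : ℤ) * od (iteratedDeriv (j : ℕ) f) u) ≠ 0)) hΨo]
      simp
    unfold Zf
    rw [Ord.od_of_eq hqo]
    exact_mod_cast (by omega : (2 : ℤ) ≤ max ((∑ j : Fin (k + 1),
      (m j : ℤ) * od (iteratedDeriv (j : ℕ) f) u) - 1) 0)
  have hA1 : ((-1 : ℤ) : WithTop ℤ) ≤ meromorphicOrderAt (Af m f) u := by
    rw [hAe]
    have h3 : ((0 : ℤ) : WithTop ℤ) ≤ meromorphicOrderAt (fun _ : ℂ => (3 : ℂ)⁻¹) u :=
      analyticAt_const.meromorphicOrderAt_nonneg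
    have h4 : ((0 : ℤ) : WithTop ℤ) ≤ meromorphicOrderAt (fun _ : ℂ => (2 : ℂ)) u :=
      analyticAt_const.meromorphicOrderAt_nonneg
    have h5 := EPhB_mul hc2 hAm2 h4 (EPhB_ld hRa hRo)
    have h6 := EPhB_mul hc3 (hAm1.sub (hc2.mul hAm2)) h3 (EPhB_sub hAm1 (hc2.mul hAm2)
      (EPhB_ld hΨa.deriv hΨ'o) (by simpa using h5))
    simpa using h6
  have hφ2 : ((-2 : ℤ) : WithTop ℤ) ≤ meromorphicOrderAt (phf m f) u := by
    have h3 : ((od f u - 2 : ℤ) : WithTop ℤ) ≤ meromorphicOrderAt (deriv (deriv f)) u := by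
      have h4 := EPhB_dv hfa.deriv hdo
      have h5 : od f u - 1 - 1 = od f u - 2 := by ring
      rwa [h5] at h4
    have h4 : ((od f u - 2 : ℤ) : WithTop ℤ) ≤ meromorphicOrderAt (Af m f * deriv f) u := by
      have h5 := EPhB_mul hAm hfa.deriv.meromorphicAt hA1 hdo.ge
      have h6 : -1 + (od f u - 1) = od f u - 2 := by ring
      rwa [h6] at h5
    have h5 := EPhB_div (hfa.deriv.deriv.meromorphicAt.sub (hAm.mul hfa.deriv.meromorphicAt))
      hfa.meromorphicAt (EPhB_sub hfa.deriv.deriv.meromorphicAt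
        (hAm.mul hfa.deriv.meromorphicAt) h3 h4) hfo
    have h6 : od f u - 2 - od f u = -2 := by ring
    rwa [h6, ← hφe] at h5
  have h8 := EPhB_pm hφ2
  norm_num at h8
  linarith

end Pool.Agent.MP4b24a5.M1
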