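import Pool.Agent.Lib.MP_4b24a5_an_M1.EPhB
import Pool.Agent.Lib.MP_4b24a5_an_M1.BdInv

set_option autoImplicit false

/-! MP_4b24a5_an, project M1, module EPhC. -/

noncomputable section

namespace Pool.Agent.MP4b24a5.M1

open Complex Metric Real MeasureTheory Filter Topology

variable {k : ℕ} {m : Fin (k + 1) → ℕ} {f : ℂ → ℂ}

private theorem EPhC_iter {f : ℂ → ℂ} {s : Set ℂ} (hf : AnalyticOnNhd ℂ f s) (j : ℕ) :
    AnalyticOnNhd ℂ (iteratedDeriv j f) s := by
  induction j with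
  | zero => simpa using hf
  | succ j ih =>
    rw [iteratedDeriv_succ]
    exact ih.deriv

private theorem EPhC_R (hf : AnalyticOnNhd ℂ f (ball 0 1)) :
    AnalyticOnNhd ℂ (Rf m f) (ball 0 1) := by
  intro z hz
  unfold Rf
  refine Finset.analyticAt_fun_prod _ ?_
  intro j _
  by_cases h : (j : ℕ) < 2
  · simp only [h, if_true]
    exact analyticAt_const
  · simp only [h, if_false]
    exact (EPhC_iter hf j z hz).pow _

/-- a nowhere locally zero meromorphic function has finitely many zeros in a smaller disc -/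
private theorem EPhC_zeros {f : ℂ → ℂ} (hf : Mer f) {r : ℝ} (h1 : r < 1) :
    {z : ℂ | ‖z‖ ≤ r ∧ f z = 0}.Finite := by
  have hloc : ∀ z ∈ closedBall (0 : ℂ) r, {x | x = z ∨ f x ≠ 0} ∈ 𝓝 z := by
    intro z hz
    have hz1 : z ∈ ball (0 : ℂ) 1 := closedBall_subset_ball h1 hz
    have hc := (meromorphicOrderAt_ne_top_iff_eventually_ne_zero (hf.1 z hz1)).1 (hf.2 z hz1)
    rw [eventually_nhdsWithin_iff] at hc
    filter_upwards [hc] with x hx
    by_cases hxz : x = z
    · exact Or.inl hxz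
    · exact Or.inr (hx hxz)
  obtain ⟨t, _, hcov⟩ := (isCompact_closedBall (0 : ℂ) r).elim_nhds_subcover _ hloc
  refine t.finite_toSet.subset ?_
  rintro z ⟨hz, hz0⟩
  have hzb : z ∈ closedBall (0 : ℂ) r := by
    rw [mem_closedBall, dist_zero_right]
    exact hz
  obtain ⟨y, hy, hzy⟩ := Set.mem_iUnion₂.mp (hcov hzb)
  rcases hzy with h | h
  · rw [h]
    exact hy
  · exact absurd hz0 h

/-- The functions `A` and `φ` are meromorphic in the disc. -/
theorem mer_A (hf : Hy m f) : MeromorphicOn (Af m f) (ball 0 1) := by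
  intro z hz
  have a1 : MeromorphicAt (deriv (Psi m f)) z := (an_Psi hf).deriv z hz |>.meromorphicAt
  have a2 : MeromorphicAt (deriv (deriv (Psi m f))) z :=
    (an_Psi hf).deriv.deriv z hz |>.meromorphicAt
  have a3 : MeromorphicAt (Rf m f) z := (EPhC_R (m := m) hf.an z hz).meromorphicAt
  have a4 : MeromorphicAt (deriv (Rf m f)) z := ((EPhC_R (m := m) hf.an).deriv z hz).meromorphicAt
  exact ((a2.div a1).sub ((MeromorphicAt.const 2 z).mul (a4.div a3))).div
    (MeromorphicAt.const 3 z)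

theorem mer_phi (hf : Hy m f) : MeromorphicOn (phf m f) (ball 0 1) := by
  intro z hz
  have a0 : MeromorphicAt f z := (hf.an z hz).meromorphicAt
  have a1 : MeromorphicAt (deriv f) z := (hf.an.deriv z hz).meromorphicAt
  have a2 : MeromorphicAt (deriv (deriv f)) z := (hf.an.deriv.deriv z hz).meromorphicAt
  exact (a2.sub ((mer_A hf z hz).mul a1)).div a0

/-- `prox φ ≤ prox (f'' / f') + prox (f' / f) + prox A + prox (f' / f) + log 2 ≤ (c + 7) L` (`ld1`
with `ε = 1` for `f` and `f'`), `S (Pm φ) ≤ S (Zf q) + S (Pm A) ≤ (c + 5) L` by `pole_phi` and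
`Bd.inv'`, `bd_q`. -/
theorem bd_phi (hf : Hy m f) (h0 : m 0 = 1) (h1 : ∀ j : Fin (k + 1), (j : ℕ) = 1 → m j = 1)
    (hk : 1 ≤ k) (h2 : ∀ j : Fin (k + 1), 2 ≤ (j : ℕ) → m j ≠ 1) {c : ℝ}
    (hb : Bd c (Af m f)) : Bd (c + 7) (phf m f) := by
  have hs1 : Slow (deriv f) := by
    have h := hf.slow.iter (k := 1) (fun j _ => hf.mer j) 1 le_rfl
    rwa [iteratedDeriv_one] at h
  have hm1 : Mer (deriv f) := hs1.1
  have hm0 : Mer f := hf.slow.1
  have hl0 : MeromorphicOn (logDeriv f) (ball 0 1) := fun z hz =>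
    (hm1.1 z hz).div (hm0.1 z hz)
  have hl1 : MeromorphicOn (logDeriv (deriv f)) (ball 0 1) := fun z hz =>
    ((hf.an.deriv.deriv z hz).meromorphicAt).div (hm1.1 z hz)
  have hr : ∀ᶠ r : ℝ in 𝓝[<] (1 : ℝ), 0 < r ∧ r < 1 := by
    have h1 : Set.Ioo (0 : ℝ) 1 ∈ 𝓝[<] (1 : ℝ) := Ioo_mem_nhdsLT one_pos
    filter_upwards [h1] with r hr
    exact hr
  have hL := L_tendsto.eventually_ge_atTop (Real.log 2)
  filter_upwards [ld1 hf.slow one_pos, ld1 hs1 one_pos, hr, hL, hb,
    Bd.inv' (mer_q hf) (bd_q hf)] with r e0 e1 hr hL hA hq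
  obtain ⟨r0, r1⟩ := hr
  have hlog2 : 0 < Real.log 2 := Real.log_pos one_lt_two
  have hL0 : 0 ≤ L r := hlog2.le.trans hL
  constructor
  · have i0 := ci_pos (mer_phi hf) r0 r1
    have i1 := ci_pos hl0 r0 r1
    have i2 := ci_pos hl1 r0 r1
    have i3 := ci_pos (mer_A hf) r0 r1
    have i4 : CircleIntegrable (fun _ : ℂ => Real.log 2) 0 r := circleIntegrable_const _ _ _
    have hle : circleAverage (fun z => log⁺ ‖phf m f z‖) 0 r ≤
        circleAverage (fun z => log⁺ ‖logDeriv f z‖ + (log⁺ ‖logDeriv (deriv f) z‖ +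
          (log⁺ ‖Af m f z‖ + Real.log 2))) 0 r := by
      refine circleAverage_le r0 i0 (i1.add (i2.add (i3.add i4))) (EPhC_zeros hm1 r1) ?_
      intro z hz hzE
      have hfz : deriv f z ≠ 0 := fun h2 => hzE ⟨hz.le, h2⟩
      have e : phf m f z = logDeriv f z * (logDeriv (deriv f) z + (-(Af m f z))) := by
        rw [logDeriv_apply, logDeriv_apply]
        unfold phf
        field_simp
        ring
      rw [e, norm_mul]
      have h3 := Real.posLog_mul (x := ‖logDeriv f z‖)
        (y := ‖logDeriv (deriv f) z + (-(Af m f z))‖)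
      have h4 : log⁺ ‖logDeriv (deriv f) z + (-(Af m f z))‖ ≤
          log⁺ (‖logDeriv (deriv f) z‖ + ‖Af m f z‖) := by
        refine Real.posLog_le_posLog (norm_nonneg _) ?_
        refine (norm_add_le _ _).trans ?_
        rw [norm_neg]
      have h5 := Real.posLog_add (x := ‖logDeriv (deriv f) z‖) (y := ‖Af m f z‖)
      linarith
    have s1 := circleAverage_add i1 (i2.add (i3.add i4))
    have s2 := circleAverage_add i2 (i3.add i4)
    have s3 := circleAverage_add i3 i4
    have s4 : circleAverage (fun _ : ℂ => Real.log 2) 0 r = Real.log 2 :=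
      circleAverage_const _ _ _
    have hA1 := hA.1
    unfold prox at e0 e1 hA1 ⊢
    have s5 : circleAverage (fun z => log⁺ ‖logDeriv f z‖ + (log⁺ ‖logDeriv (deriv f) z‖ +
        (log⁺ ‖Af m f z‖ + Real.log 2))) 0 r =
        circleAverage (fun z => log⁺ ‖logDeriv f z‖) 0 r +
        (circleAverage (fun z => log⁺ ‖logDeriv (deriv f) z‖) 0 r +
        (circleAverage (fun z => log⁺ ‖Af m f z‖) 0 r + Real.log 2)) :=
      s1.trans (by rw [s2, s3, s4])
    rw [s5] at hle
    nlinarith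
  · have l1 := lf_Pm (mer_phi hf)
    have l2 := lf_Zf (mer_q hf).1
    have l3 := lf_Pm (mer_A hf)
    have hmono : S (Pm (phf m f)) r ≤ S (fun u => Zf (qf m f) u + Pm (Af m f) u) r := by
      refine S_mono l1 (l2.add l3) (fun u _ hu => ?_) r0 r1
      exact pole_phi hf h0 h1 hk h2 (by rw [mem_ball_zero_iff]; exact hu)
    rw [S_add l2 l3 r0 r1] at hmono
    have hA2 := hA.2
    have hq2 := hq.2
    nlinarith

end Pool.Agent.MP4b24a5.M1
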