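import Pool.Agent.Lib.MP_4b24a5_an_M1.BdInv

set_option autoImplicit false

/-! MP_4b24a5_an, project M1, module EPsi. -/

noncomputable section

namespace Pool.Agent.MP4b24a5.M1

open Complex Metric Real MeasureTheory Filter Topology

variable {k : ℕ} {m : Fin (k + 1) → ℕ} {f : ℂ → ℂ}

private theorem EPsi_ord (hf : Hy m f) (h0 : 1 ≤ m 0) {u : ℂ} (hu : ‖u‖ < 1) :
    Zf f u ≤ Zf (Psi m f) u := by
  have hu' : u ∈ ball (0 : ℂ) 1 := by simpa using hu
  have hM : ∀ j : Fin (k + 1), MeromorphicAt (iteratedDeriv (j : ℕ) f) u :=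
    fun j => (hf.mer j).1 u hu'
  have ho : ∀ j : Fin (k + 1), meromorphicOrderAt (iteratedDeriv (j : ℕ) f) u =
      ((od (iteratedDeriv (j : ℕ) f) u : ℤ) : WithTop ℤ) :=
    fun j => Ord.eq_od ((hf.mer j).2 u hu')
  have hP := (Ord.order_Psi m (fun j => od (iteratedDeriv (j : ℕ) f) u) hM ho).2
  have hnn : ∀ j : Fin (k + 1), 0 ≤ od (iteratedDeriv (j : ℕ) f) u := by
    intro j
    have han : AnalyticAt ℂ (iteratedDeriv (j : ℕ) f) u := by
      rw [iteratedDeriv_eq_iterate]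
      exact (hf.an u hu').iterated_deriv j
    have h1 := han.meromorphicOrderAt_nonneg
    rw [ho j] at h1
    exact_mod_cast h1
  have hodP : od (Psi m f) u =
      ∑ j : Fin (k + 1), (m j : ℤ) * od (iteratedDeriv (j : ℕ) f) u := Ord.od_of_eq hP
  have h2 : (m 0 : ℤ) * od (iteratedDeriv ((0 : Fin (k + 1)) : ℕ) f) u ≤
      ∑ j : Fin (k + 1), (m j : ℤ) * od (iteratedDeriv (j : ℕ) f) u :=
    Finset.single_le_sum
      (f := fun j : Fin (k + 1) => (m j : ℤ) * od (iteratedDeriv (j : ℕ) f) u)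
      (fun j _ => mul_nonneg (by positivity) (hnn j)) (Finset.mem_univ 0)
  have h4 := hnn 0
  rw [← hodP] at h2
  rw [Fin.val_zero, iteratedDeriv_zero] at h2 h4
  have h5 : (1 : ℤ) ≤ (m 0 : ℤ) := by exact_mod_cast h0
  have h3 : od f u ≤ od (Psi m f) u := by nlinarith
  unfold Zf
  exact_mod_cast max_le_max h3 le_rfl

private theorem EPsi_Pm {h : ℂ → ℂ} : Pm h⁻¹ = Zf h := by
  funext u
  unfold Pm Zf od
  rw [meromorphicOrderAt_inv]
  congr 2
  cases meromorphicOrderAt h u with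
  | top => rfl
  | coe n => simp [← WithTop.LinearOrderedAddCommGroup.coe_neg]

private theorem EPsi_deg (h0 : 1 ≤ m 0) : (1 : ℝ) ≤ deg m := by
  have h1 : m 0 ≤ ∑ j : Fin (k + 1), m j :=
    Finset.single_le_sum (f := fun j : Fin (k + 1) => m j) (fun j _ => Nat.zero_le _)
      (Finset.mem_univ 0)
  have h2 : 1 ≤ deg m := h0.trans h1
  exact_mod_cast h2

/-- A small monomial forces a small function. `Bd.inv'` for `Ψ` bounds `prox Ψ⁻¹` and the zeros of
`Ψ`; `prx` (with `ε = 1`) bounds `prox f⁻¹`, and `Zf f ≤ Zf Ψ` because `m 0 ≥ 1` and `f` is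
analytic; so `Bd (2 c + wgt m + 2) f⁻¹`, and `Bd.inv` for `f⁻¹` gives the claim. -/
theorem psi_small (hf : Hy m f) (h0 : 1 ≤ m 0) {c : ℝ} (hb : Bd c (Psi m f)) :
    Bd (4 * c + 2 * wgt m + 5) f := by
  have hP : Mer (Psi m f) := (hf.slow.Psi m (fun j _ => hf.mer j)).1
  have hF : Mer f := hf.slow.1
  have h1 := hb.inv' hP
  have h2 := prx m hf.slow (fun j _ => hf.mer j) one_pos
  have hc := hb.nonneg
  have hL : ∀ᶠ r in 𝓝[<] (1 : ℝ), (0 : ℝ) ≤ L r := L_tendsto.eventually_ge_atTop _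
  have hr : ∀ᶠ r in 𝓝[<] (1 : ℝ), r ∈ Set.Ioo (0 : ℝ) 1 := Ioo_mem_nhdsLT (by norm_num)
  have hw : (0 : ℝ) ≤ (wgt m : ℝ) := Nat.cast_nonneg _
  have hd := EPsi_deg (m := m) h0
  have hinv : Bd (2 * c + wgt m + 2) f⁻¹ := by
    filter_upwards [h1, h2, hL, hr] with r h1r h2r hLr hrr
    obtain ⟨hr0, hr1⟩ := hrr
    have hp : 0 ≤ prox (fun z => (f z)⁻¹) r := by
      unfold prox
      exact circleAverage_nonneg_of_nonneg fun z _ => posLog_nonneg
    have e1 : prox f⁻¹ r = prox (fun z => (f z)⁻¹) r := rfl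
    have e2 : prox (Psi m f)⁻¹ r = prox (fun z => (Psi m f z)⁻¹) r := rfl
    rw [e2] at h1r
    constructor
    · rw [e1]
      have h3 : prox (fun z => (f z)⁻¹) r ≤ (deg m : ℝ) * prox (fun z => (f z)⁻¹) r := by
        nlinarith
      calc prox (fun z => (f z)⁻¹) r ≤ (2 * c + 1) * L r + ((wgt m : ℝ) + 1) * L r := by
            linarith [h1r.1]
        _ = (2 * c + wgt m + 2) * L r := by ring
    · rw [EPsi_Pm]
      have h4 : S (Zf f) r ≤ S (Zf (Psi m f)) r :=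
        S_mono (lf_Zf hF.1) (lf_Zf hP.1) (fun u _ hu => EPsi_ord hf h0 hu) hr0 hr1
      have h5 : (2 * c + 1) * L r ≤ (2 * c + wgt m + 2) * L r :=
        mul_le_mul_of_nonneg_right (by linarith) hLr
      linarith [h1r.2]
  have h6 := Bd.inv hF.1.inv hinv
  rw [inv_inv] at h6
  refine h6.mono ?_
  linarith

end Pool.Agent.MP4b24a5.M1
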