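import Pool.Agent.Lib.MP_4b24a5_an_M1.BdInv
import Pool.Agent.Lib.MP_4b24a5_an_M1.BdDer

set_option autoImplicit false

/-! MP_4b24a5_an, project M1, module EQ. -/

noncomputable section

namespace Pool.Agent.MP4b24a5.M1

open Complex Metric Real MeasureTheory Filter Topology

variable {k : ℕ} {m : Fin (k + 1) → ℕ} {f : ℂ → ℂ}

private theorem EQ_iter {f : ℂ → ℂ} (hf : AnalyticOnNhd ℂ f (ball 0 1)) (j : ℕ) :
    AnalyticOnNhd ℂ (iteratedDeriv j f) (ball 0 1) := by
  induction j with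
  | zero =>
    rw [iteratedDeriv_zero]
    exact hf
  | succ n ih =>
    rw [iteratedDeriv_succ]
    exact ih.deriv

/-- `Ψ` is analytic in the disc. -/
theorem an_Psi (hf : Hy m f) : AnalyticOnNhd ℂ (Psi m f) (ball 0 1) := by
  intro z hz
  unfold Psi
  refine Finset.analyticAt_fun_prod _ fun j _ => ?_
  exact (EQ_iter hf.an j z hz).fun_pow _

/-- `Ψ - 1` does not vanish identically, because `Ψ'` does not. -/
theorem mer_G (hf : Hy m f) : Mer (fun z => Psi m f z - 1) := by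
  have han : AnalyticOnNhd ℂ (fun z => Psi m f z - 1) (ball 0 1) := fun z hz =>
    (an_Psi hf z hz).fun_sub analyticAt_const
  refine ⟨fun z hz => (han z hz).meromorphicAt, fun z hz ht => ?_⟩
  apply hf.merD.2 z hz
  rw [meromorphicOrderAt_eq_top_iff] at ht ⊢
  have h1 : ∀ᶠ y in 𝓝[≠] z, ∀ᶠ w in 𝓝 y, Psi m f w - 1 = 0 := by
    rw [eventually_nhdsWithin_iff] at ht ⊢
    filter_upwards [eventually_eventually_nhds.2 ht] with y hy hyz
    have h4 : ∀ᶠ w in 𝓝 y, w ∈ ({z}ᶜ : Set ℂ) := isOpen_compl_singleton.mem_nhds hyz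
    filter_upwards [hy, h4] with w hw hw' using hw hw'
  filter_upwards [h1] with y hy
  have h2 : Psi m f =ᶠ[𝓝 y] fun _ => 1 := by
    filter_upwards [hy] with w hw
    exact sub_eq_zero.1 hw
  rw [h2.deriv_eq]
  simp

theorem mer_q (hf : Hy m f) : Mer (qf m f) := by
  have h := hf.merD.mul (mer_G hf).inv
  have e : qf m f = fun z => deriv (Psi m f) z * (Psi m f z - 1)⁻¹ := by
    funext z
    rw [qf, div_eq_mul_inv]
  rw [e]
  exact h

/-- `q` is the logarithmic derivative of the slow function `Ψ - 1` (`Slow.Psi`, `Slow.sub_const`,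
`ld1` with `ε = 1`), and its poles are simple and lie at the finitely many zeros of `Ψ - 1`
(`S_bdd`). -/
theorem bd_q (hf : Hy m f) : Bd 2 (qf m f) := by
  have hs : Slow (fun z => Psi m f z - 1) :=
    (Slow.Psi m hf.slow (fun j _ => hf.mer j)).sub_const 1 (mer_G hf)
  have hq : qf m f = logDeriv (fun z => Psi m f z - 1) := by
    funext z
    rw [qf, logDeriv_apply, deriv_sub_const]
  have h1 := ld1 hs one_pos
  rw [← hq] at h1
  have hfin : {u : ℂ | ‖u‖ < 1 ∧ Pm (qf m f) u ≠ 0}.Finite := by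
    refine hf.fin.subset ?_
    rintro u ⟨hu, hp⟩
    have hub : u ∈ ball (0 : ℂ) 1 := by
      rw [mem_ball_zero_iff]
      exact hu
    refine ⟨hub, ?_⟩
    by_contra hne
    apply hp
    have hP := an_Psi hf u hub
    have ha : AnalyticAt ℂ (qf m f) u := by
      unfold qf
      exact (hP.deriv).fun_div (hP.fun_sub analyticAt_const) (sub_ne_zero.2 hne)
    have h2 := ha.meromorphicOrderAt_nonneg
    rw [← WithTop.coe_untop₀_of_ne_top ((mer_q hf).2 u hub)] at h2
    have h3 : 0 ≤ od (qf m f) u := by exact_mod_cast h2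
    rw [Pm, max_eq_right (by omega)]
    simp
  obtain ⟨C, hC⟩ := S_bdd hfin
  have hr : ∀ᶠ r : ℝ in 𝓝[<] (1 : ℝ), 0 < r ∧ r < 1 := by
    have h1 : Set.Ioo (0 : ℝ) 1 ∈ 𝓝[<] (1 : ℝ) := Ioo_mem_nhdsLT one_pos
    filter_upwards [h1] with r hr
    exact hr
  filter_upwards [h1, hr, L_tendsto.eventually_ge_atTop (C / 2)] with r h2 h3 h4
  refine ⟨by linarith, ?_⟩
  have := (le_abs_self _).trans (hC r h3.1 h3.2)
  linarith

end Pool.Agent.MP4b24a5.M1
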