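import Pool.Agent.Lib.MP_4b24a5_an_M1.EQ

set_option autoImplicit false

/-! MP_4b24a5_an, project M1, module EZ. -/

noncomputable section

namespace Pool.Agent.MP4b24a5.M1

open Complex Metric Real MeasureTheory Filter Topology

variable {k : ℕ} {m : Fin (k + 1) → ℕ} {f : ℂ → ℂ}

private theorem EZ_an (hf : Hy m f) (j : ℕ) {u : ℂ} (hu : u ∈ ball (0 : ℂ) 1) :
    AnalyticAt ℂ (iteratedDeriv j f) u := by
  rw [iteratedDeriv_eq_iterate]
  exact (hf.an u hu).iterated_deriv _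

private theorem EZ_merh (hf : Hy m f) (j : ℕ) :
    MeromorphicOn (fun z => deriv (iteratedDeriv j f) z / iteratedDeriv j f z) (ball 0 1) := by
  intro u hu
  exact (EZ_an hf j hu).deriv.meromorphicAt.div (EZ_an hf j hu).meromorphicAt

/-- At a zero of order `p ≥ 1` of `f⁽ʲ⁾`, `m j ≥ 2`, the monomial `Ψ` has a zero of order `≥ 2`,
`Ψ - 1` is not zero, so `q` has a zero; `f⁽ʲ⁺¹⁾ / f⁽ʲ⁾` has at most simple poles, at the zeros of
`f⁽ʲ⁾`. -/
theorem pole_z (hf : Hy m f) (j : Fin (k + 1)) (hj : 2 ≤ m j) {u : ℂ} (hu : u ∈ ball (0 : ℂ) 1) :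
    Pm (fun z => deriv (iteratedDeriv (j : ℕ) f) z / iteratedDeriv (j : ℕ) f z) u ≤
      Zf (qf m f) u := by
  have hlog : (fun z => deriv (iteratedDeriv (j : ℕ) f) z / iteratedDeriv (j : ℕ) f z) =
      logDeriv (iteratedDeriv (j : ℕ) f) := by
    funext z
    rw [logDeriv_apply]
  have hg := EZ_an hf (j : ℕ) hu
  have hgt := (hf.mer (j : ℕ)).2 u hu
  have hZ0 : 0 ≤ Zf (qf m f) u := by
    have h1 : (0 : ℤ) ≤ max (od (qf m f) u) 0 := le_max_right _ _
    unfold Zf
    exact_mod_cast h1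
  by_cases h0 : meromorphicOrderAt (iteratedDeriv (j : ℕ) f) u = 0
  · have h1 := meromorphicOrderAt_logDeriv_nonneg hg.meromorphicAt h0
    have h2 : 0 ≤ od (logDeriv (iteratedDeriv (j : ℕ) f)) u := by
      unfold od
      rw [WithTop.untop₀_nonneg]
      exact h1
    refine le_trans (le_of_eq ?_) hZ0
    unfold Pm
    rw [hlog, max_eq_right (by omega : -od (logDeriv (iteratedDeriv (j : ℕ) f)) u ≤ 0)]
    simp
  · have h1 := meromorphicOrderAt_logDeriv_eq_neg_one hg.meromorphicAt h0 hgt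
    have h2 : od (logDeriv (iteratedDeriv (j : ℕ) f)) u = -1 :=
      Ord.od_of_eq (by rw [h1]; rfl)
    have h3 : Pm (fun z => deriv (iteratedDeriv (j : ℕ) f) z / iteratedDeriv (j : ℕ) f z) u =
        1 := by
      unfold Pm
      rw [hlog, h2]
      norm_num
    rw [h3]
    have hM : ∀ i : Fin (k + 1), MeromorphicAt (iteratedDeriv (i : ℕ) f) u := fun i =>
      (EZ_an hf (i : ℕ) hu).meromorphicAt
    have hP := Ord.order_Psi m (fun i => od (iteratedDeriv (i : ℕ) f) u) hM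
      (fun i => Ord.eq_od ((hf.mer (i : ℕ)).2 u hu))
    have hoi : ∀ i : Fin (k + 1), 0 ≤ od (iteratedDeriv (i : ℕ) f) u := by
      intro i
      unfold od
      rw [WithTop.untop₀_nonneg]
      exact (EZ_an hf (i : ℕ) hu).meromorphicOrderAt_nonneg
    have hoj : 1 ≤ od (iteratedDeriv (j : ℕ) f) u := by
      have h4 := hoi j
      have h5 : od (iteratedDeriv (j : ℕ) f) u ≠ 0 := by
        intro h6
        apply h0
        rw [Ord.eq_od hgt, h6]
        rfl
      omega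
    have hQ : 2 ≤ ∑ i : Fin (k + 1), (m i : ℤ) * od (iteratedDeriv (i : ℕ) f) u := by
      have h4 := Finset.single_le_sum
        (f := fun i : Fin (k + 1) => (m i : ℤ) * od (iteratedDeriv (i : ℕ) f) u)
        (fun i _ => mul_nonneg (Int.natCast_nonneg _) (hoi i)) (Finset.mem_univ j)
      have h5 : (2 : ℤ) ≤ (m j : ℤ) := by exact_mod_cast hj
      have h6 : (2 : ℤ) ≤ (m j : ℤ) * od (iteratedDeriv (j : ℕ) f) u := by nlinarith
      exact h6.trans h4
    set Q : ℤ := ∑ i : Fin (k + 1), (m i : ℤ) * od (iteratedDeriv (i : ℕ) f) u with hQdef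
    have hPo : meromorphicOrderAt (Psi m f) u = (Q : WithTop ℤ) := hP.2
    have hdo : meromorphicOrderAt (deriv (Psi m f)) u = ((Q - 1 : ℤ) : WithTop ℤ) := by
      refine meromorphicOrderAt_deriv_eq_sub_one ?_ hPo
      rw [Int.cast_ne_zero]
      omega
    have hconst : meromorphicOrderAt (fun _ : ℂ => (-1 : ℂ)) u = 0 := by
      classical
      rw [meromorphicOrderAt_const, if_neg (neg_ne_zero.2 one_ne_zero)]
    have hGadd : (fun z => Psi m f z - 1) = Psi m f + fun _ => (-1 : ℂ) := by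
      funext z
      simp [sub_eq_add_neg]
    have hGo : meromorphicOrderAt (fun z => Psi m f z - 1) u = 0 := by
      rw [hGadd, meromorphicOrderAt_add_eq_right_of_lt hP.1, hconst]
      rw [hPo, hconst]
      have : (0 : ℤ) < Q := by omega
      exact_mod_cast this
    have hqo : meromorphicOrderAt (qf m f) u = ((Q - 1 : ℤ) : WithTop ℤ) := by
      have h4 : qf m f = deriv (Psi m f) / (fun z => Psi m f z - 1) := rfl
      rw [h4, meromorphicOrderAt_div (hf.merD.1 u hu) (hP.1.fun_sub (MeromorphicAt.const 1 u)),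
        hdo, hGo, sub_zero]
    have hq1 : od (qf m f) u = Q - 1 := Ord.od_of_eq hqo
    unfold Zf
    rw [hq1]
    have h7 : (1 : ℤ) ≤ max (Q - 1) 0 := le_max_of_le_left (by omega)
    exact_mod_cast h7

/-- `ld1` (with `ε = 1`, `Slow.iter`) and `pole_z`, `Bd.inv'` for `q` (`bd_q`, `mer_q`). -/
theorem bd_z (hf : Hy m f) (j : Fin (k + 1)) (hj : 2 ≤ m j) :
    Bd 5 (fun z => deriv (iteratedDeriv (j : ℕ) f) z / iteratedDeriv (j : ℕ) f z) := by
  have hlog : (fun z => deriv (iteratedDeriv (j : ℕ) f) z / iteratedDeriv (j : ℕ) f z) =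
      logDeriv (iteratedDeriv (j : ℕ) f) := by
    funext z
    rw [logDeriv_apply]
  have hs : Slow (iteratedDeriv (j : ℕ) f) :=
    Slow.iter hf.slow (k := (j : ℕ)) (fun i _ => hf.mer i) (j : ℕ) le_rfl
  have h1 := ld1 hs one_pos
  have h2 := Bd.inv' (mer_q hf) (bd_q hf)
  have h3 : ∀ᶠ r in 𝓝[<] (1 : ℝ), 0 ≤ L r := L_tendsto.eventually_ge_atTop 0
  have h4 : ∀ᶠ r : ℝ in 𝓝[<] (1 : ℝ), 0 < r ∧ r < 1 := Ioo_mem_nhdsLT (by norm_num)
  have hlf1 := lf_Pm (EZ_merh hf (j : ℕ))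
  have hlf2 := lf_Zf (mer_q hf).1
  unfold Bd
  filter_upwards [h1, h2, h3, h4] with r a1 a2 a3 a4
  constructor
  · rw [hlog]
    nlinarith
  · have h5 := S_mono hlf1 hlf2 (fun u _ hu => pole_z hf j hj (mem_ball_zero_iff.2 hu)) a4.1 a4.2
    have h6 := a2.2
    linarith

end Pool.Agent.MP4b24a5.M1
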