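import Pool.Agent.Lib.MP_4b24a5_an_M1.DFld

set_option autoImplicit false

/-! MP_4b24a5_an, project M1, module Itr. -/

namespace Pool.Agent.MP4b24a5.M1

variable {F : Type*} [Field F]

namespace DF

variable (S : DF F)

/-- If `D y = κ y` with `κ` small, then `D ^ j y` is a small multiple of `y`. -/
theorem lin1 {y κ : F} (hκ : κ ∈ S.K) (h : S.D y = κ * y) (j : ℕ) :
    ∃ a ∈ S.K, S.D^[j] y = a * y := by
  induction j with
  | zero => exact ⟨1, S.K.one_mem, by simp⟩
  | succ j ih =>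
    obtain ⟨a, ha, e⟩ := ih
    refine ⟨S.D a + a * κ, S.K.add_mem (S.D_mem _ ha) (S.K.mul_mem ha hκ), ?_⟩
    rw [Function.iterate_succ_apply', e, S.mul, h]
    ring

/-- the coefficients of `D ^ j y = P y' + Q y` for the solutions of `y'' = A y' + φ y` -/
def PQ (A φ : F) : ℕ → F × F
  | 0 => (0, 1)
  | j + 1 => (S.D (PQ A φ j).1 + (PQ A φ j).1 * A + (PQ A φ j).2,
      S.D (PQ A φ j).2 + (PQ A φ j).1 * φ)

theorem PQ_mem {A φ : F} (hA : A ∈ S.K) (hφ : φ ∈ S.K) (j : ℕ) :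
    (S.PQ A φ j).1 ∈ S.K ∧ (S.PQ A φ j).2 ∈ S.K := by
  induction j with
  | zero => exact ⟨S.K.zero_mem, S.K.one_mem⟩
  | succ j ih =>
    obtain ⟨h1, h2⟩ := ih
    refine ⟨?_, ?_⟩
    · simp only [PQ]
      exact S.K.add_mem (S.K.add_mem (S.D_mem _ h1) (S.K.mul_mem h1 hA)) h2
    · simp only [PQ]
      exact S.K.add_mem (S.D_mem _ h2) (S.K.mul_mem h1 hφ)

theorem PQ_iter {A φ y : F} (h : S.D (S.D y) = A * S.D y + φ * y) (j : ℕ) :
    S.D^[j] y = (S.PQ A φ j).1 * S.D y + (S.PQ A φ j).2 * y := by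
  induction j with
  | zero => simp [PQ]
  | succ j ih =>
    rw [Function.iterate_succ_apply', ih, S.add, S.mul, S.mul, h]
    simp only [PQ]
    ring

/-- `D ^ j p = lam j * p` for the solutions of `p' = lam p` -/
def lamS (l : F) : ℕ → F
  | 0 => 1
  | j + 1 => S.D (lamS l j) + lamS l j * l

/-- If `l' + l ^ 2 = A l + φ`, the solutions of `p' = l p` satisfy `p'' = A p' + φ p`. -/
theorem lamS_eq {A φ l : F} (h : S.D l + l ^ 2 = A * l + φ) (j : ℕ) :
    S.lamS l j = (S.PQ A φ j).1 * l + (S.PQ A φ j).2 := by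
  induction j with
  | zero => simp [lamS, PQ]
  | succ j ih =>
    have e : S.D l = A * l + φ - l ^ 2 := by linear_combination h
    simp only [lamS, PQ]
    rw [ih, S.add, S.mul, e]
    ring

/-- Let `j ≥ 1` be the first index with `lamS l j = 0`. Then `p = (lamS l (j - 1))⁻¹`. -/
theorem exists_p {l : F} (hl : l ∈ S.K) {i : ℕ} (h : S.lamS l i = 0) :
    ∃ p ∈ S.K, p ≠ 0 ∧ S.D p = l * p := by
  classical
  have hex : ∃ j, S.lamS l j = 0 := ⟨i, h⟩
  have h0 := Nat.find_spec hex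
  have hmin := fun j => Nat.find_min (m := j) hex
  set j := Nat.find hex with hj
  have hj0 : j ≠ 0 := by
    intro e
    rw [e] at h0
    simp only [lamS] at h0
    exact one_ne_zero h0
  obtain ⟨t, ht⟩ := Nat.exists_eq_succ_of_ne_zero hj0
  have hmem : ∀ t, S.lamS l t ∈ S.K := by
    intro t
    induction t with
    | zero => exact S.K.one_mem
    | succ t ih =>
      simp only [lamS]
      exact S.K.add_mem (S.D_mem _ ih) (S.K.mul_mem ih hl)
  have ht0 : S.lamS l t ≠ 0 := hmin t (by omega)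
  rw [ht] at h0
  simp only [Nat.succ_eq_add_one, lamS] at h0
  refine ⟨(S.lamS l t)⁻¹, S.K.inv_mem (hmem t), inv_ne_zero ht0, ?_⟩
  rw [S.D_inv ht0]
  have e : S.D (S.lamS l t) = -(S.lamS l t * l) := by linear_combination h0
  rw [e]
  field_simp

end DF

end Pool.Agent.MP4b24a5.M1
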