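import Pool.Agent.Lib.MP_4b24a5_an_M1.Der
import Pool.Agent.Lib.MP_4b24a5_an_M1.BdAdd
import Pool.Agent.Lib.MP_4b24a5_an_M1.BdMul
import Pool.Agent.Lib.MP_4b24a5_an_M1.BdInv

set_option autoImplicit false

/-! MP_4b24a5_an, project M1, module KsA. -/

noncomputable section

namespace Pool.Agent.MP4b24a5.M1

open Complex Metric Real MeasureTheory Filter Topology

theorem BF.add {c c' : ℝ} {x y : F0} (hx : BF c x) (hy : BF c' y) : BF (c + c' + 1) (x + y) := by
  obtain ⟨h, hh, rfl, hb⟩ := hx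
  obtain ⟨g, hg, rfl, hb'⟩ := hy
  exact ⟨h + g, fun z hz => (hh z hz).add (hg z hz), rfl, Bd.add hh hg hb hb'⟩

theorem BF.mul {c c' : ℝ} {x y : F0} (hx : BF c x) (hy : BF c' y) : BF (c + c') (x * y) := by
  obtain ⟨h, hh, rfl, hb⟩ := hx
  obtain ⟨g, hg, rfl, hb'⟩ := hy
  exact ⟨h * g, fun z hz => (hh z hz).mul (hg z hz), rfl, Bd.mul hh hg hb hb'⟩

theorem BF.inv {c : ℝ} {x : F0} (hx : BF c x) : BF (2 * c + 1) x⁻¹ := by
  obtain ⟨h, hh, rfl, hb⟩ := hx
  exact ⟨h⁻¹, fun z hz => (hh z hz).inv, rfl, Bd.inv hh hb⟩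

/-- The uniformly bounded families form a subfield: `LiftPred` of the lemmas above
(`Germ.inductionOn`, `Filter.Eventually.and`); `-x = (-1) * x`, constants by `Bd.constF`. -/
theorem KsP_add {x y : Fs} (hx : KsP x) (hy : KsP y) : KsP (x + y) := by
  induction x using Germ.inductionOn with
  | _ f =>
    induction y using Germ.inductionOn with
    | _ g =>
      obtain ⟨c, hc⟩ := KsP_coe.1 hx
      obtain ⟨c', hc'⟩ := KsP_coe.1 hy
      rw [← Germ.coe_add]
      refine KsP_coe.2 ⟨c + c' + 1, ?_⟩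
      filter_upwards [hc, hc'] with n h1 h2 using BF.add h1 h2

theorem KsP_mul {x y : Fs} (hx : KsP x) (hy : KsP y) : KsP (x * y) := by
  induction x using Germ.inductionOn with
  | _ f =>
    induction y using Germ.inductionOn with
    | _ g =>
      obtain ⟨c, hc⟩ := KsP_coe.1 hx
      obtain ⟨c', hc'⟩ := KsP_coe.1 hy
      rw [← Germ.coe_mul]
      refine KsP_coe.2 ⟨c + c', ?_⟩
      filter_upwards [hc, hc'] with n h1 h2 using BF.mul h1 h2

theorem KsP_inv {x : Fs} (hx : KsP x) : KsP x⁻¹ := by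
  induction x using Germ.inductionOn with
  | _ f =>
    obtain ⟨c, hc⟩ := KsP_coe.1 hx
    rw [← Germ.coe_inv]
    refine KsP_coe.2 ⟨2 * c + 1, ?_⟩
    filter_upwards [hc] with n h1 using BF.inv h1

theorem KsP_one : KsP 1 := by
  have h : (1 : Fs) = ((fun _ => (1 : F0) : ℕ → F0) : Fs) := rfl
  rw [h]
  exact KsP_coe.2 ⟨1, Eventually.of_forall fun _ =>
    ⟨fun _ => 1, fun z _ => MeromorphicAt.const 1 z, mk_one, Bd.constF 1 one_pos⟩⟩

theorem KsP_zero : KsP 0 := by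
  have h : (0 : Fs) = ((fun _ => (0 : F0) : ℕ → F0) : Fs) := rfl
  rw [h]
  exact KsP_coe.2 ⟨1, Eventually.of_forall fun _ =>
    ⟨fun _ => 0, fun z _ => MeromorphicAt.const 0 z, mk_zero, Bd.constF 0 one_pos⟩⟩

theorem KsP_neg {x : Fs} (hx : KsP x) : KsP (-x) := by
  have h1 : KsP (-1 : Fs) := by
    have h : (-1 : Fs) = ((fun _ => (-1 : F0) : ℕ → F0) : Fs) := rfl
    rw [h]
    exact KsP_coe.2 ⟨1, Eventually.of_forall fun _ =>
      ⟨fun _ => -1, fun z _ => MeromorphicAt.const (-1) z, rfl, Bd.constF (-1) one_pos⟩⟩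
  have h2 := KsP_mul h1 hx
  rwa [neg_one_mul] at h2

end Pool.Agent.MP4b24a5.M1
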