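import Pool.Agent.Lib.MP_4b24a5_an_M1.Der
import Pool.Agent.Lib.MP_4b24a5_an_M1.BdDer
import Pool.Agent.Lib.MP_4b24a5_an_M1.BdRoot

set_option autoImplicit false

/-! MP_4b24a5_an, project M1, module KsB. -/

noncomputable section

namespace Pool.Agent.MP4b24a5.M1

open Complex Metric Real MeasureTheory Filter Topology

private theorem KsB_D {c : ℝ} {x : F0} (hx : BF c x) : BF (2 * c + 2) (D0 x) := by
  obtain ⟨h, hh, rfl, hb⟩ := hx
  exact ⟨deriv h, hh.deriv, (D0_mk h hh).symm, Bd.deriv hh hb⟩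

theorem KsP_D {x : Fs} (hx : KsP x) : KsP (Ds x) := by
  induction x using Germ.inductionOn with
  | _ f =>
    rw [KsP_coe] at hx
    obtain ⟨c, hc⟩ := hx
    rw [Ds_coe, KsP_coe]
    exact ⟨2 * c + 2, hc.mono fun n hn => KsB_D hn⟩

private theorem KsB_pow {h : ℂ → ℂ} (hh : MeromorphicOn h (ball 0 1)) (n : ℕ) :
    (mk h hh) ^ n = mk (h ^ n) (fun z hz => (hh z hz).pow n) := by
  apply Subtype.ext
  change ((h : G0)) ^ n = ((h ^ n : ℂ → ℂ) : G0)
  rw [Germ.coe_pow]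

private theorem KsB_root {c : ℝ} {x : F0} {n : ℕ} (hn : n ≠ 0) (hx : BF c (x ^ n)) :
    BF c x := by
  obtain ⟨h, hh, rfl⟩ := exists_mk x
  obtain ⟨g, hg, hge, hb⟩ := hx
  rw [KsB_pow] at hge
  have h1 := Bd.congr hg (fun z hz => (hh z hz).pow n) (mk_eq.1 hge) hb
  exact ⟨h, hh, rfl, Bd.root hn hh h1⟩

/-- `BF c (x ^ n)` gives `BF c x`: take a representative `h` of `x`; `h ^ n` is a representative
of `x ^ n`, so `Bd c (h ^ n)` by `Bd.congr`; then `Bd.root`. -/
theorem KsP_root {x : Fs} {n : ℕ} (hn : n ≠ 0) (hx : KsP (x ^ n)) : KsP x := by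
  induction x using Germ.inductionOn with
  | _ f =>
    rw [← Germ.coe_pow, KsP_coe] at hx
    obtain ⟨c, hc⟩ := hx
    rw [KsP_coe]
    exact ⟨c, hc.mono fun i hi => KsB_root hn hi⟩

/-- If `h` is meromorphic at `0` and `h' = 0` near `0`, then `h` is constant near `0`: its order at
`0` is not negative (otherwise the order of `h'` is not `⊤`), so `h` agrees near `0` with an
analytic function with zero derivative. -/
theorem D0_eq_zero {x : F0} (hx : D0 x = 0) :
    ∃ a : ℂ, x = mk (fun _ => a) (fun z _ => MeromorphicAt.const a z) := by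
  obtain ⟨h, hh, rfl⟩ := exists_mk x
  rw [D0_mk] at hx
  replace hx : deriv h =ᶠ[𝓝[≠] (0 : ℂ)] fun _ => 0 := mk_eq.1 (hx.trans mk_zero.symm)
  have hm : MeromorphicAt h 0 := hh 0 (mem_ball_self one_pos)
  have htop : meromorphicOrderAt (deriv h) 0 = ⊤ := by
    rw [meromorphicOrderAt_eq_top_iff]
    exact hx
  by_cases ht : meromorphicOrderAt h 0 = ⊤
  · rw [meromorphicOrderAt_eq_top_iff] at ht
    exact ⟨0, mk_eq.2 ht⟩
  have hz : meromorphicOrderAt h 0 = 0 := by
    by_contra hne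
    have h1 := Ord.eq_od ht
    have h2 : od h 0 ≠ 0 := by
      intro h3
      apply hne
      rw [h1, h3]
      rfl
    have h3 := meromorphicOrderAt_deriv_eq_sub_one (Int.cast_ne_zero.2 h2) h1
    rw [htop] at h3
    exact WithTop.coe_ne_top h3.symm
  have hz' : meromorphicOrderAt h 0 = ((0 : ℤ) : WithTop ℤ) := hz
  rw [meromorphicOrderAt_eq_int_iff hm] at hz'
  obtain ⟨g, hg, -, hge⟩ := hz'
  have hge' : h =ᶠ[𝓝[≠] (0 : ℂ)] g := by
    filter_upwards [hge] with z hz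
    rw [hz]
    simp
  have hdg : deriv g =ᶠ[𝓝[≠] (0 : ℂ)] fun _ => 0 := hge'.nhdsNE_deriv.symm.trans hx
  have hdg2 : ∀ᶠ z in 𝓝 (0 : ℂ), deriv g z = 0 := by
    have h1 := hg.deriv.frequently_zero_iff_eventually_zero
    exact h1.1 hdg.frequently
  obtain ⟨r, hr, hball⟩ := Metric.eventually_nhds_iff_ball.1
    (hdg2.and hg.eventually_analyticAt)
  obtain ⟨a, ha⟩ := isOpen_ball.exists_is_const_of_deriv_eq_zero
    (convex_ball (0 : ℂ) r).isPreconnected
    (fun z hz => (hball z hz).2.differentiableAt.differentiableWithinAt)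
    (fun z hz => (hball z hz).1)
  refine ⟨a, mk_eq.2 ?_⟩
  have hmem : ∀ᶠ z in 𝓝[≠] (0 : ℂ), z ∈ ball (0 : ℂ) r :=
    nhdsWithin_le_nhds (ball_mem_nhds _ hr)
  filter_upwards [hge', hmem] with z h1 h2
  rw [h1, ha z h2]

/-- Families of constants are bounded: `Bd 1` for every constant (`Bd.constF`). -/
theorem KsP_const {x : Fs} (hx : Ds x = 0) : KsP x := by
  induction x using Germ.inductionOn with
  | _ f =>
    rw [Ds_coe] at hx
    have h0 : (0 : Fs) = ((fun _ => 0 : ℕ → F0) : Fs) := rfl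
    rw [h0, Germ.coe_eq] at hx
    rw [KsP_coe]
    refine ⟨1, hx.mono fun n hn => ?_⟩
    obtain ⟨a, ha⟩ := D0_eq_zero hn
    rw [ha]
    exact ⟨_, _, rfl, Bd.constF a one_pos⟩

/-- The family `z, z, z, ...`. -/
theorem KsP_xi : ∃ ξ : Fs, KsP ξ ∧ Ds ξ = 1 := by
  have hid : MeromorphicOn (fun z : ℂ => z) (ball 0 1) := fun z _ => analyticAt_id.meromorphicAt
  refine ⟨((fun _ => mk (fun z => z) hid : ℕ → F0) : Fs), ?_, ?_⟩
  · rw [KsP_coe]
    exact ⟨1, Eventually.of_forall fun n => ⟨_, hid, rfl, Bd.idF one_pos⟩⟩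
  · rw [Ds_coe]
    have h1 : (1 : Fs) = ((fun _ => 1 : ℕ → F0) : Fs) := rfl
    rw [h1, Germ.coe_eq]
    refine Eventually.of_forall fun n => ?_
    change D0 (mk (fun z => z) hid) = 1
    rw [D0_mk]
    refine (mk_eq.2 (Eventually.of_forall fun z => ?_)).trans mk_one
    simp

end Pool.Agent.MP4b24a5.M1
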