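import Pool.Agent.Lib.MP_4b24a5_an_M1.Der

set_option autoImplicit false

/-! MP_4b24a5_an, project M1, module Lnk. -/

noncomputable section

namespace Pool.Agent.MP4b24a5.M1

open Complex Metric Real MeasureTheory Filter Topology

/-- the element of the ultrapower given by a sequence of functions -/
def fam (h : ℕ → ℂ → ℂ) (hh : ∀ n, MeromorphicOn (h n) (ball 0 1)) : Fs :=
  ((fun n => mk (h n) (hh n) : ℕ → F0) : Fs)

theorem fam_congr {h g : ℕ → ℂ → ℂ} {hh : ∀ n, MeromorphicOn (h n) (ball 0 1)}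
    {hg : ∀ n, MeromorphicOn (g n) (ball 0 1)} (he : ∀ n, h n =ᶠ[𝓝[≠] (0 : ℂ)] g n) :
    fam h hh = fam g hg :=
  Germ.coe_eq.2 (Eventually.of_forall fun n => mk_eq.2 (he n))

private theorem Lnk_eq {h g : ℕ → ℂ → ℂ} {hh : ∀ n, MeromorphicOn (h n) (ball 0 1)}
    {hg : ∀ n, MeromorphicOn (g n) (ball 0 1)} (he : ∀ n, h n = g n) :
    fam h hh = fam g hg :=
  fam_congr fun n => Eventually.of_forall fun z => by rw [he n]

private theorem Lnk_mul {h g : ℕ → ℂ → ℂ} (hh : ∀ n, MeromorphicOn (h n) (ball 0 1))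
    (hg : ∀ n, MeromorphicOn (g n) (ball 0 1)) : fam h hh * fam g hg =
      fam (fun n => h n * g n) (fun n z hz => (hh n z hz).mul (hg n z hz)) := rfl

private theorem Lnk_one : (1 : Fs) = fam (fun _ _ => 1) (fun _ z _ => MeromorphicAt.const 1 z) :=
  rfl

private theorem Lnk_pow {h : ℕ → ℂ → ℂ} (hh : ∀ n, MeromorphicOn (h n) (ball 0 1)) (k : ℕ) :
    fam h hh ^ k = fam (fun n => h n ^ k) (fun n z hz => (hh n z hz).pow k) := by
  induction k with
  | zero =>
    rw [pow_zero, Lnk_one]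
    exact Lnk_eq fun n => (pow_zero (h n)).symm
  | succ k ih =>
    rw [pow_succ, ih, Lnk_mul]
    exact Lnk_eq fun n => (pow_succ (h n) k).symm

private theorem Lnk_mer {ι : Type} (s : Finset ι) (g : ι → ℂ → ℂ)
    (hg : ∀ i, MeromorphicOn (g i) (ball 0 1)) :
    MeromorphicOn (fun z => ∏ i ∈ s, g i z) (ball 0 1) := by
  classical
  induction s using Finset.induction_on with
  | empty =>
    simp only [Finset.prod_empty]
    exact fun z _ => MeromorphicAt.const 1 z
  | insert a s ha ih =>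
    simp only [Finset.prod_insert ha]
    exact fun z hz => (hg a z hz).mul (ih z hz)

private theorem Lnk_prod {ι : Type} (s : Finset ι) (g : ι → ℕ → ℂ → ℂ)
    (hg : ∀ i n, MeromorphicOn (g i n) (ball 0 1)) :
    ∏ i ∈ s, fam (g i) (hg i) = fam (fun n z => ∏ i ∈ s, g i n z)
      (fun n => Lnk_mer s (fun i => g i n) (fun i => hg i n)) := by
  classical
  induction s using Finset.induction_on with
  | empty =>
    rw [Finset.prod_empty, Lnk_one]
    exact Lnk_eq fun n => funext fun z => (Finset.prod_empty).symm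
  | insert a s ha ih =>
    rw [Finset.prod_insert ha, ih, Lnk_mul]
    exact Lnk_eq fun n => funext fun z =>
      (Finset.prod_insert (f := fun i => g i n z) ha).symm

/-- the derivatives of a sequence -/
theorem fam_iter (D : ℕ → ℂ → ℂ) (hD : ∀ n, MeromorphicOn (D n) (ball 0 1)) (j : ℕ) :
    Ds^[j] (fam D hD) = fam (fun n => iteratedDeriv j (D n))
      (fun n => by rw [iteratedDeriv_eq_iterate]; exact (hD n).iterated_deriv) := by
  induction j with
  | zero => exact Lnk_eq fun n => (iteratedDeriv_zero).symm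
  | succ j ih =>
    rw [Function.iterate_succ_apply', ih, fam, Ds_coe]
    refine Germ.coe_eq.2 (Eventually.of_forall fun n => ?_)
    change D0 (mk (iteratedDeriv j (D n)) _) = mk (iteratedDeriv (j + 1) (D n)) _
    rw [D0_mk, mk_eq, iteratedDeriv_succ]

private theorem Lnk_it {f : ℂ → ℂ} (hf : MeromorphicOn f (ball 0 1)) (j : ℕ) :
    MeromorphicOn (iteratedDeriv j f) (ball 0 1) := by
  rw [iteratedDeriv_eq_iterate]
  exact hf.iterated_deriv

theorem mer_Psi {k : ℕ} (m : Fin (k + 1) → ℕ) {f : ℂ → ℂ} (hf : MeromorphicOn f (ball 0 1)) :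
    MeromorphicOn (Psi m f) (ball 0 1) :=
  Lnk_mer Finset.univ (fun (j : Fin (k + 1)) z => iteratedDeriv (j : ℕ) f z ^ m j)
    (fun j z hz => (Lnk_it hf j z hz).pow (m j))

private theorem Lnk_ite {k : ℕ} (m : Fin (k + 1) → ℕ) {f : ℂ → ℂ}
    (hf : MeromorphicOn f (ball 0 1)) (j : Fin (k + 1)) :
    MeromorphicOn (fun z => if (j : ℕ) < 2 then 1 else iteratedDeriv (j : ℕ) f z ^ m j)
      (ball 0 1) := by
  by_cases hj : (j : ℕ) < 2
  · simp only [hj, if_true]
    exact fun z _ => MeromorphicAt.const 1 z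
  · simp only [hj, if_false]
    exact fun z hz => (Lnk_it hf j z hz).pow (m j)

theorem mer_Rf {k : ℕ} (m : Fin (k + 1) → ℕ) {f : ℂ → ℂ} (hf : MeromorphicOn f (ball 0 1)) :
    MeromorphicOn (Rf m f) (ball 0 1) :=
  Lnk_mer Finset.univ
    (fun (j : Fin (k + 1)) z => if (j : ℕ) < 2 then 1 else iteratedDeriv (j : ℕ) f z ^ m j)
    (fun j => Lnk_ite m hf j)

/-- `Ψ` of a sequence (induction on finite products of germs) -/
theorem fam_Psi {k : ℕ} (m : Fin (k + 1) → ℕ) (f : ℕ → ℂ → ℂ)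
    (hf : ∀ n, MeromorphicOn (f n) (ball 0 1)) :
    (∏ j : Fin (k + 1), (Ds^[(j : ℕ)] (fam f hf)) ^ m j) =
      fam (fun n => Psi m (f n)) (fun n => mer_Psi m (hf n)) := by
  have h1 := Lnk_prod Finset.univ
    (fun (j : Fin (k + 1)) n z => iteratedDeriv (j : ℕ) (f n) z ^ m j)
    (fun j n z hz => (Lnk_it (hf n) j z hz).pow (m j))
  refine Eq.trans (Finset.prod_congr rfl fun j _ => ?_) (h1.trans (Lnk_eq fun n => rfl))
  rw [fam_iter, Lnk_pow]
  exact Lnk_eq fun n => rfl

theorem fam_Rf {k : ℕ} (m : Fin (k + 1) → ℕ) (f : ℕ → ℂ → ℂ)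
    (hf : ∀ n, MeromorphicOn (f n) (ball 0 1)) :
    (∏ j : Fin (k + 1), if (j : ℕ) < 2 then 1 else (Ds^[(j : ℕ)] (fam f hf)) ^ m j) =
      fam (fun n => Rf m (f n)) (fun n => mer_Rf m (hf n)) := by
  have h1 := Lnk_prod Finset.univ
    (fun (j : Fin (k + 1)) n z =>
      if (j : ℕ) < 2 then 1 else iteratedDeriv (j : ℕ) (f n) z ^ m j)
    (fun j n => Lnk_ite m (hf n) j)
  refine Eq.trans (Finset.prod_congr rfl fun j _ => ?_) (h1.trans (Lnk_eq fun n => rfl))
  by_cases hj : (j : ℕ) < 2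
  · rw [if_pos hj, Lnk_one]
    exact Lnk_eq fun n => funext fun z => (if_pos hj).symm
  · rw [if_neg hj, fam_iter, Lnk_pow]
    exact Lnk_eq fun n => funext fun z => (if_neg hj).symm

end Pool.Agent.MP4b24a5.M1
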