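import Pool.Agent.Lib.MP_4b24a5_an_M1.BdMul
import Pool.Agent.Lib.MP_4b24a5_an_M1.BdAl
import Pool.Agent.Lib.MP_4b24a5_an_M1.BdDer

set_option autoImplicit false

/-! MP_4b24a5_an, project M1, module Norm. -/

noncomputable section

namespace Pool.Agent.MP4b24a5.M1

open Complex Metric Real MeasureTheory Filter Topology

variable {k : ℕ}

/-- `Ψ` of a constant multiple. -/
theorem Psi_smul (m : Fin (k + 1) → ℕ) (f : ℂ → ℂ) (a z : ℂ) :
    Psi m (fun y => a * f y) z = a ^ deg m * Psi m f z := by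
  unfold Psi deg
  have h : ∀ j : Fin (k + 1), iteratedDeriv (j : ℕ) (fun y => a * f y) z ^ m j =
      a ^ m j * iteratedDeriv (j : ℕ) f z ^ m j := by
    intro j
    rw [iteratedDeriv_const_mul_field, mul_pow]
  rw [Finset.prod_congr rfl fun j _ => h j, Finset.prod_mul_distrib, Finset.prod_pow_eq_pow_sum]

private theorem Norm_alph_le {f : ℂ → ℂ} {c : ℝ}
    (h : ∀ ε : ℝ, 0 < ε → ∃ C : ℝ, ∀ᶠ r in 𝓝[<] (1 : ℝ), T f r ≤ (c + ε) * L r + C) :
    alph f ≤ (c : EReal) := by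
  have key : ∀ ε : ℝ, 0 < ε → alph f ≤ ((c + ε : ℝ) : EReal) := by
    intro ε hε
    obtain ⟨C, hC⟩ := h (ε / 2) (by positivity)
    unfold alph
    refine limsup_le_of_le (h := ?_)
    have h1 : ∀ᶠ r in 𝓝[<] (1 : ℝ), max 1 (2 * C / ε) ≤ L r :=
      L_tendsto.eventually_ge_atTop _
    filter_upwards [hC, h1] with r hr h1
    have hL1 : 1 ≤ L r := (le_max_left _ _).trans h1
    have hL2 : 2 * C / ε ≤ L r := (le_max_right _ _).trans h1
    rw [EReal.coe_le_coe_iff, div_le_iff₀ (by linarith)]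
    rw [div_le_iff₀ hε] at hL2
    nlinarith
  by_contra hcon
  rw [not_le] at hcon
  obtain ⟨q, hq1, hq2⟩ := EReal.lt_iff_exists_real_btwn.mp hcon
  rw [EReal.coe_lt_coe_iff] at hq1
  have h2 := key (q - c) (by linarith)
  rw [add_sub_cancel] at h2
  exact absurd hq2 (not_lt.mpr h2)

private theorem Norm_mer {f : ℂ → ℂ} (hf : MeromorphicNFOn f (ball 0 1))
    (hc : ¬ ∃ c, ∀ z ∈ ball (0 : ℂ) 1, f z = c) : Mer f := by
  refine ⟨hf.meromorphicOn, ?_⟩
  by_contra hcon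
  push Not at hcon
  obtain ⟨z0, hz0, hz0t⟩ := hcon
  have htop : ∀ u ∈ ball (0 : ℂ) 1, meromorphicOrderAt f u = ⊤ := by
    intro u hu
    by_contra hcon
    exact hf.meromorphicOn.meromorphicOrderAt_ne_top_of_isPreconnected
      (convex_ball (0 : ℂ) 1).isPreconnected hu hz0 hcon hz0t
  apply hc
  refine ⟨0, fun z hz => ?_⟩
  by_contra h0
  have h1 := (hf hz).meromorphicOrderAt_eq_zero_iff.mpr h0
  rw [htop z hz] at h1
  exact absurd h1 (by simp)

private theorem Norm_slow {f : ℂ → ℂ} (hf : MeromorphicNFOn f (ball 0 1))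
    (hc : ¬ ∃ c, ∀ z ∈ ball (0 : ℂ) 1, f z = c) (ha : alph f < ⊤) : Slow f := by
  refine ⟨Norm_mer hf hc, ?_⟩
  obtain ⟨K, hK1, _⟩ := EReal.lt_iff_exists_real_btwn.mp ha
  refine ⟨K, ?_⟩
  have h1 := Filter.eventually_lt_of_limsup_lt hK1
  have h2 : ∀ᶠ r in 𝓝[<] (1 : ℝ), 1 ≤ L r := L_tendsto.eventually_ge_atTop _
  filter_upwards [h1, h2] with r h1 h2
  rw [EReal.coe_lt_coe_iff, div_lt_iff₀ (by linarith)] at h1
  exact h1.le

private theorem Norm_const {a : ℂ} (ha : a ≠ 0) : Mer (fun _ => a) := by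
  refine ⟨fun z _ => MeromorphicAt.const a z, fun z _ => ?_⟩
  have h1 : MeromorphicNFAt (fun _ : ℂ => a) z := (analyticAt_const).meromorphicNFAt
  have h2 := h1.meromorphicOrderAt_eq_zero_iff.mpr ha
  rw [h2]
  simp

/-- Normalization. Let `a ^ deg m = w⁻¹` and `g = a f`. `f` is slow (compare `fin_slow`,
`fin_mer` in `MP_4b24a5_an/Fin.lean`). No derivative of `f` vanishes identically and `Ψ_f` is not
constant, because otherwise `poly_case` or `cst_case` (with `ε = 1`) give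
`alph f ≤ wgt m + 1`. Derivatives of `g` are `a` times those of `f` (`deriv_const_mul_field`).
Finally, `f = a⁻¹ g`, so `Bd c g` gives `Bd (c + 1) f` and `alph f ≤ 2 (c + 1)`. -/
theorem exists_hy (m : Fin (k + 1) → ℕ) (h0 : 1 ≤ m 0) (f : ℂ → ℂ)
    (hf : AnalyticOnNhd ℂ f (ball 0 1)) (hc : ¬ ∃ c, ∀ z ∈ ball (0 : ℂ) 1, f z = c)
    (ha : alph f < ⊤) (hbig : (((wgt m : ℝ) + 1 : ℝ) : EReal) < alph f) (w : ℂ) (hw : w ≠ 0)
    (hfin : {z | z ∈ ball (0 : ℂ) 1 ∧ Psi m f z = w}.Finite) :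
    ∃ g : ℂ → ℂ, Hy m g ∧ ∀ c : ℝ, Bd c g → alph f ≤ ((2 * c + 2 : ℝ) : EReal) := by
  have hNF : MeromorphicNFOn f (ball 0 1) := fun z hz => (hf z hz).meromorphicNFAt
  have hs := Norm_slow hNF hc ha
  have hdeg : m 0 ≤ deg m :=
    Finset.single_le_sum (fun i _ => Nat.zero_le (m i)) (Finset.mem_univ 0)
  have hdeg1 : 1 ≤ deg m := h0.trans hdeg
  have hd1 : (1 : ℝ) ≤ deg m := by exact_mod_cast hdeg1
  have hw0 : (0 : ℝ) ≤ wgt m := Nat.cast_nonneg _
  have hLev : ∀ᶠ r in 𝓝[<] (1 : ℝ), 1 ≤ L r := L_tendsto.eventually_ge_atTop _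
  have hIoo : ∀ᶠ r in 𝓝[<] (1 : ℝ), (1 / 2 : ℝ) < r ∧ r < 1 := Ioo_mem_nhdsLT (by norm_num)
  have hA : ∀ j : ℕ, Mer (iteratedDeriv j f) := by
    intro j
    by_contra hj
    obtain ⟨C, hC⟩ := poly_case hNF hj
    have h1 : alph f ≤ (((wgt m : ℝ) + 1 : ℝ) : EReal) := by
      refine Norm_alph_le fun ε hε => ⟨C, ?_⟩
      filter_upwards [hLev, hIoo] with r h2 h3
      have h4 := hC r (by linarith [h3.1]) h3.2
      have h5 : 0 ≤ ((wgt m : ℝ) + 1 + ε) * L r := by positivity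
      linarith
    exact absurd hbig (not_lt.mpr h1)
  have hB : Mer (deriv (Psi m f)) := by
    by_contra hB
    have h1 : alph f ≤ (((wgt m : ℝ) + 1 : ℝ) : EReal) := by
      refine Norm_alph_le fun ε hε => ⟨0, ?_⟩
      filter_upwards [cst_case m hNF hs h0 (fun j _ => hA j) hB one_pos, hLev] with r h3 h2
      have h5 : 0 ≤ ε * L r := by positivity
      rcases le_or_gt (T f r) 0 with h6 | h6
      · have h7 : 0 ≤ ((wgt m : ℝ) + 1) * L r := by positivity
        linarith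
      · nlinarith
    exact absurd hbig (not_lt.mpr h1)
  obtain ⟨a, ha'⟩ := IsAlgClosed.exists_pow_nat_eq (w⁻¹) (n := deg m) (by omega)
  have ha0 : a ≠ 0 := by
    rintro rfl
    rw [zero_pow (by omega)] at ha'
    exact inv_ne_zero hw ha'.symm
  have hca : Mer (fun _ => a) := Norm_const ha0
  have hsa : Slow (fun _ => a) := Bd.slow hca (Bd.constF a one_pos)
  have hit : ∀ j : ℕ, iteratedDeriv j (fun y => a * f y) = fun y => a * iteratedDeriv j f y := by
    intro j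
    funext z
    exact iteratedDeriv_const_mul_field a f
  have hPsi : Psi m (fun y => a * f y) = fun z => w⁻¹ * Psi m f z := by
    funext z
    rw [Psi_smul, ha']
  refine ⟨fun y => a * f y, ⟨?_, ?_, ?_, ?_, ?_⟩, ?_⟩
  · exact analyticOnNhd_const.mul hf
  · exact Slow.mul hsa hs
  · intro j
    rw [hit j]
    exact Mer.mul hca (hA j)
  · have h1 : deriv (Psi m (fun y => a * f y)) = fun z => w⁻¹ * deriv (Psi m f) z := by
      funext z
      rw [hPsi, deriv_const_mul_field]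
    rw [h1]
    exact Mer.mul (Norm_const (inv_ne_zero hw)) hB
  · refine hfin.subset ?_
    rintro z ⟨hz, h1⟩
    refine ⟨hz, ?_⟩
    rw [hPsi] at h1
    dsimp only at h1
    rw [inv_mul_eq_one₀ hw] at h1
    exact h1.symm
  · intro c hcg
    have h1 : MeromorphicOn (fun y => a * f y) (ball 0 1) := (Mer.mul hca hs.1).1
    have h2 := Bd.mul (fun z _ => MeromorphicAt.const a⁻¹ z) h1
      (Bd.constF a⁻¹ one_pos) hcg
    have h3 : ((fun _ => a⁻¹) * fun y => a * f y : ℂ → ℂ) = f := by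
      funext z
      show a⁻¹ * (a * f z) = f z
      rw [inv_mul_cancel_left₀ ha0]
    rw [h3] at h2
    have h4 := h2.alph_le
    rwa [show 2 * (1 + c) = 2 * c + 2 by ring] at h4

end Pool.Agent.MP4b24a5.M1
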