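import Pool.Agent.Lib.MP_4b24a5_an_M1.EZ
import Pool.Agent.Lib.MP_4b24a5_an_M1.EPhC
import Pool.Agent.Lib.MP_4b24a5_an_M1.EPsi
import Pool.Agent.Lib.MP_4b24a5_an_M1.Norm
import Pool.Agent.Lib.MP_4b24a5_an_M1.KsA
import Pool.Agent.Lib.MP_4b24a5_an_M1.KsB
import Pool.Agent.Lib.MP_4b24a5_an_M1.Lnk
import Pool.Agent.Lib.MP_4b24a5_an_M1.AlgM

set_option autoImplicit false

/-! MP_4b24a5_an, project M1: assembly. -/

noncomputable section

namespace Pool.Agent.MP4b24a5.M1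

open Complex Metric Real MeasureTheory Filter Topology

/-- the subfield of the uniformly bounded families -/
def Ks : Subfield Fs where
  carrier := {x | KsP x}
  mul_mem' := KsP_mul
  one_mem' := KsP_one
  add_mem' := KsP_add
  zero_mem' := KsP_zero
  neg_mem' := KsP_neg
  inv_mem' := fun _ hx => KsP_inv hx

/-- the ultrapower as a differential field with small elements -/
def DFs : DF Fs where
  D := Ds
  add := Ds_add
  mul := Ds_mul
  K := Ks
  D_mem := fun _ hx => KsP_D hx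
  root := fun _ _ hn hx => KsP_root hn hx
  const := fun _ hx => KsP_const hx
  ξ := KsP_xi.choose
  ξ_mem := KsP_xi.choose_spec.1
  D_ξ := KsP_xi.choose_spec.2

theorem DFs_D : DFs.D = Ds := rfl

theorem fam_mem {h : ℕ → ℂ → ℂ} {hh : ∀ n, MeromorphicOn (h n) (ball 0 1)} {c : ℝ}
    (hb : ∀ᶠ n in ((hyperfilter ℕ : Ultrafilter ℕ) : Filter ℕ), Bd c (h n)) :
    fam h hh ∈ Ks := by
  refine ⟨c, ?_⟩
  change ∀ᶠ n in ((hyperfilter ℕ : Ultrafilter ℕ) : Filter ℕ), BF c (mk (h n) (hh n))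
  filter_upwards [hb] with n hn using ⟨h n, hh n, rfl, hn⟩

theorem of_fam_mem {h : ℕ → ℂ → ℂ} {hh : ∀ n, MeromorphicOn (h n) (ball 0 1)}
    (hm : fam h hh ∈ Ks) : ∃ c : ℝ,
      ∀ᶠ n in ((hyperfilter ℕ : Ultrafilter ℕ) : Filter ℕ), Bd c (h n) := by
  obtain ⟨c, hc⟩ := hm
  refine ⟨c, ?_⟩
  change ∀ᶠ n in ((hyperfilter ℕ : Ultrafilter ℕ) : Filter ℕ), BF c (mk (h n) (hh n)) at hc
  filter_upwards [hc] with n hn
  obtain ⟨g, hg, h1, h2⟩ := hn
  exact Bd.congr hg (hh n) (mk_eq.1 h1) h2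

theorem fam_D (h : ℕ → ℂ → ℂ) (hh : ∀ n, MeromorphicOn (h n) (ball 0 1)) :
    Ds (fam h hh) = fam (fun n => deriv (h n)) (fun n => (hh n).deriv) := by
  rw [fam, Ds_coe]
  exact congrArg (fun x : ℕ → F0 => (x : Fs)) (funext fun n => D0_mk _ _)

theorem fam_div (h g : ℕ → ℂ → ℂ) (hh : ∀ n, MeromorphicOn (h n) (ball 0 1))
    (hg : ∀ n, MeromorphicOn (g n) (ball 0 1)) :
    fam h hh / fam g hg = fam (fun n => h n / g n) (fun n z hz => (hh n z hz).div (hg n z hz)) := by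
  rw [fam, fam, ← Germ.coe_div]
  exact congrArg (fun x : ℕ → F0 => (x : Fs)) (funext fun n => mk_div _ _)

theorem fam_sub (h g : ℕ → ℂ → ℂ) (hh : ∀ n, MeromorphicOn (h n) (ball 0 1))
    (hg : ∀ n, MeromorphicOn (g n) (ball 0 1)) :
    fam h hh - fam g hg = fam (fun n => h n - g n) (fun n z hz => (hh n z hz).sub (hg n z hz)) := rfl

theorem fam_mul (h g : ℕ → ℂ → ℂ) (hh : ∀ n, MeromorphicOn (h n) (ball 0 1))
    (hg : ∀ n, MeromorphicOn (g n) (ball 0 1)) :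
    fam h hh * fam g hg = fam (fun n => h n * g n) (fun n z hz => (hh n z hz).mul (hg n z hz)) := rfl

theorem fam_const (c : ℕ) : fam (fun _ _ => (c : ℂ)) (fun _ z _ => MeromorphicAt.const (c : ℂ) z) =
    (c : Fs) := by
  induction c with
  | zero =>
    simp only [Nat.cast_zero]
    rfl
  | succ c ih =>
    have h1 : ((c + 1 : ℕ) : Fs) = (c : Fs) + 1 := Nat.cast_succ c
    rw [h1, ← ih]
    refine congrArg (fun x : ℕ → F0 => (x : Fs)) (funext fun n => ?_)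
    refine Subtype.ext (Germ.coe_eq.2 (Eventually.of_forall fun z => ?_))
    simp

section

variable {k : ℕ} {m : Fin (k + 1) → ℕ} {f : ℕ → ℂ → ℂ}

theorem link_q (hf : ∀ n, MeromorphicOn (f n) (ball 0 1))
    (hq : ∀ n, MeromorphicOn (qf m (f n)) (ball 0 1)) :
    DFs.D (DFs.Psf m (fam f hf)) / (DFs.Psf m (fam f hf) - 1) =
      fam (fun n => qf m (f n)) hq := by
  have h1 : DFs.Psf m (fam f hf) = fam (fun n => Psi m (f n)) (fun n => mer_Psi m (hf n)) :=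
    fam_Psi m f hf
  have h2 : (1 : Fs) = fam (fun _ _ => ((1 : ℕ) : ℂ))
      (fun _ z _ => MeromorphicAt.const ((1 : ℕ) : ℂ) z) := by
    rw [fam_const]; simp
  rw [h1, DFs_D, fam_D, h2, fam_sub, fam_div]
  refine fam_congr fun n => Eventually.of_forall fun z => ?_
  simp [qf]

theorem link_z (hf : ∀ n, MeromorphicOn (f n) (ball 0 1)) (j : ℕ)
    (hz : ∀ n, MeromorphicOn (fun z => deriv (iteratedDeriv j (f n)) z / iteratedDeriv j (f n) z)
      (ball 0 1)) :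
    DFs.D (DFs.D^[j] (fam f hf)) / DFs.D^[j] (fam f hf) =
      fam (fun n z => deriv (iteratedDeriv j (f n)) z / iteratedDeriv j (f n) z) hz := by
  change Ds (Ds^[j] (fam f hf)) / Ds^[j] (fam f hf) = _
  rw [fam_iter, fam_D, fam_div]
  rfl

theorem link_A (hf : ∀ n, MeromorphicOn (f n) (ball 0 1))
    (hA : ∀ n, MeromorphicOn (Af m (f n)) (ball 0 1)) :
    DFs.Asf m (fam f hf) = fam (fun n => Af m (f n)) hA := by
  have h1 : DFs.Psf m (fam f hf) = fam (fun n => Psi m (f n)) (fun n => mer_Psi m (hf n)) :=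
    fam_Psi m f hf
  have h3 : DFs.Rsf m (fam f hf) = fam (fun n => Rf m (f n)) (fun n => mer_Rf m (hf n)) :=
    fam_Rf m f hf
  have h2 : (2 : Fs) = fam (fun _ _ => ((2 : ℕ) : ℂ))
      (fun _ z _ => MeromorphicAt.const ((2 : ℕ) : ℂ) z) := by
    rw [fam_const]; simp
  have h4 : (3 : Fs) = fam (fun _ _ => ((3 : ℕ) : ℂ))
      (fun _ z _ => MeromorphicAt.const ((3 : ℕ) : ℂ) z) := by
    rw [fam_const]; simp
  rw [DF.Asf, h1, h3, DFs_D, fam_D, fam_D, fam_D, h2, h4, fam_div, fam_div, fam_mul, fam_sub,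
    fam_div]
  refine fam_congr fun n => Eventually.of_forall fun z => ?_
  simp [Af]

theorem link_phi (hf : ∀ n, MeromorphicOn (f n) (ball 0 1))
    (hA : ∀ n, MeromorphicOn (Af m (f n)) (ball 0 1))
    (hφ : ∀ n, MeromorphicOn (phf m (f n)) (ball 0 1)) :
    DFs.phsf m (fam f hf) = fam (fun n => phf m (f n)) hφ := by
  rw [DF.phsf, link_A hf hA, DFs_D, fam_D, fam_D, fam_mul, fam_sub, fam_div]
  refine fam_congr fun n => Eventually.of_forall fun z => ?_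
  simp [phf]

/-- The key step: a sequence of normalized functions is bounded along an ultrafilter. -/
theorem bounded (h0 : m 0 = 1) (hd : 2 ≤ ∑ j, m j)
    (h2 : ∀ j : Fin (k + 1), 2 ≤ (j : ℕ) → m j ≠ 1) (hf : ∀ n, Hy m (f n)) :
    ∃ c : ℝ, ∃ᶠ n in atTop, Bd c (f n) := by
  have hm : ∀ n, MeromorphicOn (f n) (ball 0 1) := fun n z hz => ((hf n).an z hz).meromorphicAt
  have hq : ∀ n, MeromorphicOn (qf m (f n)) (ball 0 1) := fun n => (mer_q (hf n)).1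
  have hz : ∀ (j : ℕ) (n : ℕ),
      MeromorphicOn (fun z => deriv (iteratedDeriv j (f n)) z / iteratedDeriv j (f n) z)
      (ball 0 1) := fun j n z hz =>
    (((hf n).mer j).1.deriv z hz).div (((hf n).mer j).1 z hz)
  have hA : ∀ n, MeromorphicOn (Af m (f n)) (ball 0 1) := fun n => mer_A (hf n)
  have hφ : ∀ n, MeromorphicOn (phf m (f n)) (ball 0 1) := fun n => mer_phi (hf n)
  have kq : DFs.D (DFs.Psf m (fam f hm)) / (DFs.Psf m (fam f hm) - 1) ∈ DFs.K := by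
    rw [link_q hm hq]
    exact fam_mem (c := 2) (Eventually.of_forall fun n => bd_q (hf n))
  have kz : ∀ j : Fin (k + 1), 1 ≤ (j : ℕ) → 2 ≤ m j →
      DFs.D (DFs.D^[(j : ℕ)] (fam f hm)) / DFs.D^[(j : ℕ)] (fam f hm) ∈ DFs.K := by
    intro j _ hj
    rw [link_z hm j (hz j)]
    exact fam_mem (c := 5) (Eventually.of_forall fun n => bd_z (hf n) j hj)
  have kA : DFs.Asf m (fam f hm) ∈ DFs.K := DF.Asf_mem DFs m h2 _ kq kz
  have kφ : 1 ≤ k → (∀ j : Fin (k + 1), (j : ℕ) = 1 → m j = 1) →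
      DFs.phsf m (fam f hm) ∈ DFs.K := by
    intro hk h1
    rw [link_A hm hA] at kA
    obtain ⟨c, hc⟩ := of_fam_mem kA
    rw [link_phi hm hA hφ]
    refine fam_mem (c := c + 7) ?_
    filter_upwards [hc] with n hn using bd_phi (hf n) h0 h1 hk h2 hn
  have key : ∃ c : ℝ, ∀ᶠ n in ((hyperfilter ℕ : Ultrafilter ℕ) : Filter ℕ), Bd c (f n) := by
    rcases DF.alg_main DFs m h0 hd h2 _ kq kz kφ with h | h
    · exact of_fam_mem h
    · have h1 : DFs.Psf m (fam f hm) = fam (fun n => Psi m (f n)) (fun n => mer_Psi m (hm n)) :=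
        fam_Psi m f hm
      rw [h1] at h
      obtain ⟨c, hc⟩ := of_fam_mem h
      refine ⟨4 * c + 2 * wgt m + 5, ?_⟩
      filter_upwards [hc] with n hn using psi_small (hf n) h0.ge hn
  obtain ⟨c, hc⟩ := key
  refine ⟨c, ?_⟩
  have h1 : ∃ᶠ n in ((hyperfilter ℕ : Ultrafilter ℕ) : Filter ℕ), Bd c (f n) := hc.frequently
  exact h1.filter_mono Nat.hyperfilter_le_atTop

/-- The threshold. -/
theorem threshold (h0 : m 0 = 1) (hd : 2 ≤ ∑ j, m j)
    (h2 : ∀ j : Fin (k + 1), 2 ≤ (j : ℕ) → m j ≠ 1) :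
    ∃ C : ℝ, 0 ≤ C ∧ ∀ f : ℂ → ℂ, AnalyticOnNhd ℂ f (ball 0 1) →
      (¬ ∃ c, ∀ z ∈ ball (0 : ℂ) 1, f z = c) → alph f < ⊤ → (C : EReal) < alph f →
      ∀ w : ℂ, w ≠ 0 → {z | z ∈ ball (0 : ℂ) 1 ∧ Psi m f z = w}.Infinite := by
  by_contra hcon
  push Not at hcon
  have hex : ∀ n : ℕ, ∃ g : ℂ → ℂ, Hy m g ∧ ∀ c : ℝ, Bd c g → (n : ℝ) < 2 * c + 2 := by
    intro n
    obtain ⟨f, hf, hc, ha, hC, w, hw, hfin⟩ := hcon ((n : ℝ) + wgt m + 1) (by positivity)
    have hbig : (((wgt m : ℝ) + 1 : ℝ) : EReal) < alph f := by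
      refine lt_of_le_of_lt ?_ hC
      rw [EReal.coe_le_coe_iff]
      have : (0 : ℝ) ≤ n := Nat.cast_nonneg n
      linarith
    obtain ⟨g, hg, hgc⟩ := exists_hy m h0.ge f hf (by push Not; exact hc) ha hbig w hw hfin
    refine ⟨g, hg, fun c hb => ?_⟩
    have h1 := lt_of_lt_of_le hC (hgc c hb)
    rw [EReal.coe_lt_coe_iff] at h1
    have : (0 : ℝ) ≤ wgt m := Nat.cast_nonneg _
    linarith
  choose g hg hgc using hex
  obtain ⟨c, hc⟩ := bounded h0 hd h2 hg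
  obtain ⟨N, hN⟩ := exists_nat_ge (2 * c + 2)
  obtain ⟨n, hn, hb⟩ := (frequently_atTop.1 hc) N
  have h1 := hgc n c hb
  have h3 : (N : ℝ) ≤ n := by exact_mod_cast hn
  linarith

end

end Pool.Agent.MP4b24a5.M1
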